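import Mathlib

open Set Metric NNReal Filter Topology

namespace LorBall

variable {E : Type*} [NormedAddCommGroup E]

/-- a contracting flow -/
structure CFlow (E : Type*) [NormedAddCommGroup E] where
  /-- the flow -/
  φ : ℝ → E → E
  zero : ∀ x, φ 0 x = x
  add : ∀ s t x, φ (s + t) x = φ s (φ t x)
  cont : Continuous fun q : ℝ × E => φ q.1 q.2
  /-- rate -/
  l : ℝ
  lpos : 0 < l
  contr : ∀ t, 0 ≤ t → ∀ x y, ‖φ t x - φ t y‖ ≤ Real.exp (-(l * t)) * ‖x - y‖

namespace CFlow

variable (F : CFlow E)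

theorem neg_cancel (t : ℝ) (x : E) : F.φ (-t) (F.φ t x) = x := by
  rw [← F.add, neg_add_cancel, F.zero]

theorem cancel_neg (t : ℝ) (x : E) : F.φ t (F.φ (-t) x) = x := by
  rw [← F.add, add_neg_cancel, F.zero]

theorem cont_right (t : ℝ) : Continuous (F.φ t) :=
  F.cont.comp (Continuous.prodMk_right t)

theorem cont_left (x : E) : Continuous fun t => F.φ t x :=
  F.cont.comp (Continuous.prodMk_left x)

theorem exists_fixed [CompleteSpace E] : ∃ p, (∀ t, F.φ t p = p) ∧
    ∀ x, Tendsto (fun n : ℕ => F.φ n x) atTop (𝓝 p) := by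
  have hK : Real.exp (-(F.l * 1)) < 1 := by
    rw [Real.exp_lt_one_iff]
    have := F.lpos
    linarith
  obtain ⟨K, hKe⟩ : ∃ K : ℝ≥0, (K : ℝ) = Real.exp (-(F.l * 1)) :=
    ⟨⟨Real.exp (-(F.l * 1)), (Real.exp_pos _).le⟩, rfl⟩
  have hC : ContractingWith K (F.φ 1) := by
    refine ⟨?_, ?_⟩
    · rw [← NNReal.coe_lt_coe, hKe]
      exact hK
    · apply LipschitzWith.of_dist_le_mul
      intro x y
      rw [dist_eq_norm, dist_eq_norm, hKe]
      exact F.contr 1 zero_le_one x y
  have hfix := hC.fixedPoint_isFixedPt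
  have hit : ∀ (n : ℕ) x, (F.φ 1)^[n] x = F.φ n x := by
    intro n x
    induction n with
    | zero => simp [F.zero]
    | succ n ih =>
      rw [Function.iterate_succ_apply', ih, ← F.add]
      congr 1
      push_cast
      ring
  refine ⟨ContractingWith.fixedPoint (F.φ 1) hC, ?_, ?_⟩
  · intro t
    apply hC.fixedPoint_unique
    unfold Function.IsFixedPt
    rw [← F.add, add_comm, F.add]
    rw [hfix.eq]
  · intro x
    have := hC.tendsto_iterate_fixedPoint x
    simp_rw [hit] at this
    exact this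

variable {F} {p : E}

theorem ne_of_ne (hp : ∀ t, F.φ t p = p) {x : E} (hx : x ≠ p) (t : ℝ) : F.φ t x ≠ p := by
  intro h
  apply hx
  have := F.neg_cancel t x
  rw [h, hp] at this
  exact this.symm

theorem norm_le (hp : ∀ t, F.φ t p = p) (x : E) {t : ℝ} (ht : 0 ≤ t) :
    ‖F.φ t x - p‖ ≤ Real.exp (-(F.l * t)) * ‖x - p‖ := by
  have := F.contr t ht x p
  rwa [hp] at this

theorem norm_le' (hp : ∀ t, F.φ t p = p) (x : E) {t : ℝ} (ht : 0 ≤ t) :
    ‖F.φ t x - p‖ ≤ ‖x - p‖ := by
  refine (norm_le hp x ht).trans ?_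
  have h1 : Real.exp (-(F.l * t)) ≤ 1 := by
    rw [Real.exp_le_one_iff]
    have := F.lpos
    have := mul_nonneg F.lpos.le ht
    linarith
  exact mul_le_of_le_one_left (norm_nonneg _) h1

/-- the sets we consider -/
structure Abs (F : CFlow E) (p : E) (Q : Set E) : Prop where
  cpt : IsCompact Q
  inv : ∀ t, 0 < t → ∀ x ∈ Q, F.φ t x ∈ interior Q
  mem : p ∈ interior Q

/-- the exit time -/
noncomputable def exitTime (F : CFlow E) (Q : Set E) (x : E) : ℝ := sSup {s | F.φ (-s) x ∈ Q}

section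
variable {Q : Set E} (hp : ∀ t, F.φ t p = p) (hQ : Abs F p Q)
include hp hQ

theorem exit_nonempty (x : E) : {s | F.φ (-s) x ∈ Q}.Nonempty := by
  obtain ⟨ε, hε, hball⟩ := Metric.isOpen_iff.1 isOpen_interior p hQ.mem
  -- for large t
  have h1 : Tendsto (fun t : ℝ => Real.exp (-(F.l * t)) * ‖x - p‖) atTop (𝓝 0) := by
    have h2 : Tendsto (fun t : ℝ => F.l * t) atTop atTop :=
      tendsto_id.const_mul_atTop F.lpos
    have h3 := Real.tendsto_exp_neg_atTop_nhds_zero.comp h2
    have h4 := h3.mul_const ‖x - p‖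
    simpa using h4
  obtain ⟨t, ht, ht0⟩ := ((h1.eventually (gt_mem_nhds hε)).and (eventually_ge_atTop 0)).exists
  refine ⟨-t, ?_⟩
  simp only [mem_ofPred_eq, neg_neg]
  apply interior_subset
  apply hball
  rw [mem_ball, dist_eq_norm]
  exact (norm_le hp x ht0).trans_lt ht

theorem exit_bdd {x : E} (hx : x ≠ p) : BddAbove {s | F.φ (-s) x ∈ Q} := by
  obtain ⟨R, hR⟩ := hQ.cpt.isBounded.exists_norm_le
  have hxp : 0 < ‖x - p‖ := norm_pos_iff.2 (sub_ne_zero.2 hx)
  have h2 : Tendsto (fun t : ℝ => Real.exp (F.l * t) * ‖x - p‖) atTop atTop := by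
    have h3 : Tendsto (fun t : ℝ => F.l * t) atTop atTop :=
      tendsto_id.const_mul_atTop F.lpos
    exact (Real.tendsto_exp_atTop.comp h3).atTop_mul_const hxp
  obtain ⟨M, hM⟩ := ((h2.eventually (eventually_gt_atTop (R + ‖p‖))).and
    (eventually_ge_atTop 0)).exists_forall_of_atTop
  refine ⟨M, ?_⟩
  intro s hs
  by_contra hcon
  push Not at hcon
  obtain ⟨h4, h5⟩ := hM s hcon.le
  have h6 := norm_le hp (F.φ (-s) x) h5
  rw [F.cancel_neg] at h6
  have h7 : Real.exp (F.l * s) * ‖x - p‖ ≤ ‖F.φ (-s) x - p‖ := by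
    have h8 : Real.exp (F.l * s) * (Real.exp (-(F.l * s)) * ‖F.φ (-s) x - p‖)
        = ‖F.φ (-s) x - p‖ := by
      rw [← mul_assoc, ← Real.exp_add]
      simp
    rw [← h8]
    exact mul_le_mul_of_nonneg_left h6 (Real.exp_pos _).le
  have h9 : ‖F.φ (-s) x - p‖ ≤ R + ‖p‖ := (norm_sub_le _ _).trans (by
    have := hR _ hs
    linarith)
  linarith

omit hp in
theorem inv' {x : E} (hx : x ∈ Q) {t : ℝ} (ht : 0 ≤ t) : F.φ t x ∈ Q := by
  rcases ht.eq_or_lt with h | h
  · rw [← h, F.zero]; exact hx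
  · exact interior_subset (hQ.inv t h x hx)

theorem mem_iff_le {x : E} (hx : x ≠ p) (a : ℝ) : F.φ (-a) x ∈ Q ↔ a ≤ exitTime F Q x := by
  have hclosed : IsClosed {s | F.φ (-s) x ∈ Q} :=
    hQ.cpt.isClosed.preimage ((F.cont_left x).comp continuous_neg)
  have hmem : exitTime F Q x ∈ {s | F.φ (-s) x ∈ Q} :=
    hclosed.csSup_mem (exit_nonempty hp hQ x) (exit_bdd hp hQ hx)
  constructor
  · intro h
    exact le_csSup (exit_bdd hp hQ hx) h
  · intro h
    have h1 : F.φ (-a) x = F.φ (exitTime F Q x - a) (F.φ (-(exitTime F Q x)) x) := by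
      rw [← F.add]
      congr 1
      ring
    rw [h1]
    exact inv' hQ hmem (by linarith)

theorem mem_interior_iff_lt {x : E} (hx : x ≠ p) (a : ℝ) :
    F.φ (-a) x ∈ interior Q ↔ a < exitTime F Q x := by
  constructor
  · intro h
    have h1 : ∀ᶠ s in 𝓝 a, F.φ (-s) x ∈ interior Q :=
      ((F.cont_left x).comp continuous_neg).continuousAt.eventually
        (isOpen_interior.mem_nhds h)
    obtain ⟨ε, hε, hball⟩ := Metric.eventually_nhds_iff.1 h1
    have h2 : F.φ (-(a + ε / 2)) x ∈ interior Q := hball (by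
      rw [Real.dist_eq]
      have : a + ε / 2 - a = ε / 2 := by ring
      rw [this, abs_of_pos (by linarith)]
      linarith)
    have h3 := (mem_iff_le hp hQ hx (a + ε / 2)).1 (interior_subset h2)
    linarith
  · intro h
    have h0 := (mem_iff_le hp hQ hx (exitTime F Q x)).2 le_rfl
    have h1 : F.φ (-a) x = F.φ (exitTime F Q x - a) (F.φ (-(exitTime F Q x)) x) := by
      rw [← F.add]
      congr 1
      ring
    rw [h1]
    exact hQ.inv _ (by linarith) _ h0

theorem exitTime_flow {x : E} (hx : x ≠ p) (t : ℝ) :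
    exitTime F Q (F.φ t x) = exitTime F Q x + t := by
  have hx' := ne_of_ne hp hx t
  apply le_antisymm
  · have h1 := (mem_iff_le hp hQ hx' _).2 le_rfl
    rw [← F.add] at h1
    have h2 : F.φ (-(exitTime F Q (F.φ t x) - t)) x ∈ Q := by
      convert h1 using 2
      ring
    have h3 := (mem_iff_le hp hQ hx _).1 h2
    linarith
  · apply (mem_iff_le hp hQ hx' _).1
    rw [← F.add]
    have h1 := (mem_iff_le hp hQ hx _).2 le_rfl
    convert h1 using 2
    ring

theorem exitTime_continuousAt {x : E} (hx : x ≠ p) : ContinuousAt (exitTime F Q) x := by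
  have hne : ∀ᶠ y in 𝓝 x, y ≠ p := isOpen_ne.mem_nhds hx
  rw [ContinuousAt, tendsto_order]
  constructor
  · intro a ha
    have h1 := (mem_interior_iff_lt hp hQ hx a).2 ha
    have h2 : ∀ᶠ y in 𝓝 x, F.φ (-a) y ∈ interior Q :=
      (F.cont_right (-a)).continuousAt.eventually (isOpen_interior.mem_nhds h1)
    filter_upwards [hne, h2] with y hy hy2
    exact (mem_interior_iff_lt hp hQ hy a).1 hy2
  · intro a ha
    have h1 : F.φ (-a) x ∉ Q := fun h => not_le.2 ha ((mem_iff_le hp hQ hx a).1 h)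
    have h2 : ∀ᶠ y in 𝓝 x, F.φ (-a) y ∈ Qᶜ :=
      (F.cont_right (-a)).continuousAt.eventually (hQ.cpt.isClosed.isOpen_compl.mem_nhds h1)
    filter_upwards [hne, h2] with y hy hy2
    by_contra hcon
    push Not at hcon
    exact hy2 ((mem_iff_le hp hQ hy a).2 hcon)

end

open Classical in
/-- Two compact absorbing sets, one inside the other, are homeomorphic. -/
theorem homeo_of_subset {Q B : Set E} (hp : ∀ t, F.φ t p = p) (hQ : Abs F p Q) (hB : Abs F p B)
    (hBQ : B ⊆ Q) : Nonempty (Q ≃ₜ B) := by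
  let c : E → ℝ := fun x => exitTime F Q x - exitTime F B x
  let h : E → E := fun x => if x = p then p else F.φ (c x) x
  have hc0 : ∀ x, x ≠ p → 0 ≤ c x := by
    intro x hx
    have h1 := (mem_iff_le hp hB hx _).2 le_rfl
    have h2 := (mem_iff_le hp hQ hx _).1 (hBQ h1)
    simp only [c]
    linarith
  have hcinv : ∀ x, x ≠ p → ∀ t, c (F.φ t x) = c x := by
    intro x hx t
    simp only [c]
    rw [exitTime_flow hp hQ hx, exitTime_flow hp hB hx]
    ring
  have hhp : h p = p := by simp [h]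
  have hhx : ∀ x, x ≠ p → h x = F.φ (c x) x := fun x hx => by simp [h, hx]
  have hhne : ∀ x, x ≠ p → h x ≠ p := fun x hx => by
    rw [hhx x hx]; exact ne_of_ne hp hx _
  have hmemQ : ∀ x, x ≠ p → (x ∈ Q ↔ 0 ≤ exitTime F Q x) := by
    intro x hx
    have := mem_iff_le hp hQ hx 0
    rwa [neg_zero, F.zero] at this
  have hmemB : ∀ x, x ≠ p → (x ∈ B ↔ 0 ≤ exitTime F B x) := by
    intro x hx
    have := mem_iff_le hp hB hx 0
    rwa [neg_zero, F.zero] at this
  have hexB : ∀ x, x ≠ p → exitTime F B (h x) = exitTime F Q x := by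
    intro x hx
    rw [hhx x hx, exitTime_flow hp hB hx]
    simp only [c]
    ring
  have hmap : ∀ x ∈ Q, h x ∈ B := by
    intro x hx
    by_cases hxp : x = p
    · rw [hxp, hhp]
      exact interior_subset hB.mem
    · rw [hmemB _ (hhne x hxp), hexB x hxp]
      exact (hmemQ x hxp).1 hx
  have hinj : ∀ x y, h x = h y → x = y := by
    intro x y hxy
    by_cases hx : x = p
    · by_cases hy : y = p
      · rw [hx, hy]
      · exfalso
        rw [hx, hhp] at hxy
        exact hhne y hy hxy.symm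
    · by_cases hy : y = p
      · exfalso
        rw [hy, hhp] at hxy
        exact hhne x hx hxy
      · have h1 : c x = c y := by
          rw [← hcinv x hx (c x), ← hcinv y hy (c y), ← hhx x hx, ← hhx y hy, hxy]
        rw [hhx x hx, hhx y hy, h1] at hxy
        rw [← F.neg_cancel (c y) x, hxy, F.neg_cancel]
  have hsurj : ∀ y ∈ B, ∃ x ∈ Q, h x = y := by
    intro y hy
    by_cases hyp : y = p
    · exact ⟨p, interior_subset hQ.mem, by rw [hhp, hyp]⟩
    · have hne := ne_of_ne hp hyp (-(c y))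
      refine ⟨F.φ (-(c y)) y, ?_, ?_⟩
      · rw [hmemQ _ hne, exitTime_flow hp hQ hyp]
        have := (hmemB y hyp).1 hy
        simp only [c]
        linarith
      · rw [hhx _ hne, hcinv y hyp, F.cancel_neg]
  have hcont : Continuous h := by
    rw [continuous_iff_continuousAt]
    intro x
    by_cases hx : x = p
    · subst hx
      rw [ContinuousAt, hhp, Metric.tendsto_nhds]
      intro ε hε
      filter_upwards [Metric.ball_mem_nhds x hε] with y hy
      by_cases hy2 : y = x
      · rw [hy2, hhp, dist_self]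
        exact hε
      · rw [hhx y hy2, dist_eq_norm]
        rw [mem_ball, dist_eq_norm] at hy
        exact (norm_le' hp y (hc0 y hy2)).trans_lt hy
    · have h1 : ContinuousAt c x :=
        (exitTime_continuousAt hp hQ hx).sub (exitTime_continuousAt hp hB hx)
      have h2 : ContinuousAt (fun y => F.φ (c y) y) x :=
        F.cont.continuousAt.comp (f := fun y => (c y, y)) (h1.prodMk continuousAt_id)
      apply h2.congr
      filter_upwards [isOpen_ne.mem_nhds hx] with y hy
      rw [hhx y hy]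
  have hQc : CompactSpace Q := isCompact_iff_compactSpace.1 hQ.cpt
  let g : Q → B := fun x => ⟨h x, hmap x x.2⟩
  have hg : Continuous g := (hcont.comp continuous_subtype_val).subtype_mk _
  have hgb : Function.Bijective g := by
    constructor
    · intro x y hxy
      have : h x = h y := congrArg Subtype.val hxy
      exact Subtype.ext (hinj _ _ this)
    · intro y
      obtain ⟨x, hx, hxy⟩ := hsurj y y.2
      exact ⟨⟨x, hx⟩, Subtype.ext hxy⟩
  exact ⟨hg.homeoOfEquivCompactToT2 (f := Equiv.ofBijective g hgb)⟩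

end CFlow

open CFlow

/-- A compact nonempty set that a contracting flow maps into its interior is homeomorphic to
a closed ball. -/
theorem ball_of_flow {E : Type*} [NormedAddCommGroup E] [NormedSpace ℝ E] [CompleteSpace E]
    (F : CFlow E) (Q : Set E) (hc : IsCompact Q) (hne : Q.Nonempty)
    (hinv : ∀ t, 0 < t → ∀ x ∈ Q, F.φ t x ∈ interior Q) :
    ∃ (p : E) (r : ℝ), 0 < r ∧ Nonempty (Q ≃ₜ closedBall p r) := by
  obtain ⟨p, hp, hlim⟩ := F.exists_fixed
  have hpQ : p ∈ Q := by
    obtain ⟨x, hx⟩ := hne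
    apply hc.isClosed.mem_of_tendsto (hlim x)
    filter_upwards [eventually_gt_atTop 0] with n hn
    exact interior_subset (hinv n (by exact_mod_cast hn) x hx)
  have hpi : p ∈ interior Q := by
    have := hinv 1 one_pos p hpQ
    rwa [hp] at this
  have hQ : Abs F p Q := ⟨hc, hinv, hpi⟩
  obtain ⟨ε, hε, hball⟩ := Metric.isOpen_iff.1 isOpen_interior p hpi
  have hBsub : closedBall p (ε / 2) ⊆ Q := fun x hx => interior_subset
    (hball (closedBall_subset_ball (by linarith) hx))
  have hB : Abs F p (closedBall p (ε / 2)) := by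
    refine ⟨?_, ?_, ?_⟩
    · exact hc.of_isClosed_subset isClosed_closedBall hBsub
    · intro t ht x hx
      apply ball_subset_interior_closedBall
      rw [mem_ball, dist_eq_norm]
      rw [mem_closedBall, dist_eq_norm] at hx
      have h1 := norm_le hp x ht.le
      have h2 : Real.exp (-(F.l * t)) < 1 := by
        rw [Real.exp_lt_one_iff]
        have := mul_pos F.lpos ht
        linarith
      have h3 : Real.exp (-(F.l * t)) * ‖x - p‖ ≤ Real.exp (-(F.l * t)) * (ε / 2) :=
        mul_le_mul_of_nonneg_left hx (Real.exp_pos _).le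
      have h4 : Real.exp (-(F.l * t)) * (ε / 2) < 1 * (ε / 2) :=
        mul_lt_mul_of_pos_right h2 (by linarith)
      linarith
    · exact ball_subset_interior_closedBall (mem_ball_self (by linarith))
  exact ⟨p, ε / 2, by linarith, homeo_of_subset hp hQ hB hBsub⟩

end LorBall
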