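import Pool.Agent.LorBall.VecField

open Set Filter Topology Function NNReal

namespace LorBall

variable {d m : ℕ} {K : Set (Vec m)} {N : ℝ}

/-- the differential equation for a trajectory -/
def Traj (hK : GoodCone K N) (R ε : ℝ) (X : ℝ → S0 d m) : Prop :=
  ∀ t, HasDerivAt X (AL (X t) + ε • (bf hK R (X t) • (CW d m N • (X t) - WS d m N))) t

theorem traj_coord {hK : GoodCone K N} {R ε : ℝ} {X : ℝ → S0 d m} (hX : Traj hK R ε X)
    (i : Idx d m) (t : ℝ) :
    HasDerivAt (fun s => tens (X s) i) (-(dk i : ℝ) * tens (X t) i +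
      ε * bf hK R (X t) * (CW d m N * tens (X t) i - WT N i)) t := by
  have h1 : HasDerivAt (fun s => cdL i (X s)) (cdL i (AL (X t) +
      ε • (bf hK R (X t) • (CW d m N • (X t) - WS d m N)))) t :=
    (cdL i).hasFDerivAt.comp_hasDerivAt t (hX t)
  have h2 := h1.const_add (cT i)
  have h3 : cdL i (AL (X t) + ε • (bf hK R (X t) • (CW d m N • (X t) - WS d m N)))
      = -(dk i : ℝ) * tens (X t) i +
      ε * bf hK R (X t) * (CW d m N * tens (X t) i - WT N i) := by
    have h4 : (dk i : ℝ) * cT i = 0 := by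
      by_cases hi : i = fun _ => 0
      · rw [hi, dk_zero]; simp
      · simp [cT, hi]
    rw [cdL_apply, cd_add, cd_AL, cd_smul, cd_smul, cd_sub, cd_smul, cd_WS]
    unfold tens
    linear_combination h4
  rw [h3] at h2
  exact h2

theorem traj_P {hK : GoodCone K N} {R ε : ℝ} {X : ℝ → S0 d m} (hX : Traj hK R ε X)
    (s : ℝ) (u : Fin d → Vec m) (σ : ℝ) :
    HasDerivAt (fun σ => P (tens (X σ)) (fun j => Sc (Real.exp (σ - s)) (u j)))
      (ε * bf hK R (X σ) * (CW d m N * P (tens (X σ)) (fun j => Sc (Real.exp (σ - s)) (u j)) -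
        P (WT N) (fun j => Sc (Real.exp (σ - s)) (u j)))) σ := by
  have hfun : (fun σ => P (tens (X σ)) (fun j => Sc (Real.exp (σ - s)) (u j))) =
      fun σ => ∑ i, (tens (X σ) i * Real.exp ((dk i : ℝ) * (σ - s))) * ∏ j, u j (i j) := by
    funext σ
    rw [P_Sc]
    apply Finset.sum_congr rfl
    intro i _
    rw [← Real.exp_nat_mul]
  have hexp : ∀ i : Idx d m, HasDerivAt (fun σ => Real.exp ((dk i : ℝ) * (σ - s)))
      (Real.exp ((dk i : ℝ) * (σ - s)) * dk i) σ := by
    intro i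
    have h1 : HasDerivAt (fun σ : ℝ => (dk i : ℝ) * (σ - s)) (dk i : ℝ) σ := by
      have := ((hasDerivAt_id σ).sub_const s).const_mul (dk i : ℝ)
      simpa using this
    exact h1.exp
  have hd : HasDerivAt (fun σ => ∑ i, (tens (X σ) i * Real.exp ((dk i : ℝ) * (σ - s))) *
      ∏ j, u j (i j)) (∑ i, (((-(dk i : ℝ) * tens (X σ) i +
      ε * bf hK R (X σ) * (CW d m N * tens (X σ) i - WT N i)) * Real.exp ((dk i : ℝ) * (σ - s)) +
      tens (X σ) i * (Real.exp ((dk i : ℝ) * (σ - s)) * dk i)) * ∏ j, u j (i j))) σ := by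
    have h2 := HasDerivAt.fun_sum (u := Finset.univ)
      (fun (i : Idx d m) _ => (((traj_coord hX i σ).mul (hexp i)).mul_const (∏ j, u j (i j))))
    exact h2
  rw [hfun]
  convert hd using 1
  rw [P_Sc, P_Sc, Finset.mul_sum, ← Finset.sum_sub_distrib, Finset.mul_sum]
  apply Finset.sum_congr rfl
  intro i _
  rw [← Real.exp_nat_mul]
  ring

theorem P_WT_bound (hK : GoodCone K N) : ∃ w : ℝ, 0 < w ∧ ∀ u ∈ Sgd d K, P (WT N) u ≤ w := by
  refine ⟨N ^ d * ∑ i : Idx d m, |WT N i| + 1, ?_, ?_⟩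
  · have : 0 ≤ N ^ d := pow_nonneg (by linarith [hK.N_ge]) d
    have h2 : 0 ≤ ∑ i : Idx d m, |WT N i| := Finset.sum_nonneg fun i _ => abs_nonneg _
    positivity
  · intro u hu
    have := (abs_le.1 (P_bound hK (WT N) hu)).2
    linarith

theorem traj_cont {hK : GoodCone K N} {R ε : ℝ} {X : ℝ → S0 d m} (hX : Traj hK R ε X) :
    Continuous X := continuous_iff_continuousAt.2 fun t => (hX t).continuousAt

/-- positivity along trajectories -/
theorem traj_pos {hK : GoodCone K N} {R ε : ℝ} (hε : 0 < ε) {X : ℝ → S0 d m}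
    (hX : Traj hK R ε X) (h0 : X 0 ∈ QS K) {s : ℝ} (hs : 0 < s) {u : Fin d → Vec m}
    (hu : u ∈ Sgd d K) : 0 < P (tens (X s)) u := by
  obtain ⟨w, hw, hWb⟩ := P_WT_bound (d := d) hK
  set y : ℝ → ℝ := fun σ => P (tens (X σ)) (fun j => Sc (Real.exp (σ - s)) (u j)) with hy
  have hyd := traj_P hX s u
  have hu' := mem_Sgd.1 hu
  have hy0 : 0 < y 0 := by
    apply h0.pos
    intro j
    apply hK.Sc_mem (hu' j).1
    · rw [(hu' j).2]; exact one_pos
    · exact (Real.exp_pos _).le
    · rw [Real.exp_lt_one_iff]; linarith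
  set c : ℝ := ε * w + 1 with hc
  have hcpos : 0 < c := by positivity
  have hB : ∀ x, HasDerivAt (fun σ => -(y 0 * Real.exp (-(c * σ))))
      (c * (y 0 * Real.exp (-(c * x)))) x := by
    intro x
    have h1 : HasDerivAt (fun σ : ℝ => -(c * σ)) (-c) x := by
      have := (hasDerivAt_id x).const_mul (-c)
      simpa using this
    have h2 : HasDerivAt (fun σ => -(y 0 * Real.exp (-(c * σ))))
        (-(y 0 * (Real.exp (-(c * x)) * -c))) x := (h1.exp.const_mul (y 0)).neg
    convert h2 using 1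
    ring
  have key := image_le_of_deriv_right_lt_deriv_boundary (f := fun σ => -(y σ)) (a := 0) (b := s)
    (f' := fun σ => -(ε * bf hK R (X σ) * (CW d m N * P (tens (X σ))
      (fun j => Sc (Real.exp (σ - s)) (u j)) -
        P (WT N) (fun j => Sc (Real.exp (σ - s)) (u j)))))
    (by
      intro σ _
      exact ((hyd σ).neg).continuousAt.continuousWithinAt)
    (by
      intro σ _
      exact ((hyd σ).neg).hasDerivWithinAt)
    (B := fun σ => -(y 0 * Real.exp (-(c * σ))))
    (B' := fun σ => c * (y 0 * Real.exp (-(c * σ))))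
    (by simp) hB
    (by
      intro σ hσ heq
      change -(y σ) = -(y 0 * Real.exp (-(c * σ))) at heq
      have hyσ : y σ = y 0 * Real.exp (-(c * σ)) := by linarith
      have hyσpos : 0 < y σ := by rw [hyσ]; exact mul_pos hy0 (Real.exp_pos _)
      rw [← hyσ]
      have hmem : (fun j => Sc (Real.exp (σ - s)) (u j)) ∈ Sgd d K := by
        rw [mem_Sgd]
        intro j
        apply hK.Sc_mem_Sg (hu' j) (Real.exp_pos _).le
        rw [Real.exp_le_one_iff]
        linarith [hσ.2]
      have hb0 := bf_nonneg hK R (X σ)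
      have hC := CW_nonneg (d := d) (m := m) (N := N) (by linarith [hK.N_ge])
      have hyval : P (tens (X σ)) (fun j => Sc (Real.exp (σ - s)) (u j)) = y σ := rfl
      rw [hyval]
      have h1 : bf hK R (X σ) * P (WT N) (fun j => Sc (Real.exp (σ - s)) (u j)) ≤ w * y σ := by
        rcases hb0.eq_or_lt with h | h
        · rw [← h, zero_mul]
          positivity
        · have h2 := (bf_le_mf hK R (X σ) h).trans (mf_le hK (X σ) hmem)
          rw [hyval] at h2
          calc bf hK R (X σ) * P (WT N) (fun j => Sc (Real.exp (σ - s)) (u j))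
              ≤ bf hK R (X σ) * w := mul_le_mul_of_nonneg_left (hWb _ hmem) hb0
            _ ≤ y σ * w := mul_le_mul_of_nonneg_right h2 hw.le
            _ = w * y σ := by ring
      have h3 : 0 ≤ bf hK R (X σ) * (CW d m N * y σ) := by positivity
      have h4 : ε * (bf hK R (X σ) * P (WT N) (fun j => Sc (Real.exp (σ - s)) (u j)))
          ≤ ε * (w * y σ) := mul_le_mul_of_nonneg_left h1 hε.le
      have h5 : 0 ≤ ε * (bf hK R (X σ) * (CW d m N * y σ)) := mul_nonneg hε.le h3
      have h6 : -(ε * bf hK R (X σ) * (CW d m N * y σ -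
          P (WT N) (fun j => Sc (Real.exp (σ - s)) (u j)))) =
          ε * (bf hK R (X σ) * P (WT N) (fun j => Sc (Real.exp (σ - s)) (u j))) -
          ε * (bf hK R (X σ) * (CW d m N * y σ)) := by ring
      rw [h6, hc]
      have h7 : (ε * w + 1) * y σ = ε * (w * y σ) + y σ := by ring
      rw [h7]
      linarith)
  have h8 : -(y s) ≤ -(y 0 * Real.exp (-(c * s))) := key (right_mem_Icc.2 hs.le)
  have h9 : y s = P (tens (X s)) u := by
    simp only [hy, sub_self, Real.exp_zero]
    congr 1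
    funext j
    rw [Sc_one]
  rw [← h9]
  have h10 : 0 < y 0 * Real.exp (-(c * s)) := mul_pos hy0 (Real.exp_pos _)
  linarith

theorem bf_traj_pos {hK : GoodCone K N} {R ε : ℝ} (hε : 0 < ε)
    (hR : ∀ x : S0 d m, (∀ u : Fin d → Vec m, (∀ j, u j ∈ K) → 0 ≤ P (tens x) u) → ‖x‖ < R)
    {X : ℝ → S0 d m} (hX : Traj hK R ε X) (h0 : X 0 ∈ QS K) {s : ℝ} (hs : 0 < s) :
    0 < bf hK R (X s) := by
  have h1 : ∀ u ∈ Sgd d K, 0 < P (tens (X s)) u := fun u hu => traj_pos hε hX h0 hs hu
  apply bf_pos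
  · obtain ⟨u, hu, h2⟩ := mf_mem hK (X s)
    rw [h2]
    exact h1 u hu
  · exact hR _ fun u hu => (pos_of_Sgd hK h1 u hu).le

/-- comparison of the forms along trajectories -/
theorem traj_lt {hK : GoodCone K N} {R ε : ℝ} (hε : 0 < ε)
    (hR : ∀ x : S0 d m, (∀ u : Fin d → Vec m, (∀ j, u j ∈ K) → 0 ≤ P (tens x) u) → ‖x‖ < R)
    {X : ℝ → S0 d m} (hX : Traj hK R ε X) (h0 : X 0 ∈ QS K) {s : ℝ} (hs : 0 < s) :
    ∃ κ : ℝ, 0 < κ ∧ ∀ u : Fin d → Vec m,
      (∀ θ : ℝ, 0 < θ → θ ≤ 1 → 0 < P (WT N) (fun j => Sc θ (u j))) →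
      P (tens (X s)) u < κ * P (tens (X 0)) (fun j => Sc (Real.exp (-s)) (u j)) := by
  have hbc : Continuous fun σ => bf hK R (X σ) := (bf_continuous hK R).comp (traj_cont hX)
  set β : ℝ → ℝ := fun σ => ∫ τ in (0 : ℝ)..σ, ε * CW d m N * bf hK R (X τ) with hβ
  have hβd : ∀ σ, HasDerivAt β (ε * CW d m N * bf hK R (X σ)) σ := by
    intro σ
    have hc : Continuous fun τ => ε * CW d m N * bf hK R (X τ) := by fun_prop
    exact intervalIntegral.integral_hasDerivAt_right (hc.intervalIntegrable _ _)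
      (hc.stronglyMeasurableAtFilter _ _) hc.continuousAt
  have hβ0 : β 0 = 0 := by simp [hβ]
  refine ⟨Real.exp (β s), Real.exp_pos _, ?_⟩
  intro u hu
  set y : ℝ → ℝ := fun σ => P (tens (X σ)) (fun j => Sc (Real.exp (σ - s)) (u j)) with hy
  have hyd := traj_P hX s u
  set g : ℝ → ℝ := fun σ => P (WT N) (fun j => Sc (Real.exp (σ - s)) (u j)) with hg
  have hh : ∀ σ, HasDerivAt (fun σ => Real.exp (-(β σ)) * y σ)
      (-(Real.exp (-(β σ)) * (ε * bf hK R (X σ) * g σ))) σ := by
    intro σ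
    have h1 : HasDerivAt (fun σ => Real.exp (-(β σ)) * y σ)
        (Real.exp (-(β σ)) * -(ε * CW d m N * bf hK R (X σ)) * y σ +
        Real.exp (-(β σ)) * (ε * bf hK R (X σ) * (CW d m N * y σ - g σ))) σ :=
      ((hβd σ).neg.exp).mul (hyd σ)
    have h2 : -(Real.exp (-(β σ)) * (ε * bf hK R (X σ) * g σ)) =
        Real.exp (-(β σ)) * -(ε * CW d m N * bf hK R (X σ)) * y σ +
        Real.exp (-(β σ)) * (ε * bf hK R (X σ) * (CW d m N * y σ - g σ)) := by ring
    rw [h2]
    exact h1
  have hanti : StrictAntiOn (fun σ => Real.exp (-(β σ)) * y σ) (Icc 0 s) := by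
    apply strictAntiOn_of_deriv_neg (convex_Icc 0 s)
    · intro σ _
      exact (hh σ).continuousAt.continuousWithinAt
    · intro σ hσ
      rw [interior_Icc] at hσ
      rw [(hh σ).deriv]
      have h1 := bf_traj_pos hε hR hX h0 hσ.1
      have h2 : 0 < g σ := by
        apply hu _ (Real.exp_pos _)
        rw [Real.exp_le_one_iff]
        linarith [hσ.2]
      have h3 := Real.exp_pos (-(β σ))
      have : 0 < Real.exp (-(β σ)) * (ε * bf hK R (X σ) * g σ) := by positivity
      linarith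
  have h4 := hanti (left_mem_Icc.2 hs.le) (right_mem_Icc.2 hs.le) hs
  simp only [hβ0, neg_zero, Real.exp_zero, one_mul] at h4
  have h5 : y s = P (tens (X s)) u := by
    simp only [hy, sub_self, Real.exp_zero]
    congr 1
    funext j
    rw [Sc_one]
  have h6 : y 0 = P (tens (X 0)) (fun j => Sc (Real.exp (-s)) (u j)) := by
    simp only [hy, zero_sub]
  rw [← h5, ← h6]
  have h7 : Real.exp (β s) * (Real.exp (-(β s)) * y s) = y s := by
    rw [← mul_assoc, ← Real.exp_add]
    simp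
  rw [← h7]
  exact mul_lt_mul_of_pos_left h4 (Real.exp_pos _)

theorem Sc_ne_zero {θ : ℝ} (hθ : 0 < θ) {x : Vec m} (hx : x ≠ 0) : Sc θ x ≠ 0 := by
  intro h
  apply hx
  funext a
  have := congrFun h a
  unfold Sc at this
  by_cases ha : a = 0
  · rw [if_pos ha] at this; exact this
  · rw [if_neg ha] at this
    exact (mul_eq_zero.1 this).resolve_left hθ.ne'

/-- positivity of the perturbation form -/
theorem WT_two_pos (hK : GoodCone K N) (w : Fin d → Vec m) (hw : w ∈ Sgd d K) {a b : Fin d}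
    (hab : a ≠ b) {x : Vec m} (hx : x ≠ 0) {θ : ℝ} (hθ : 0 < θ) (hθ1 : θ ≤ 1) :
    0 < P (WT N) (fun j => Sc θ (two w a b x x j)) := by
  rw [Sc_two, P_WT]
  have hx' := Sc_ne_zero hθ hx
  have hterm : ∀ c : Fin (m + 1), ∏ j, lf N c (two (fun j => Sc θ (w j)) a b (Sc θ x) (Sc θ x) j)
      = (lf N c (Sc θ x)) ^ 2 * ∏ j ∈ (Finset.univ.erase b).erase a, lf N c (Sc θ (w j)) := by
    intro c
    rw [← Finset.mul_prod_erase _ _ (Finset.mem_univ b),
      ← Finset.mul_prod_erase _ _ (Finset.mem_erase.2 ⟨hab, Finset.mem_univ a⟩)]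
    have h1 : two (fun j => Sc θ (w j)) a b (Sc θ x) (Sc θ x) b = Sc θ x := by
      unfold two; rw [update_self]
    have h2 : two (fun j => Sc θ (w j)) a b (Sc θ x) (Sc θ x) a = Sc θ x := by
      unfold two; rw [update_of_ne hab, update_self]
    have h3 : ∏ j ∈ (Finset.univ.erase b).erase a,
        lf N c (two (fun j => Sc θ (w j)) a b (Sc θ x) (Sc θ x) j)
        = ∏ j ∈ (Finset.univ.erase b).erase a, lf N c (Sc θ (w j)) := by
      apply Finset.prod_congr rfl
      intro j hj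
      rw [Finset.mem_erase, Finset.mem_erase] at hj
      unfold two
      rw [update_of_ne hj.2.1, update_of_ne hj.1]
    rw [h1, h2, h3]
    ring
  simp_rw [hterm]
  have hpos : ∀ c : Fin (m + 1), 0 < ∏ j ∈ (Finset.univ.erase b).erase a, lf N c (Sc θ (w j)) := by
    intro c
    apply Finset.prod_pos
    intro j _
    have h1 := hK.Sc_mem_Sg (mem_Sgd.1 hw j) hθ.le hθ1
    exact hK.lf_pos h1.1 (GoodCone.ne_zero_of_Sg h1) c
  apply Finset.sum_pos'
  · intro c _
    exact mul_nonneg (sq_nonneg _) (hpos c).le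
  · -- some form does not vanish at `Sc θ x`
    by_contra hcon
    push Not at hcon
    have hz : ∀ c, lf N c (Sc θ x) = 0 := by
      intro c
      have h1 := hcon c (Finset.mem_univ c)
      have h2 := hpos c
      by_contra h3
      have h4 : 0 < (lf N c (Sc θ x)) ^ 2 := by positivity
      have := mul_pos h4 h2
      linarith
    apply hx'
    have h0 : Sc θ x 0 = 0 := by
      have h1 := hz 0
      unfold lf at h1
      have h2 : (N + 2) * Sc θ x 0 = 0 := by linarith
      exact (mul_eq_zero.1 h2).resolve_left (by linarith [hK.N_ge])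
    funext c
    have h1 := hz c
    unfold lf at h1
    rw [h0, mul_zero, zero_add] at h1
    exact h1

theorem traj_interior {hK : GoodCone K N} {R ε : ℝ} (hε : 0 < ε)
    (hR : ∀ x : S0 d m, (∀ u : Fin d → Vec m, (∀ j, u j ∈ K) → 0 ≤ P (tens x) u) → ‖x‖ < R)
    {X : ℝ → S0 d m} (hX : Traj hK R ε X) (h0 : X 0 ∈ QS K) {s : ℝ} (hs : 0 < s) :
    X s ∈ interior (QS K : Set (S0 d m)) := by
  apply mem_interior_QS hK
  have hpos : ∀ u ∈ Sgd d K, 0 < P (tens (X s)) u := fun u hu => traj_pos hε hX h0 hs hu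
  refine ⟨hpos, ?_⟩
  intro a b hab w hw z hz
  obtain ⟨κ, hκ, hlt⟩ := traj_lt hε hR hX h0 hs
  have hθ : Real.exp (-s) < 1 := by rw [Real.exp_lt_one_iff]; linarith
  have hwK : ∀ j, Sc (Real.exp (-s)) (w j) ∈ K := by
    intro j
    apply hK.Sc_mem (mem_Sgd.1 hw j).1 _ (Real.exp_pos _).le hθ
    rw [(mem_Sgd.1 hw j).2]; exact one_pos
  apply rcs_strict (Bf (tens (X s)) w a b hab)
    (Bf (tens (X 0)) (fun j => Sc (Real.exp (-s)) (w j)) a b hab)
    (Bf_symm (tens_sym _) w hab) (Sc (Real.exp (-s))) e0 (fun x r => Sc_sub _ _ _) κ hκ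
  · intro x hx
    have h1 := hlt (two w a b x x) (fun θ h1 h2 => WT_two_pos hK w hw hab hx h1 h2)
    rw [Sc_two] at h1
    exact h1
  · intro x
    exact h0.rcs a b hab _ hwK x
  · rw [Bf_apply]
    apply hpos
    rw [mem_Sgd]
    intro j
    unfold two
    by_cases hb : j = b
    · subst hb; rw [update_self]; exact hK.e0_mem_Sg
    · rw [update_of_ne hb]
      by_cases ha : j = a
      · subst ha; rw [update_self]; exact hK.e0_mem_Sg
      · rw [update_of_ne ha]; exact mem_Sgd.1 hw j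
  · rw [Bf_apply]
    apply h0.pos
    intro j
    unfold two
    by_cases hb : j = b
    · subst hb; rw [update_self]; exact hK.e0
    · rw [update_of_ne hb]
      by_cases ha : j = a
      · subst ha; rw [update_self]; exact hK.e0
      · rw [update_of_ne ha]; exact hwK j
  · intro r h
    have h1 := congrFun h 0
    rw [hz.1, Pi.smul_apply, e0_zero, smul_eq_mul, mul_one] at h1
    rw [← h1, zero_smul] at h
    have h2 := hz.2
    rw [h, norm_zero] at h2
    exact zero_ne_one h2

/-- The set of Lorentzian states is homeomorphic to a closed ball. -/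
theorem QS_ball (hK : GoodCone K N) (d : ℕ) :
    ∃ (p : S0 d m) (r : ℝ), 0 < r ∧ Nonempty ((QS K : Set (S0 d m)) ≃ₜ Metric.closedBall p r) := by
  obtain ⟨R₀, hR₀, hR⟩ := norm_bound (d := d) hK
  obtain ⟨ε, F, hε, hF⟩ := exists_flow (d := d) hK (R₀ + 1) (by linarith)
  apply ball_of_flow F (QS K) (QS_compact hK) ⟨0, zero_mem_QS hK⟩
  intro t ht x hx
  have hX : Traj hK (R₀ + 1) ε (fun s => F.φ s x) := fun t => hF x t
  exact traj_interior hε (fun y hy => (hR y hy).trans_lt (by linarith)) hX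
    (by rw [F.zero]; exact hx) ht

end LorBall
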