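import Pool.Agent.LorBall.Defs

open Matrix

namespace LorBall

variable {n : ℕ}

/-- diagonalisation of the quadratic form of a symmetric matrix -/
theorem exists_diag (M : Matrix (Fin n) (Fin n) ℝ) (hM : M.IsHermitian) :
    ∃ ξ : (Fin n → ℝ) ≃ₗ[ℝ] (Fin n → ℝ), ∀ x y,
      x ⬝ᵥ M *ᵥ y = ∑ j, hM.eigenvalues j * ξ x j * ξ y j := by
  set b := hM.eigenvectorBasis with hb
  let ξ : (Fin n → ℝ) ≃ₗ[ℝ] (Fin n → ℝ) :=
    ((WithLp.linearEquiv 2 ℝ (Fin n → ℝ)).symm.trans b.repr.toLinearEquiv).trans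
      (WithLp.linearEquiv 2 ℝ (Fin n → ℝ))
  refine ⟨ξ, ?_⟩
  have hx : ∀ x : Fin n → ℝ, x = ∑ j, ξ x j • (b j : Fin n → ℝ) := by
    intro x
    have h1 := b.sum_repr (WithLp.toLp 2 x)
    have h2 := congrArg (fun z : EuclideanSpace ℝ (Fin n) => (z : Fin n → ℝ)) h1
    simp only [WithLp.ofLp_sum, WithLp.ofLp_smul] at h2
    exact h2.symm
  have horth : ∀ i j, (b i : Fin n → ℝ) ⬝ᵥ (b j : Fin n → ℝ) = if i = j then 1 else 0 := by
    intro i j
    have h1 := orthonormal_iff_ite.1 b.orthonormal i j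
    rw [← h1, EuclideanSpace.inner_eq_star_dotProduct, dotProduct_comm]
    simp
  intro x y
  have hMy : M *ᵥ y = ∑ j, (hM.eigenvalues j * ξ y j) • (b j : Fin n → ℝ) := by
    conv_lhs => rw [hx y]
    rw [mulVec_sum]
    apply Finset.sum_congr rfl
    intro j _
    rw [mulVec_smul, hM.mulVec_eigenvectorBasis j, smul_smul, mul_comm]
  rw [hMy]
  conv_lhs => rw [hx x]
  rw [sum_dotProduct]
  apply Finset.sum_congr rfl
  intro i _
  rw [dotProduct_sum, Finset.sum_eq_single i]
  · rw [smul_dotProduct, dotProduct_smul, horth, if_pos rfl]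
    simp only [smul_eq_mul]
    ring
  · intro j _ hj
    rw [smul_dotProduct, dotProduct_smul, horth, if_neg hj.symm]
    simp
  · intro h
    exact absurd (Finset.mem_univ _) h

theorem onePosEig_iff (M : Matrix (Fin n) (Fin n) ℝ) (hM : M.IsHermitian) (v : Fin n → ℝ)
    (hv : 0 < v ⬝ᵥ M *ᵥ v) :
    OnePosEig M ↔ ∀ x, (x ⬝ᵥ M *ᵥ x) * (v ⬝ᵥ M *ᵥ v) ≤ (x ⬝ᵥ M *ᵥ v) ^ 2 := by
  obtain ⟨ξ, hξ⟩ := exists_diag M hM
  set lam := hM.eigenvalues with hlam
  have hshift : ∀ (x : Fin n → ℝ) (τ : ℝ),
      (x ⬝ᵥ M *ᵥ x) * (v ⬝ᵥ M *ᵥ v) - (x ⬝ᵥ M *ᵥ v) ^ 2 =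
      ((x - τ • v) ⬝ᵥ M *ᵥ (x - τ • v)) * (v ⬝ᵥ M *ᵥ v) - ((x - τ • v) ⬝ᵥ M *ᵥ v) ^ 2 := by
    intro x τ
    have hsymm : v ⬝ᵥ M *ᵥ x = x ⬝ᵥ M *ᵥ v := by
      rw [hξ, hξ]
      apply Finset.sum_congr rfl
      intro j _
      ring
    simp only [mulVec_sub, mulVec_smul, sub_dotProduct, dotProduct_sub, smul_dotProduct,
      dotProduct_smul, smul_eq_mul, hsymm]
    ring
  constructor
  · rintro ⟨h, hcard⟩ x
    rw [Finset.card_eq_one] at hcard
    obtain ⟨i₀, hi₀⟩ := hcard
    have hle : ∀ i, i ≠ i₀ → lam i ≤ 0 := by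
      intro i hi
      by_contra hcon
      push Not at hcon
      have : i ∈ Finset.univ.filter (fun i => 0 < h.eigenvalues i) :=
        Finset.mem_filter.2 ⟨Finset.mem_univ _, hcon⟩
      rw [hi₀, Finset.mem_singleton] at this
      exact hi this
    have hv0 : ξ v i₀ ≠ 0 := by
      intro h0
      rw [hξ] at hv
      have : ∑ j, lam j * ξ v j * ξ v j ≤ 0 := by
        apply Finset.sum_nonpos
        intro j _
        by_cases hj : j = i₀
        · rw [hj, h0]; simp
        · have := hle j hj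
          nlinarith [mul_self_nonneg (ξ v j)]
      linarith
    set τ := ξ x i₀ / ξ v i₀ with hτ
    have hz : ξ (x - τ • v) i₀ = 0 := by
      rw [map_sub, map_smul, Pi.sub_apply, Pi.smul_apply, smul_eq_mul, hτ]
      field_simp
      ring
    have hzz : (x - τ • v) ⬝ᵥ M *ᵥ (x - τ • v) ≤ 0 := by
      rw [hξ]
      apply Finset.sum_nonpos
      intro j _
      by_cases hj : j = i₀
      · rw [hj, hz]; simp
      · have := hle j hj
        nlinarith [mul_self_nonneg (ξ (x - τ • v) j)]
    have h1 := hshift x τ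
    have h2 := mul_nonpos_of_nonpos_of_nonneg hzz hv.le
    nlinarith [sq_nonneg ((x - τ • v) ⬝ᵥ M *ᵥ v)]
  · intro hrcs
    refine ⟨hM, ?_⟩
    rw [Finset.card_eq_one]
    have hex : ∃ i, 0 < lam i := by
      by_contra hcon
      push Not at hcon
      rw [hξ] at hv
      have : ∑ j, lam j * ξ v j * ξ v j ≤ 0 := by
        apply Finset.sum_nonpos
        intro j _
        have := hcon j
        nlinarith [mul_self_nonneg (ξ v j)]
      linarith
    obtain ⟨i, hi⟩ := hex
    refine ⟨i, ?_⟩
    ext j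
    simp only [Finset.mem_filter, Finset.mem_univ, true_and, Finset.mem_singleton]
    constructor
    · intro hj
      by_contra hij
      -- two positive eigenvalues
      have key : ∀ α β : ℝ, (α ≠ 0 ∨ β ≠ 0) →
          lam i * α * ξ v i + lam j * β * ξ v j = 0 → False := by
        intro α β hαβ hzero
        set z : Fin n → ℝ := ξ.symm (α • Pi.single i 1 + β • Pi.single j 1) with hz
        have hξz : ξ z = α • Pi.single i 1 + β • Pi.single j 1 := by
          rw [hz, LinearEquiv.apply_symm_apply]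
        have hzi : ξ z i = α := by
          rw [hξz]
          simp [Pi.single_eq_of_ne (Ne.symm hij)]
        have hzj : ξ z j = β := by
          rw [hξz]
          simp [Pi.single_eq_of_ne hij]
        have hzk : ∀ k, k ≠ i → k ≠ j → ξ z k = 0 := by
          intro k hki hkj
          rw [hξz]
          simp [hki, hkj]
        have hsum : ∀ y : Fin n → ℝ, z ⬝ᵥ M *ᵥ y = lam i * α * ξ y i + lam j * β * ξ y j := by
          intro y
          rw [hξ, ← Finset.add_sum_erase _ _ (Finset.mem_univ i),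
            ← Finset.add_sum_erase _ _ (Finset.mem_erase.2 ⟨hij, Finset.mem_univ j⟩),
            Finset.sum_eq_zero, hzi, hzj, add_zero]
          intro k hk
          rw [Finset.mem_erase, Finset.mem_erase] at hk
          rw [hzk k hk.2.1 hk.1]
          simp
        have h1 := hrcs z
        rw [hsum v, hzero, hsum z, hzi, hzj] at h1
        have h2 : 0 < lam i * α * α + lam j * β * β := by
          rcases hαβ with h | h
          · have : 0 < α * α := mul_self_pos.2 h
            have h3 := mul_pos hi this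
            have h4 : 0 ≤ lam j * (β * β) := mul_nonneg hj.le (mul_self_nonneg β)
            linarith
          · have : 0 < β * β := mul_self_pos.2 h
            have h3 := mul_pos hj this
            have h4 : 0 ≤ lam i * (α * α) := mul_nonneg hi.le (mul_self_nonneg α)
            linarith
        have h3 := mul_pos h2 hv
        linarith
      by_cases h0 : ξ v i = 0
      · exact key 1 0 (Or.inl one_ne_zero) (by rw [h0]; ring)
      · refine key (lam j * ξ v j) (-(lam i * ξ v i)) (Or.inr ?_) (by ring)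
        rw [neg_ne_zero]
        exact mul_ne_zero hi.ne' h0
    · rintro rfl
      exact hi

end LorBall
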