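import Pool.Agent.LorBall.Poly
import Pool.Agent.LorBall.Spectral
import Pool.Agent.LorBall.Invariance

open MvPolynomial Function

namespace LorBall

variable {n d m : ℕ}

/-! ### Surjectivity -/

theorem exists_tensor (π : (Fin n → ℝ) →ₗ[ℝ] Vec m) (hπ : Surjective π) (d : ℕ) :
    ∀ f : MvPolynomial (Fin n) ℝ, f.IsHomogeneous d → (∀ u, π u = 0 → dirD u f = 0) →
      ∃ t : Idx d m → ℝ, f = polyT π t := by
  induction d with
  | zero =>
    intro f hf _
    have h3 := (totalDegree_zero_iff_isHomogeneous (p := f)).2 hf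
    rw [totalDegree_eq_zero_iff_eq_C] at h3
    exact ⟨fun _ => coeff 0 f, by rw [polyT_zero]; exact h3⟩
  | succ d ih =>
    intro f hf hker
    have hb : ∀ a : Fin (m + 1), ∃ b : Fin n → ℝ, π b = Pi.single a 1 := fun a => hπ _
    choose b hb using hb
    have hfa : ∀ a, ∃ t : Idx d m → ℝ, dirD (b a) f = polyT π t := by
      intro a
      apply ih _ (dirD_homog hf _)
      intro u hu
      rw [dirD_comm, hker u hu, dirD_zero]
    choose t ht using hfa
    have hpd : ∀ k : Fin n, pderiv k f = ∑ a, (π (Pi.single k 1) a) • dirD (b a) f := by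
      intro k
      rw [← dirD_single]
      have h1 : (Pi.single k (1 : ℝ) : Fin n → ℝ) = (∑ a, (π (Pi.single k 1) a) • b a) +
          (Pi.single k 1 - ∑ a, (π (Pi.single k 1) a) • b a) := by abel
      have h2 : π (Pi.single k 1 - ∑ a, (π (Pi.single k 1) a) • b a) = 0 := by
        rw [map_sub, map_sum, sub_eq_zero]
        funext c
        rw [Finset.sum_apply]
        simp only [map_smul, Pi.smul_apply, smul_eq_mul, hb]
        simp [Pi.single_apply]
      conv_lhs => rw [h1]
      rw [dirD_left_add, hker _ h2, add_zero, dirD_left_sum]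
      apply Finset.sum_congr rfl
      intro a _
      rw [dirD_left_smul]
    have heuler := hf.sum_X_mul_pderiv
    have h3 : ∑ k, X k * pderiv k f = ∑ a, lamP π a * dirD (b a) f := by
      simp_rw [hpd, Finset.mul_sum]
      rw [Finset.sum_comm]
      apply Finset.sum_congr rfl
      intro a _
      unfold lamP
      rw [Finset.sum_mul]
      apply Finset.sum_congr rfl
      intro k _
      rw [smul_eq_C_mul]
      ring
    rw [h3] at heuler
    refine ⟨fun i => ((d + 1 : ℕ) : ℝ)⁻¹ * t (i 0) (fun j => i j.succ), ?_⟩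
    rw [polyT_succ]
    have h4 : ∀ a, polyT π (fun i : Idx d m => ((d + 1 : ℕ) : ℝ)⁻¹ *
        t ((Fin.cons a i : Idx (d + 1) m) 0) (fun j => (Fin.cons a i : Idx (d + 1) m) j.succ))
        = ((d + 1 : ℕ) : ℝ)⁻¹ • dirD (b a) f := by
      intro a
      rw [ht a]
      unfold polyT
      rw [Finset.smul_sum]
      apply Finset.sum_congr rfl
      intro i _
      rw [smul_smul]
      simp only [Fin.cons_zero, Fin.cons_succ]
    have h5 : ∀ a, lamP π a * polyT π (fun i : Idx d m => ((d + 1 : ℕ) : ℝ)⁻¹ *
        t ((Fin.cons a i : Idx (d + 1) m) 0) (fun j => (Fin.cons a i : Idx (d + 1) m) j.succ))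
        = ((d + 1 : ℕ) : ℝ)⁻¹ • (lamP π a * dirD (b a) f) := by
      intro a
      rw [h4, mul_smul_comm]
    rw [Finset.sum_congr rfl (fun a _ => h5 a), ← Finset.smul_sum, heuler,
      ← Nat.cast_smul_eq_nsmul ℝ, smul_smul, inv_mul_cancel₀ (by positivity), one_smul]

/-- symmetrisation -/
noncomputable def symT (t : Idx d m → ℝ) : Idx d m → ℝ :=
  fun i => (d.factorial : ℝ)⁻¹ * ∑ σ : Equiv.Perm (Fin d), t (i ∘ σ)

theorem symT_sym (t : Idx d m → ℝ) : IsSym (symT t) := by
  intro τ i
  unfold symT
  congr 1
  have h1 : ∀ σ : Equiv.Perm (Fin d), (i ∘ τ) ∘ σ = i ∘ (τ * σ) := fun σ => rfl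
  simp_rw [h1]
  exact Equiv.sum_comp (Equiv.mulLeft τ) (fun σ => t (i ∘ σ))

theorem polyT_symT (π : (Fin n → ℝ) →ₗ[ℝ] Vec m) (t : Idx d m → ℝ) :
    polyT π (symT t) = polyT π t := by
  unfold polyT symT
  have h1 : ∀ i : Idx d m, ((d.factorial : ℝ)⁻¹ * ∑ σ : Equiv.Perm (Fin d), t (i ∘ σ)) •
      ∏ j, lamP π (i j) = (d.factorial : ℝ)⁻¹ • ∑ σ : Equiv.Perm (Fin d),
        t (i ∘ σ) • ∏ j, lamP π (i j) := by
    intro i
    rw [← smul_smul, Finset.sum_smul]
  rw [Finset.sum_congr rfl (fun i _ => h1 i), ← Finset.smul_sum, Finset.sum_comm]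
  have h2 : ∀ σ : Equiv.Perm (Fin d), ∑ i : Idx d m, t (i ∘ σ) • ∏ j, lamP π (i j)
      = ∑ i : Idx d m, t i • ∏ j, lamP π (i j) := by
    intro σ
    rw [← Equiv.sum_comp (Equiv.arrowCongr σ.symm (Equiv.refl (Fin (m + 1))))
      (fun i : Idx d m => t i • ∏ j, lamP π (i j))]
    apply Finset.sum_congr rfl
    intro i _
    have h3 : (Equiv.arrowCongr σ.symm (Equiv.refl (Fin (m + 1)))) i = i ∘ σ := by
      funext j
      simp [Equiv.arrowCongr]
    rw [h3]
    congr 1
    exact (Equiv.prod_comp σ (fun j => lamP π (i j))).symm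
  rw [Finset.sum_congr rfl (fun σ _ => h2 σ), Finset.sum_const, Finset.card_univ,
    Fintype.card_perm, Fintype.card_fin, ← Nat.cast_smul_eq_nsmul ℝ, smul_smul,
    inv_mul_cancel₀ (by positivity), one_smul]

theorem polyT_inj (π : (Fin n → ℝ) →ₗ[ℝ] Vec m) (hπ : Surjective π) {t t' : Idx d m → ℝ}
    (ht : IsSym t) (ht' : IsSym t') (h : polyT π t = polyT π t') : t = t' := by
  have h1 : ∀ u : Fin d → Vec m, P t u = P t' u := by
    intro u
    choose w hw using fun j => hπ (u j)
    have h2 := numD_polyT π ht w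
    have h3 := numD_polyT π ht' w
    rw [h, h3] at h2
    have h4 : (d.factorial : ℝ) ≠ 0 := by positivity
    have h5 := mul_left_cancel₀ h4 h2
    simp_rw [hw] at h5
    exact h5.symm
  funext i
  have h2 := h1 (fun j => Pi.single (i j) 1)
  rw [GoodCone.P_single, GoodCone.P_single] at h2
  simpa using h2

/-! ### The quadratic forms -/

theorem zero_ne_one' : (0 : Fin (d + 2)) ≠ 1 := by
  intro h
  have := congrArg Fin.val h
  simp at this

theorem two_cons (w : Fin d → Vec m) (p q x y : Vec m) :
    two (Fin.cons p (Fin.cons q w : Fin (d + 1) → Vec m) : Fin (d + 2) → Vec m) 0 1 x y =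
      Fin.cons x (Fin.cons y w : Fin (d + 1) → Vec m) := by
  unfold two
  funext j
  refine Fin.cases ?_ (fun j => ?_) j
  · rw [update_of_ne zero_ne_one', update_self, Fin.cons_zero]
  · refine Fin.cases ?_ (fun j => ?_) j
    · have h : (Fin.succ 0 : Fin (d + 2)) = 1 := rfl
      rw [Fin.cons_succ, Fin.cons_zero, h, update_self]
    · have h1 : (j.succ.succ : Fin (d + 2)) ≠ 1 := by
        intro h
        have : j.succ = 0 := Fin.succ_injective _ (by rw [h]; rfl)
        exact Fin.succ_ne_zero _ this
      rw [update_of_ne h1, update_of_ne (Fin.succ_ne_zero _)]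
      simp only [Fin.cons_succ]

/-- the reference family of vectors -/
def fam (w : Fin d → Vec m) : Fin (d + 2) → Vec m :=
  Fin.cons e0 (Fin.cons e0 w : Fin (d + 1) → Vec m)

theorem hessM_entry (π : (Fin n → ℝ) →ₗ[ℝ] Vec m) {t : Idx (d + 2) m → ℝ} (ht : IsSym t)
    (u : Fin d → (Fin n → ℝ)) (i j : Fin n) :
    hessM (List.ofFn u) (polyT π t) i j = ((d + 2).factorial : ℝ) *
      Bf t (fam fun k => π (u k)) 0 1 zero_ne_one' (π (Pi.single i 1)) (π (Pi.single j 1)) := by
  unfold hessM
  rw [Matrix.of_apply]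
  have h1 : (Pi.single i (1 : ℝ) :: Pi.single j (1 : ℝ) :: List.ofFn u : List (Fin n → ℝ)) =
      List.ofFn (Fin.cons (Pi.single i 1) (Fin.cons (Pi.single j 1) u :
        Fin (d + 1) → (Fin n → ℝ)) : Fin (d + 2) → (Fin n → ℝ)) := by
    rw [List.ofFn_succ, List.ofFn_succ]
    simp
  rw [h1, numD_polyT π ht, Bf_apply]
  congr 2
  unfold fam
  rw [two_cons]
  funext k
  refine Fin.cases ?_ (fun k => ?_) k
  · simp
  · refine Fin.cases ?_ (fun k => ?_) k
    · simp
    · simp

theorem hessM_form (π : (Fin n → ℝ) →ₗ[ℝ] Vec m) {t : Idx (d + 2) m → ℝ} (ht : IsSym t)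
    (u : Fin d → (Fin n → ℝ)) (x y : Fin n → ℝ) :
    x ⬝ᵥ (hessM (List.ofFn u) (polyT π t)).mulVec y = ((d + 2).factorial : ℝ) *
      Bf t (fam fun k => π (u k)) 0 1 zero_ne_one' (π x) (π y) := by
  conv_rhs => rw [pi_sum x, pi_sum y]
  simp only [map_sum, map_smul, LinearMap.sum_apply, LinearMap.smul_apply, smul_eq_mul]
  rw [Finset.mul_sum]
  simp only [dotProduct, Matrix.mulVec, hessM_entry π ht, Finset.mul_sum]
  rw [Finset.sum_comm]
  apply Finset.sum_congr rfl
  intro j _
  apply Finset.sum_congr rfl
  intro i _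
  ring

theorem hessM_symm (π : (Fin n → ℝ) →ₗ[ℝ] Vec m) {t : Idx (d + 2) m → ℝ} (ht : IsSym t)
    (u : Fin d → (Fin n → ℝ)) : (hessM (List.ofFn u) (polyT π t)).IsHermitian := by
  apply Matrix.IsHermitian.ext
  intro i j
  rw [hessM_entry π ht, hessM_entry π ht, Bf_symm ht]
  rfl

theorem exists_perm (a b : Fin (d + 2)) (hab : a ≠ b) :
    ∃ σ : Equiv.Perm (Fin (d + 2)), σ 0 = a ∧ σ 1 = b := by
  set b' := Equiv.swap 0 a b with hb'
  have hb0 : b' ≠ 0 := by
    intro h
    have h1 : Equiv.swap 0 a b' = b := by rw [hb', Equiv.swap_apply_self]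
    rw [h, Equiv.swap_apply_left] at h1
    exact hab h1
  refine ⟨Equiv.swap 0 a * Equiv.swap 1 b', ?_, ?_⟩
  · rw [Equiv.Perm.mul_apply, Equiv.swap_apply_of_ne_of_ne zero_ne_one' hb0.symm,
      Equiv.swap_apply_left]
  · rw [Equiv.Perm.mul_apply, Equiv.swap_apply_left, hb', Equiv.swap_apply_self]

theorem Bf_fam {t : Idx (d + 2) m → ℝ} (ht : IsSym t) (w : Fin (d + 2) → Vec m)
    (a b : Fin (d + 2)) (hab : a ≠ b) (σ : Equiv.Perm (Fin (d + 2))) (h0 : σ 0 = a) (h1 : σ 1 = b)
    (x y : Vec m) : Bf t w a b hab x y =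
      Bf t (fam fun k => w (σ k.succ.succ)) 0 1 zero_ne_one' x y := by
  rw [Bf_apply, Bf_apply, ← P_perm ht σ (two w a b x y)]
  congr 1
  unfold fam
  rw [two_cons]
  funext j
  refine Fin.cases ?_ (fun j => ?_) j
  · simp only [comp_apply, Fin.cons_zero, h0]
    unfold two
    rw [update_of_ne hab, update_self]
  · refine Fin.cases ?_ (fun j => ?_) j
    · have h : σ (Fin.succ 0) = b := h1
      simp only [comp_apply, Fin.cons_succ, Fin.cons_zero]
      rw [h]
      unfold two
      rw [update_self]
    · simp only [comp_apply, Fin.cons_succ]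
      have h2 : σ j.succ.succ ≠ b := by
        intro h
        rw [← h1] at h
        have := σ.injective h
        have h3 : j.succ = 0 := Fin.succ_injective _ (by rw [this]; rfl)
        exact Fin.succ_ne_zero _ h3
      have h3 : σ j.succ.succ ≠ a := by
        intro h
        rw [← h0] at h
        exact Fin.succ_ne_zero _ (σ.injective h)
      unfold two
      rw [update_of_ne h2, update_of_ne h3]

/-- the data of the reduction to a thin cone -/
structure Red (K : Set (Fin n → ℝ)) (v : Fin n → ℝ) (m : ℕ) where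
  /-- the quotient map -/
  π : (Fin n → ℝ) →ₗ[ℝ] Vec m
  /-- the image cone -/
  K' : Set (Vec m)
  /-- the width -/
  N : ℝ
  surj : Surjective π
  base : π v = e0
  good : GoodCone K' N
  pre : ∀ x, x ∈ K ↔ π x ∈ K'

theorem lor_iff {K : Set (Fin n → ℝ)} {v : Fin n → ℝ} (R : Red K v m) (x : S0 d m) :
    KLorentzian K d (polyT R.π (tens x)) ↔ x ∈ (QS R.K' : Set (S0 d m)) := by
  have hsym := tens_sym x
  constructor
  · intro h
    refine ⟨?_, ?_⟩
    · intro u hu
      rcases Nat.eq_zero_or_pos d with hd | hd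
      · subst hd
        have : u = fun _ => e0 := Subsingleton.elim _ _
        rw [this, P_tens_e0]
        exact one_pos
      · choose w hw using fun j => R.surj (u j)
        have h1 := h.pos hd (List.ofFn w) (by simp) (by
          intro z hz
          rw [List.mem_ofFn] at hz
          obtain ⟨j, rfl⟩ := hz
          rw [R.pre, hw]
          exact hu j)
        rw [numD_polyT R.π hsym] at h1
        simp_rw [hw] at h1
        exact (mul_pos_iff_of_pos_left (by positivity)).1 h1
    · intro a b hab w hw y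
      obtain ⟨e, rfl⟩ : ∃ e, d = e + 2 := by
        have h1 : a.val ≠ b.val := fun h => hab (Fin.ext h)
        exact ⟨d - 2, by have := a.isLt; have := b.isLt; omega⟩
      obtain ⟨σ, h0, h1⟩ := exists_perm a b hab
      rw [Bf_fam hsym w a b hab σ h0 h1, Bf_fam hsym w a b hab σ h0 h1,
        Bf_fam hsym w a b hab σ h0 h1]
      choose u hu using fun k : Fin e => R.surj (w (σ k.succ.succ))
      have h2 := h.hess (by omega) (List.ofFn u) (by simp) (by
        intro z hz
        rw [List.mem_ofFn] at hz
        obtain ⟨j, rfl⟩ := hz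
        rw [R.pre, hu]
        exact hw _)
      have hfac : (0 : ℝ) < ((e + 2).factorial : ℝ) := by positivity
      have hpos : 0 < Bf (tens x) (fam fun k => R.π (u k)) 0 1 zero_ne_one' e0 e0 := by
        rw [Bf_apply]
        unfold fam
        rw [two_cons]
        -- positivity of the form at `v, v, u`
        have h3 := h.pos (by omega) (List.ofFn (Fin.cons v (Fin.cons v u :
          Fin (e + 1) → (Fin n → ℝ)) : Fin (e + 2) → (Fin n → ℝ))) (by simp) (by
            intro z hz
            rw [List.mem_ofFn] at hz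
            obtain ⟨j, rfl⟩ := hz
            have hvK : v ∈ K := by rw [R.pre, R.base]; exact R.good.e0
            refine Fin.cases ?_ (fun j => ?_) j
            · exact hvK
            · refine Fin.cases ?_ (fun j => ?_) j
              · exact hvK
              · simp only [Fin.cons_succ]
                rw [R.pre, hu]
                exact hw _)
        rw [numD_polyT R.π hsym] at h3
        have h4 := (mul_pos_iff_of_pos_left hfac).1 h3
        have h5 : (Fin.cons e0 (Fin.cons e0 (fun k => R.π (u k)) : Fin (e + 1) → Vec m) :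
            Fin (e + 2) → Vec m) = fun j => R.π ((Fin.cons v (Fin.cons v u :
              Fin (e + 1) → (Fin n → ℝ)) : Fin (e + 2) → (Fin n → ℝ)) j) := by
          funext k
          refine Fin.cases ?_ (fun k => ?_) k
          · simp [R.base]
          · refine Fin.cases ?_ (fun k => ?_) k
            · simp [R.base]
            · simp
        rw [h5]
        exact h4
      have h3 := (onePosEig_iff _ (hessM_symm R.π hsym u) v (by
        rw [hessM_form R.π hsym, R.base]
        exact mul_pos hfac hpos)).1 h2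
      obtain ⟨z, hz⟩ := R.surj y
      have h4 := h3 z
      rw [hessM_form R.π hsym, hessM_form R.π hsym, hessM_form R.π hsym, R.base, hz] at h4
      simp_rw [hu] at h4
      have h5 : 0 < ((e + 2).factorial : ℝ) ^ 2 := by positivity
      have h6 : ((e + 2).factorial : ℝ) ^ 2 *
          (Bf (tens x) (fam fun k => w (σ k.succ.succ)) 0 1 zero_ne_one' y y *
          Bf (tens x) (fam fun k => w (σ k.succ.succ)) 0 1 zero_ne_one' e0 e0) ≤
          ((e + 2).factorial : ℝ) ^ 2 *
          (Bf (tens x) (fam fun k => w (σ k.succ.succ)) 0 1 zero_ne_one' y e0) ^ 2 := by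
        nlinarith [h4]
      exact le_of_mul_le_mul_left h6 h5
  · intro h
    have h : Lor R.K' (tens x) := h
    refine ⟨polyT_homog _ _, ?_, ?_, ?_⟩
    · intro hd
      subst hd
      rw [polyT_zero, constantCoeff_C]
      have h1 := tens_first x
      have h2 : (Fin.elim0 : Idx 0 m) = fun _ => 0 := Subsingleton.elim _ _
      rw [h2, h1]
      exact zero_le_one
    · intro _ l hl hlK
      obtain ⟨u, rfl⟩ : ∃ u : Fin d → (Fin n → ℝ), List.ofFn u = l := by
        subst hl
        exact ⟨l.get, List.ofFn_get l⟩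
      rw [numD_polyT R.π hsym]
      apply mul_pos (by positivity)
      apply h.pos
      intro j
      rw [← R.pre]
      apply hlK
      rw [List.mem_ofFn]
      exact ⟨j, rfl⟩
    · intro _ l hl hlK
      subst hl
      obtain ⟨u, hu⟩ : ∃ u : Fin l.length → (Fin n → ℝ), List.ofFn u = l :=
        ⟨l.get, List.ofFn_get l⟩
      have huK : ∀ j, R.π (u j) ∈ R.K' := by
        intro j
        rw [← R.pre]
        apply hlK
        rw [← hu, List.mem_ofFn]
        exact ⟨j, rfl⟩
      have hfam : ∀ j, fam (fun k => R.π (u k)) j ∈ R.K' := by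
        intro j
        unfold fam
        refine Fin.cases ?_ (fun j => ?_) j
        · exact R.good.e0
        · refine Fin.cases ?_ (fun j => ?_) j
          · exact R.good.e0
          · simp only [Fin.cons_succ]
            exact huK j
      have hfac : (0 : ℝ) < ((l.length + 2).factorial : ℝ) := by positivity
      have hmain : OnePosEig (hessM (List.ofFn u) (polyT R.π (tens x))) →
          OnePosEig (hessM l (polyT R.π (tens x))) :=
        (congrArg (fun l' => OnePosEig (hessM l' (polyT R.π (tens x)))) hu).mp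
      apply hmain
      rw [onePosEig_iff _ (hessM_symm R.π hsym u) v]
      · intro z
        rw [hessM_form R.π hsym, hessM_form R.π hsym, hessM_form R.π hsym, R.base]
        have h1 := h.rcs 0 1 zero_ne_one' _ hfam (R.π z)
        have h5 : 0 ≤ ((l.length + 2).factorial : ℝ) ^ 2 := by positivity
        have h6 := mul_le_mul_of_nonneg_left h1 h5
        nlinarith [h6]
      · rw [hessM_form R.π hsym, R.base]
        apply mul_pos hfac
        rw [Bf_apply]
        unfold fam
        rw [two_cons]
        exact h.pos _ hfam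

/-- Lorentzian polynomials do not depend on the directions of the lineality space. -/
theorem lineality {K : Set (Fin n → ℝ)} {v : Fin n → ℝ} (R : Red K v m)
    {f : MvPolynomial (Fin n) ℝ} (hf : KLorentzian K d f) {u : Fin n → ℝ} (hu : R.π u = 0) :
    dirD u f = 0 := by
  have hopen : IsOpen K := by
    have h1 : K = R.π ⁻¹' R.K' := by
      ext x
      exact R.pre x
    rw [h1]
    exact R.good.op.preimage (LinearMap.continuous_of_finiteDimensional R.π)
  have hvK : v ∈ K := by rw [R.pre, R.base]; exact R.good.e0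
  rcases d with _ | k
  · have h3 := (totalDegree_zero_iff_isHomogeneous (p := f)).2 hf.homog
    rw [totalDegree_eq_zero_iff_eq_C] at h3
    rw [h3, dirD_C]
  · apply eq_zero_of_numD hopen ⟨v, hvK⟩ k _ (dirD_homog hf.homog u)
    intro l hl hlK
    have h1 : ∀ s : ℝ, 0 < numD (v :: l) f + s * numD (u :: l) f := by
      intro s
      have h2 := hf.pos (by omega) ((v + s • u) :: l) (by simp [hl]) (by
        intro z hz
        rcases List.mem_cons.1 hz with h3 | h3
        · rw [h3, R.pre, map_add, map_smul, hu, smul_zero, add_zero, ← R.pre]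
          exact hvK
        · exact hlK z h3)
      have h3 : numD ((v + s • u) :: l) f = numD (v :: l) f + s * numD (u :: l) f := by
        unfold numD
        change constantCoeff (dirD (v + s • u) (iterD l f)) = constantCoeff (dirD v (iterD l f)) +
          s * constantCoeff (dirD u (iterD l f))
        rw [dirD_left_add, dirD_left_smul, map_add, smul_eq_C_mul, map_mul, constantCoeff_C]
      rw [← h3]
      exact h2
    have h2 : numD l (dirD u f) = numD (u :: l) f := by
      unfold numD
      rw [iterD_dirD]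
      rfl
    rw [h2]
    by_contra hne
    have h3 := h1 (-(numD (v :: l) f) / numD (u :: l) f)
    rw [div_mul_cancel₀ _ hne] at h3
    simp at h3

/-- the parametrisation of the normalised space -/
theorem PL_eq {K : Set (Fin n → ℝ)} {v : Fin n → ℝ} (R : Red K v m) :
    PL K d v = (fun x : S0 d m => fun μ => coeff μ (polyT R.π (tens x))) '' QS R.K' := by
  ext c
  constructor
  · rintro ⟨f, hf, hfv, rfl⟩
    obtain ⟨t₀, ht₀⟩ := exists_tensor R.π R.surj d f hf.homog (fun u hu => lineality R hf hu)
    set t := symT t₀ with ht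
    have hft : f = polyT R.π t := by rw [ht, polyT_symT, ← ht₀]
    have hts : IsSym t := symT_sym t₀
    have ht1 : t (fun _ => 0) = 1 := by
      rw [← P_e0 t]
      rw [hft, eval_polyT, R.base] at hfv
      exact hfv
    let x : S0 d m := ⟨WithLp.toLp 2 (fun i => t i - cT i), by
      refine ⟨fun σ i => ?_, ?_⟩
      · change t (i ∘ σ) - cT (i ∘ σ) = t i - cT i
        rw [hts, cT_sym]
      · change t (fun _ => 0) - cT (fun _ => 0) = 0
        rw [ht1]
        simp [cT]⟩
    have hx : tens x = t := by
      funext i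
      unfold tens
      change cT i + (t i - cT i) = t i
      ring
    refine ⟨x, ?_, ?_⟩
    · rw [← lor_iff R, hx, ← hft]
      exact hf
    · simp only
      rw [hx, ← hft]
  · rintro ⟨x, hx, rfl⟩
    refine ⟨polyT R.π (tens x), (lor_iff R x).2 hx, ?_, rfl⟩
    rw [eval_polyT, R.base, P_tens_e0]

theorem PL_homeo {K : Set (Fin n → ℝ)} {v : Fin n → ℝ} (R : Red K v m) (d : ℕ) :
    Nonempty ((QS R.K' : Set (S0 d m)) ≃ₜ PL K d v) := by
  have hcomp : CompactSpace (QS R.K' : Set (S0 d m)) :=
    isCompact_iff_compactSpace.1 (QS_compact R.good)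
  let Φ : S0 d m → ((Fin n →₀ ℕ) → ℝ) := fun x => fun μ => coeff μ (polyT R.π (tens x))
  have hΦ : Continuous Φ := by
    apply continuous_pi
    intro μ
    have h1 : (fun x : S0 d m => coeff μ (polyT R.π (tens x))) =
        fun x => ∑ i : Idx d m, tens x i * coeff μ (∏ j, lamP R.π (i j)) := by
      funext x
      unfold polyT
      rw [coeff_sum]
      apply Finset.sum_congr rfl
      intro i _
      rw [coeff_smul, smul_eq_mul]
    change Continuous fun x : S0 d m => coeff μ (polyT R.π (tens x))
    rw [h1]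
    apply continuous_finsetSum
    intro i _
    exact ((continuous_apply i).comp tens_continuous).mul continuous_const
  have hinj : Injective Φ := by
    intro x y hxy
    have h1 : polyT R.π (tens x) = polyT R.π (tens y) := by
      ext μ
      exact congrFun hxy μ
    have h2 := polyT_inj R.π R.surj (tens_sym x) (tens_sym y) h1
    apply Subtype.ext
    ext i
    have h3 := congrFun h2 i
    unfold tens at h3
    exact add_left_cancel h3
  let g : ↥(QS R.K' : Set (S0 d m)) → PL K d v := fun x => ⟨Φ x, by
    rw [PL_eq R]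
    exact ⟨x, x.2, rfl⟩⟩
  have hg : Continuous g := (hΦ.comp continuous_subtype_val).subtype_mk _
  have hgb : Bijective g := by
    constructor
    · intro x y hxy
      exact Subtype.ext (hinj (congrArg Subtype.val hxy))
    · rintro ⟨c, hc⟩
      rw [PL_eq R] at hc
      obtain ⟨x, hx, rfl⟩ := hc
      exact ⟨⟨x, hx⟩, rfl⟩
  exact ⟨hg.homeoOfEquivCompactToT2 (f := Equiv.ofBijective g hgb)⟩

end LorBall
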