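import Pool.Agent.LorBall.Tensor

open Set Filter Topology Function

namespace LorBall

variable {d m : ℕ}

/-- the cones we work with: open convex cones containing `e0` and thin around it -/
structure GoodCone (K : Set (Vec m)) (N : ℝ) : Prop where
  op : IsOpen K
  conv : Convex ℝ K
  cone : ∀ x ∈ K, ∀ r : ℝ, 0 < r → r • x ∈ K
  e0 : e0 ∈ K
  bd : ∀ y ∈ K, ∀ a, |y a| ≤ N * y 0

/-- the slice of the closed cone -/
def Sg (K : Set (Vec m)) : Set (Vec m) := {y | y ∈ closure K ∧ y 0 = 1}

namespace GoodCone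

variable {K : Set (Vec m)} {N : ℝ} (hK : GoodCone K N)
include hK

theorem add_mem {x y : Vec m} (hx : x ∈ K) (hy : y ∈ K) : x + y ∈ K := by
  have h1 := hK.conv hx hy (a := 1 / 2) (b := 1 / 2) (by norm_num) (by norm_num) (by norm_num)
  have h2 := hK.cone _ h1 2 (by norm_num)
  convert h2 using 1
  rw [smul_add, smul_smul, smul_smul]
  norm_num

theorem N_ge : 1 ≤ N := by
  have h := hK.bd _ hK.e0 0
  rw [e0_zero] at h
  simpa using h

theorem pos {y : Vec m} (hy : y ∈ K) : 0 < y 0 := by
  have h0 : 0 ≤ y 0 := by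
    have h := hK.bd _ hy 0
    have hN := hK.N_ge
    have := (abs_nonneg (y 0)).trans h
    by_contra hcon
    push Not at hcon
    nlinarith
  rcases h0.eq_or_lt with h | h
  · exfalso
    have hy0 : y = 0 := by
      funext a
      have := hK.bd _ hy a
      rw [← h, mul_zero] at this
      exact abs_eq_zero.1 (le_antisymm this (abs_nonneg _))
    rw [hy0] at hy
    obtain ⟨ε, hε, hball⟩ := Metric.isOpen_iff.1 hK.op 0 hy
    have h1 : (-(ε / 2)) • (LorBall.e0 : Vec m) ∈ K := by
      apply hball
      rw [mem_ball_zero_iff, norm_smul]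
      have : ‖(LorBall.e0 : Vec m)‖ ≤ 1 := by
        rw [pi_norm_le_iff_of_nonneg zero_le_one]
        intro a
        by_cases ha : a = 0
        · rw [ha, e0_zero]; simp
        · rw [e0_ne ha]; simp
      rw [norm_neg, Real.norm_of_nonneg (by linarith)]
      nlinarith [norm_nonneg (LorBall.e0 : Vec m)]
    have h2 := hK.bd _ h1 0
    rw [Pi.smul_apply, e0_zero, smul_eq_mul] at h2
    have h3 := (abs_nonneg _).trans h2
    have hN := hK.N_ge
    nlinarith
  · exact h

theorem closure_bd {y : Vec m} (hy : y ∈ closure K) (a : Fin (m + 1)) : |y a| ≤ N * y 0 := by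
  have hc : IsClosed {y : Vec m | |y a| ≤ N * y 0} :=
    isClosed_le (by fun_prop) (by fun_prop)
  exact closure_minimal (fun y hy => hK.bd y hy a) hc hy

theorem closure_nonneg {y : Vec m} (hy : y ∈ closure K) : 0 ≤ y 0 := by
  have hc : IsClosed {y : Vec m | 0 ≤ y 0} := isClosed_le (by fun_prop) (by fun_prop)
  exact closure_minimal (fun y hy => (hK.pos hy).le) hc hy

theorem closure_pos {y : Vec m} (hy : y ∈ closure K) (hy0 : y ≠ 0) : 0 < y 0 := by
  rcases (hK.closure_nonneg hy).eq_or_lt with h | h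
  · exfalso
    apply hy0
    funext a
    have := hK.closure_bd hy a
    rw [← h, mul_zero] at this
    exact abs_eq_zero.1 (le_antisymm this (abs_nonneg _))
  · exact h

theorem add_closure_mem {x y : Vec m} (hx : x ∈ K) (hy : y ∈ closure K) : x + y ∈ K := by
  have h1 : {z : Vec m | x + (y - z) ∈ K} ∈ 𝓝 y := by
    apply (hK.op.preimage (by fun_prop : Continuous fun z : Vec m => x + (y - z))).mem_nhds
    simp only [mem_preimage, sub_self, add_zero]
    exact hx
  obtain ⟨z, hz1, hz2⟩ := mem_closure_iff_nhds.1 hy _ h1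
  have h2 := hK.add_mem hz1 hz2
  convert h2 using 1
  abel

theorem smul_closure_mem {y : Vec m} (hy : y ∈ closure K) {r : ℝ} (hr : 0 < r) :
    r • y ∈ closure K :=
  map_mem_closure (f := fun z : Vec m => r • z) (by fun_prop) hy (fun z hz => hK.cone z hz r hr)

theorem Sc_mem {y : Vec m} (hy : y ∈ closure K) (hy0 : 0 < y 0) {θ : ℝ} (h0 : 0 ≤ θ) (h1 : θ < 1) :
    Sc θ y ∈ K := by
  rw [Sc_eq]
  have h2 : ((1 - θ) * y 0) • (LorBall.e0 : Vec m) ∈ K :=
    hK.cone _ hK.e0 _ (mul_pos (by linarith) hy0)
  rcases h0.eq_or_lt with h | h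
  · rw [← h] at h2 ⊢
    rw [zero_smul, zero_add]
    exact h2
  · rw [add_comm]
    exact hK.add_closure_mem h2 (hK.smul_closure_mem hy h)

theorem e0_mem_Sg : LorBall.e0 ∈ Sg K := ⟨subset_closure hK.e0, e0_zero⟩

theorem Sc_mem_Sg {y : Vec m} (hy : y ∈ Sg K) {θ : ℝ} (h0 : 0 ≤ θ) (h1 : θ ≤ 1) :
    Sc θ y ∈ Sg K := by
  rcases h1.eq_or_lt with h | h
  · rw [h, Sc_one]; exact hy
  · refine ⟨subset_closure (hK.Sc_mem hy.1 (by rw [hy.2]; exact one_pos) h0 h), ?_⟩
    simp [Sc, hy.2]

theorem Sg_compact : IsCompact (Sg K) := by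
  have h1 : IsClosed (Sg K) :=
    isClosed_closure.inter (isClosed_eq (by fun_prop) continuous_const)
  apply Metric.isCompact_of_isClosed_isBounded h1
  apply (Metric.isBounded_closedBall (x := (0 : Vec m)) (r := N)).subset
  intro y hy
  rw [mem_closedBall_zero_iff, pi_norm_le_iff_of_nonneg (by linarith [hK.N_ge])]
  intro a
  have := hK.closure_bd hy.1 a
  rw [hy.2, mul_one] at this
  exact this

theorem Sgd_compact : IsCompact (Set.pi univ (fun _ : Fin d => Sg K)) :=
  isCompact_univ_pi fun _ => hK.Sg_compact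

theorem normalize {y : Vec m} (hy : y ∈ K) : (y 0)⁻¹ • y ∈ Sg K := by
  have h := hK.pos hy
  refine ⟨subset_closure (hK.cone _ hy _ (inv_pos.2 h)), ?_⟩
  rw [Pi.smul_apply, smul_eq_mul, inv_mul_cancel₀ h.ne']

theorem lf_pos {y : Vec m} (hy : y ∈ closure K) (hy0 : y ≠ 0) (a : Fin (m + 1)) : 0 < lf N a y := by
  unfold lf
  have h1 := hK.closure_bd hy a
  have h2 := hK.closure_pos hy hy0
  have h3 := (abs_le.1 h1).1
  linarith

omit hK in
theorem ne_zero_of_Sg {y : Vec m} (hy : y ∈ Sg K) : y ≠ 0 := by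
  intro h
  have := hy.2
  rw [h] at this
  simp at this

/-- positivity of nonnegative forms -/
theorem pos_of_nonneg {t : Idx d m → ℝ} (ht : ∀ u : Fin d → Vec m, (∀ j, u j ∈ K) → 0 ≤ P t u)
    (h1 : 0 < P t (fun _ => LorBall.e0)) (u : Fin d → Vec m) (hu : ∀ j, u j ∈ K) : 0 < P t u := by
  classical
  -- a small multiple of `e0` below all entries
  have hδ : ∃ δ : ℝ, 0 < δ ∧ ∀ j, u j - δ • LorBall.e0 ∈ K := by
    have h2 : ∀ j, ∀ᶠ δ in 𝓝[>] (0 : ℝ), u j - δ • (LorBall.e0 : Vec m) ∈ K := by
      intro j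
      apply nhdsWithin_le_nhds
      apply (hK.op.preimage
        (by fun_prop : Continuous fun δ : ℝ => u j - δ • (LorBall.e0 : Vec m))).mem_nhds
      simp only [mem_preimage, zero_smul, sub_zero]
      exact hu j
    have h3 := (eventually_all.2 h2).and self_mem_nhdsWithin
    obtain ⟨δ, h4, h5⟩ := h3.exists
    exact ⟨δ, h5, h4⟩
  obtain ⟨δ, hδ0, hδ⟩ := hδ
  have hδe : δ • (LorBall.e0 : Vec m) ∈ K := hK.cone _ hK.e0 _ hδ0
  have key : ∀ s : Finset (Fin d), P t (s.piecewise (fun _ => δ • LorBall.e0) u) ≤ P t u := by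
    intro s
    induction s using Finset.induction_on with
    | empty => rw [Finset.piecewise_empty]
    | insert j s hj ih =>
      refine le_trans ?_ ih
      have h2 : (insert j s).piecewise (fun _ => δ • (LorBall.e0 : Vec m)) u
          = update (s.piecewise (fun _ => δ • (LorBall.e0 : Vec m)) u) j (δ • LorBall.e0) := by
        rw [Finset.piecewise_insert]
      have h3 : s.piecewise (fun _ => δ • (LorBall.e0 : Vec m)) u
          = update (s.piecewise (fun _ => δ • (LorBall.e0 : Vec m)) u) j (u j) := by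
        rw [eq_comm, update_eq_self_iff]
        rw [Finset.piecewise_eq_of_notMem _ _ _ hj]
      have h4 : P t (update (s.piecewise (fun _ => δ • (LorBall.e0 : Vec m)) u) j
          (u j - δ • LorBall.e0)) ≥ 0 := by
        apply ht
        intro l
        by_cases hl : l = j
        · subst hl
          rw [update_self]
          exact hδ l
        · rw [update_of_ne hl]
          by_cases hls : l ∈ s
          · rw [Finset.piecewise_eq_of_mem _ _ _ hls]; exact hδe
          · rw [Finset.piecewise_eq_of_notMem _ _ _ hls]; exact hu l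
      rw [(P t).map_update_sub] at h4
      rw [h2]
      conv_rhs => rw [h3]
      linarith
  have h5 := key Finset.univ
  rw [Finset.piecewise_univ] at h5
  have h6 : P t (fun _ => δ • LorBall.e0) = δ ^ d * P t (fun _ => LorBall.e0) := by
    have := (P t).map_smul_univ (fun _ : Fin d => δ) (fun _ => LorBall.e0)
    rw [this]
    simp
  rw [h6] at h5
  exact lt_of_lt_of_le (mul_pos (pow_pos hδ0 d) h1) h5

/-- the absolute value bound for nonnegative forms -/
theorem abs_le_of_nonneg {t : Idx d m → ℝ}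
    (ht : ∀ u : Fin d → Vec m, (∀ j, u j ∈ K) → 0 ≤ P t u) (y : Fin d → Vec m)
    (hy : ∀ j, LorBall.e0 + y j ∈ K ∧ LorBall.e0 - y j ∈ K) :
    |P t y| ≤ P t (fun _ => LorBall.e0) := by
  classical
  have key : ∀ s : Finset (Fin d), ∀ w : Fin d → Vec m, (∀ j, w j ∈ K) →
      |P t (s.piecewise y w)| ≤ P t (s.piecewise (fun _ => LorBall.e0) w) := by
    intro s
    induction s using Finset.induction_on with
    | empty =>
      intro w hw
      rw [Finset.piecewise_empty, Finset.piecewise_empty, abs_of_nonneg (ht w hw)]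
    | insert j s hj ih =>
      intro w hw
      have hup : ∀ (z : Fin d → Vec m) (v : Vec m),
          update (s.piecewise z w) j v = s.piecewise z (update w j v) := by
        intro z v
        funext l
        by_cases hl : l = j
        · subst hl
          rw [update_self, Finset.piecewise_eq_of_notMem _ _ _ hj, update_self]
        · rw [update_of_ne hl]
          by_cases hls : l ∈ s
          · rw [Finset.piecewise_eq_of_mem _ _ _ hls, Finset.piecewise_eq_of_mem _ _ _ hls]
          · rw [Finset.piecewise_eq_of_notMem _ _ _ hls, Finset.piecewise_eq_of_notMem _ _ _ hls,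
              update_of_ne hl]
      have hmem : ∀ v ∈ K, ∀ l, update w j v l ∈ K := by
        intro v hv l
        by_cases hl : l = j
        · subst hl
          rw [update_self]; exact hv
        · rw [update_of_ne hl]; exact hw l
      have i1 := ih _ (hmem _ (hy j).1)
      have i2 := ih _ (hmem _ (hy j).2)
      rw [← hup, ← hup] at i1 i2
      have e1 : P t ((insert j s).piecewise y w) = (1 / 2) *
          (P t (update (s.piecewise y w) j (LorBall.e0 + y j)) -
            P t (update (s.piecewise y w) j (LorBall.e0 - y j))) := by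
        rw [Finset.piecewise_insert, (P t).map_update_add, (P t).map_update_sub]
        ring
      have e2 : P t ((insert j s).piecewise (fun _ => LorBall.e0) w) = (1 / 2) *
          (P t (update (s.piecewise (fun _ => LorBall.e0) w) j (LorBall.e0 + y j)) +
            P t (update (s.piecewise (fun _ => LorBall.e0) w) j (LorBall.e0 - y j))) := by
        rw [Finset.piecewise_insert, (P t).map_update_add, (P t).map_update_sub]
        ring
      rw [e1, e2, abs_mul, abs_of_pos (by norm_num : (0 : ℝ) < 1 / 2)]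
      apply mul_le_mul_of_nonneg_left _ (by norm_num)
      exact (abs_sub _ _).trans (add_le_add i1 i2)
  have h := key Finset.univ (fun _ => LorBall.e0) (fun _ => hK.e0)
  rwa [Finset.piecewise_univ, Finset.piecewise_univ] at h

theorem exists_delta : ∃ δ : ℝ, 0 < δ ∧ ∀ a : Fin (m + 1),
    LorBall.e0 + Pi.single a δ ∈ K ∧ LorBall.e0 - Pi.single a δ ∈ K := by
  have h1 : ∀ a : Fin (m + 1), ∀ᶠ δ in 𝓝[>] (0 : ℝ),
      (LorBall.e0 + Pi.single a δ ∈ K ∧ LorBall.e0 - Pi.single a δ ∈ K) := by
    intro a
    have hc : Continuous fun δ : ℝ => (Pi.single a δ : Vec m) :=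
      continuous_single (A := fun _ : Fin (m + 1) => ℝ) a
    have hc1 : Continuous fun δ : ℝ => LorBall.e0 + (Pi.single a δ : Vec m) :=
      continuous_const.add hc
    have hc2 : Continuous fun δ : ℝ => LorBall.e0 - (Pi.single a δ : Vec m) :=
      continuous_const.sub hc
    apply Eventually.and
    · apply nhdsWithin_le_nhds
      apply (hK.op.preimage hc1).mem_nhds
      change LorBall.e0 + (Pi.single a 0 : Vec m) ∈ K
      rw [Pi.single_zero, add_zero]
      exact hK.e0
    · apply nhdsWithin_le_nhds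
      apply (hK.op.preimage hc2).mem_nhds
      change LorBall.e0 - (Pi.single a 0 : Vec m) ∈ K
      rw [Pi.single_zero, sub_zero]
      exact hK.e0
  obtain ⟨δ, h4, h5⟩ := ((eventually_all.2 h1).and self_mem_nhdsWithin).exists
  exact ⟨δ, h5, h4⟩

omit hK in
theorem P_single (t : Idx d m → ℝ) (i : Idx d m) (δ : ℝ) :
    P t (fun j => Pi.single (i j) δ) = δ ^ d * t i := by
  rw [P_apply, Finset.sum_eq_single i]
  · simp
    ring
  · intro l _ hl
    have : ∃ j, l j ≠ i j := by
      by_contra hcon
      push Not at hcon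
      exact hl (funext hcon)
    obtain ⟨j, hj⟩ := this
    rw [Finset.prod_eq_zero (Finset.mem_univ j), mul_zero]
    exact Pi.single_eq_of_ne hj _
  · intro h
    exact absurd (Finset.mem_univ _) h

theorem coord_bound : ∃ C : ℝ, 0 < C ∧ ∀ t : Idx d m → ℝ,
    (∀ u : Fin d → Vec m, (∀ j, u j ∈ K) → 0 ≤ P t u) → P t (fun _ => LorBall.e0) = 1 →
    ∀ i, |t i| ≤ C := by
  obtain ⟨δ, hδ, hmem⟩ := hK.exists_delta
  refine ⟨(δ ^ d)⁻¹, by positivity, ?_⟩
  intro t ht h1 i
  have h2 := hK.abs_le_of_nonneg ht (fun j => Pi.single (i j) δ) (fun j => hmem (i j))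
  rw [h1, P_single, abs_mul, abs_of_pos (pow_pos hδ d)] at h2
  rw [← one_div, le_div_iff₀ (pow_pos hδ d), mul_comm]
  exact h2

end GoodCone

end LorBall
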