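import Mathlib

open MvPolynomial

namespace LorBall

/-- The directional derivative `D_u f = ∑ u_i ∂f/∂t_i`. -/
noncomputable def dirD {n : ℕ} (u : Fin n → ℝ) (f : MvPolynomial (Fin n) ℝ) :
    MvPolynomial (Fin n) ℝ := ∑ i, C (u i) * pderiv i f

/-- `D_{v_1} ⋯ D_{v_k} f` for the list `[v_1, …, v_k]`. -/
noncomputable def iterD {n : ℕ} :
    List (Fin n → ℝ) → MvPolynomial (Fin n) ℝ → MvPolynomial (Fin n) ℝ
  | [], f => f
  | v :: l, f => dirD v (iterD l f)

/-- The number `D_{v_1} ⋯ D_{v_d} f`: the value at the origin, for a list of length `d` and a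
`d`-homogeneous polynomial `f` (then `D_{v_1} ⋯ D_{v_d} f` is a constant polynomial). -/
noncomputable def numD {n : ℕ} (l : List (Fin n → ℝ)) (f : MvPolynomial (Fin n) ℝ) : ℝ :=
  constantCoeff (iterD l f)

/-- The matrix of the bilinear form `B(x, y) = D_x D_y D_{v_3} ⋯ D_{v_d} f`, where
`l = [v_3, …, v_d]`: its entries are the values of `B` at the standard basis vectors. -/
noncomputable def hessM {n : ℕ} (l : List (Fin n → ℝ)) (f : MvPolynomial (Fin n) ℝ) :
    Matrix (Fin n) (Fin n) ℝ :=
  Matrix.of fun i j => numD (Pi.single i 1 :: Pi.single j 1 :: l) f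

/-- The real matrix `M` is symmetric and has precisely one positive eigenvalue, counted with
multiplicity. -/
def OnePosEig {n : ℕ} (M : Matrix (Fin n) (Fin n) ℝ) : Prop :=
  ∃ h : M.IsHermitian, (Finset.univ.filter fun i => 0 < h.eigenvalues i).card = 1

/-- The `K`-Lorentzian polynomials of degree `d`: `d`-homogeneous polynomials `f` such that, for
`d ≥ 1`, all the numbers `D_{v_1} ⋯ D_{v_d} f` with `v_i ∈ K` are positive and, for `d ≥ 2`, all
the symmetric matrices of the forms `D_x D_y D_{v_3} ⋯ D_{v_d} f` with `v_i ∈ K` have precisely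
one positive eigenvalue. For `d = 0` these are the nonnegative constants. -/
structure KLorentzian {n : ℕ} (K : Set (Fin n → ℝ)) (d : ℕ) (f : MvPolynomial (Fin n) ℝ) :
    Prop where
  homog : f.IsHomogeneous d
  const : d = 0 → 0 ≤ constantCoeff f
  pos : 1 ≤ d → ∀ l : List (Fin n → ℝ), l.length = d → (∀ v ∈ l, v ∈ K) → 0 < numD l f
  hess : 2 ≤ d → ∀ l : List (Fin n → ℝ), l.length + 2 = d → (∀ v ∈ l, v ∈ K) →
    OnePosEig (hessM l f)

/-- The normalised space: the `K`-Lorentzian polynomials `f` of degree `d` with `f(v) = 1`,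
encoded by their coefficient vectors, with the topology of coefficientwise convergence (all the
polynomials are homogeneous of degree `d`, so this is the Euclidean topology). -/
def PL {n : ℕ} (K : Set (Fin n → ℝ)) (d : ℕ) (v : Fin n → ℝ) : Set ((Fin n →₀ ℕ) → ℝ) :=
  {c | ∃ f : MvPolynomial (Fin n) ℝ, KLorentzian K d f ∧ eval v f = 1 ∧ c = fun μ => coeff μ f}

end LorBall
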