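import Pool.Agent.LorBall.Flow
import Pool.Agent.LorBall.Ball

open Set Metric NNReal Filter Topology

namespace LorBall

variable {E : Type*} [NormedAddCommGroup E] [InnerProductSpace ℝ E] [CompleteSpace E]

open scoped RealInnerProductSpace in
theorem cflow_of_field (A : E →L[ℝ] E) (Z : E → E) (K B : ℝ≥0) (hZ : LipschitzWith K Z)
    (hB : ∀ x, ‖Z x‖ ≤ B)
    (hM : ∀ x y, ⟪x - y, (A x + Z x) - (A y + Z y)⟫ ≤ -(1 / 2) * ‖x - y‖ ^ 2) :
    ∃ F : CFlow E, ∀ x t, HasDerivAt (fun s => F.φ s x) (A (F.φ t x) + Z (F.φ t x)) t := by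
  have hsol := exists_sol_affine A Z K B hZ hB
  choose γ h0 hγ using hsol
  have hLip : LipschitzWith (‖A‖₊ + K) (fun x => A x + Z x) := A.lipschitz.add hZ
  have huniq : ∀ (f g : ℝ → E), (∀ t, HasDerivAt f (A (f t) + Z (f t)) t) →
      (∀ t, HasDerivAt g (A (g t) + Z (g t)) t) → f 0 = g 0 → f = g := by
    intro f g hf hg hfg
    exact ODE_solution_unique_univ (v := fun _ x => A x + Z x) (s := fun _ => univ)
      (K := ‖A‖₊ + K) (t₀ := 0) (fun t => hLip.lipschitzOnWith)
      (fun t => ⟨hf t, mem_univ _⟩) (fun t => ⟨hg t, mem_univ _⟩) hfg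
  have hadd : ∀ s t x, γ x (s + t) = γ (γ x t) s := by
    intro s t x
    have h1 : (fun s => γ x (s + t)) = γ (γ x t) := by
      apply huniq
      · intro s
        have := (hγ x (s + t)).comp_add_const s t
        exact this
      · exact hγ (γ x t)
      · simp [h0]
    exact congrFun h1 s
  have hdiff : ∀ x y t, HasDerivAt (fun s => ‖γ x s - γ y s‖ ^ 2)
      (2 * ⟪γ x t - γ y t, (A (γ x t) + Z (γ x t)) - (A (γ y t) + Z (γ y t))⟫) t := by
    intro x y t
    exact ((hγ x t).sub (hγ y t)).norm_sq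
  have hcontr : ∀ t, 0 ≤ t → ∀ x y, ‖γ x t - γ y t‖ ≤ Real.exp (-(1 / 2 * t)) * ‖x - y‖ := by
    intro t ht x y
    have hd2 : ∀ s, HasDerivAt (fun s => Real.exp s * ‖γ x s - γ y s‖ ^ 2)
        (Real.exp s * ‖γ x s - γ y s‖ ^ 2 + Real.exp s *
        (2 * ⟪γ x s - γ y s, (A (γ x s) + Z (γ x s)) - (A (γ y s) + Z (γ y s))⟫)) s :=
      fun s => (Real.hasDerivAt_exp s).mul (hdiff x y s)
    have hanti : AntitoneOn (fun s => Real.exp s * ‖γ x s - γ y s‖ ^ 2) univ := by
      apply antitoneOn_of_deriv_nonpos convex_univ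
      · intro s _
        exact (hd2 s).continuousAt.continuousWithinAt
      · intro s _
        exact (hd2 s).differentiableAt.differentiableWithinAt
      · intro s _
        rw [(hd2 s).deriv]
        have h1 := hM (γ x s) (γ y s)
        have h2 := Real.exp_pos s
        nlinarith
    have h1 := hanti (mem_univ 0) (mem_univ t) ht
    simp only [Real.exp_zero, one_mul, h0] at h1
    have h2 : (Real.exp (-(1 / 2 * t)) * ‖x - y‖) ^ 2 = Real.exp (-t) * ‖x - y‖ ^ 2 := by
      rw [mul_pow, ← Real.exp_nat_mul]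
      congr 2
      push_cast
      ring
    have h3 : ‖γ x t - γ y t‖ ^ 2 ≤ (Real.exp (-(1 / 2 * t)) * ‖x - y‖) ^ 2 := by
      rw [h2]
      have h4 : Real.exp (-t) * (Real.exp t * ‖γ x t - γ y t‖ ^ 2) = ‖γ x t - γ y t‖ ^ 2 := by
        rw [← mul_assoc, ← Real.exp_add]
        simp
      rw [← h4]
      exact mul_le_mul_of_nonneg_left h1 (Real.exp_pos _).le
    exact (sq_le_sq₀ (norm_nonneg _) (by positivity)).1 h3
  set L : ℝ := ((‖A‖₊ + K : ℝ≥0) : ℝ) with hL
  have hL0 : 0 ≤ L := NNReal.coe_nonneg _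
  have hback : ∀ t, t ≤ 0 → ∀ x y, ‖γ x t - γ y t‖ ≤ Real.exp (-(L * t)) * ‖x - y‖ := by
    intro t ht x y
    have hmono : MonotoneOn (fun s => Real.exp (2 * L * s) * ‖γ x s - γ y s‖ ^ 2) univ := by
      have hd : ∀ s, HasDerivAt (fun s => Real.exp (2 * L * s)) (Real.exp (2 * L * s) * (2 * L)) s := by
        intro s
        have := ((hasDerivAt_id s).const_mul (2 * L)).exp
        simpa using this
      have hd3 : ∀ s, HasDerivAt (fun s => Real.exp (2 * L * s) * ‖γ x s - γ y s‖ ^ 2)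
          (Real.exp (2 * L * s) * (2 * L) * ‖γ x s - γ y s‖ ^ 2 + Real.exp (2 * L * s) *
          (2 * ⟪γ x s - γ y s, (A (γ x s) + Z (γ x s)) - (A (γ y s) + Z (γ y s))⟫)) s :=
        fun s => (hd s).mul (hdiff x y s)
      apply monotoneOn_of_deriv_nonneg convex_univ
      · intro s _
        exact (hd3 s).continuousAt.continuousWithinAt
      · intro s _
        exact (hd3 s).differentiableAt.differentiableWithinAt
      · intro s _
        rw [(hd3 s).deriv]
        have h1 : |⟪γ x s - γ y s, (A (γ x s) + Z (γ x s)) - (A (γ y s) + Z (γ y s))⟫|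
            ≤ L * ‖γ x s - γ y s‖ ^ 2 := by
          refine (abs_real_inner_le_norm _ _).trans ?_
          have h2 : ‖(A (γ x s) + Z (γ x s)) - (A (γ y s) + Z (γ y s))‖ ≤ L * ‖γ x s - γ y s‖ := by
            have := hLip.dist_le_mul (γ x s) (γ y s)
            rwa [dist_eq_norm, dist_eq_norm] at this
          calc _ ≤ ‖γ x s - γ y s‖ * (L * ‖γ x s - γ y s‖) :=
                mul_le_mul_of_nonneg_left h2 (norm_nonneg _)
            _ = _ := by ring
        have h3 := (abs_le.1 h1).1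
        have h4 := Real.exp_pos (2 * L * s)
        nlinarith
    have h1 := hmono (mem_univ t) (mem_univ 0) ht
    simp only [mul_zero, Real.exp_zero, one_mul, h0] at h1
    have h2 : (Real.exp (-(L * t)) * ‖x - y‖) ^ 2 = Real.exp (-(2 * L * t)) * ‖x - y‖ ^ 2 := by
      rw [mul_pow, ← Real.exp_nat_mul]
      congr 2
      push_cast
      ring
    have h3 : ‖γ x t - γ y t‖ ^ 2 ≤ (Real.exp (-(L * t)) * ‖x - y‖) ^ 2 := by
      rw [h2]
      have h4 : Real.exp (-(2 * L * t)) * (Real.exp (2 * L * t) * ‖γ x t - γ y t‖ ^ 2)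
          = ‖γ x t - γ y t‖ ^ 2 := by
        rw [← mul_assoc, ← Real.exp_add]
        simp
      rw [← h4]
      exact mul_le_mul_of_nonneg_left h1 (Real.exp_pos _).le
    exact (sq_le_sq₀ (norm_nonneg _) (by positivity)).1 h3
  have hboth : ∀ t x y, ‖γ x t - γ y t‖ ≤ Real.exp (L * |t|) * ‖x - y‖ := by
    intro t x y
    rcases le_total 0 t with ht | ht
    · refine (hcontr t ht x y).trans ?_
      apply mul_le_mul_of_nonneg_right _ (norm_nonneg _)
      apply Real.exp_le_exp.2
      have := mul_nonneg hL0 (abs_nonneg t)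
      linarith
    · refine (hback t ht x y).trans ?_
      apply mul_le_mul_of_nonneg_right _ (norm_nonneg _)
      apply Real.exp_le_exp.2
      rw [abs_of_nonpos ht]
      linarith
  have hγc : ∀ x, Continuous (γ x) := fun x =>
    continuous_iff_continuousAt.2 fun t => (hγ x t).continuousAt
  have hcont : Continuous fun q : ℝ × E => γ q.2 q.1 := by
    rw [continuous_iff_continuousAt]
    rintro ⟨t0, x0⟩
    rw [ContinuousAt, tendsto_iff_norm_sub_tendsto_zero]
    have h1 : Tendsto (fun q : ℝ × E => Real.exp (L * |q.1|) * ‖q.2 - x0‖ + ‖γ x0 q.1 - γ x0 t0‖)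
        (𝓝 (t0, x0)) (𝓝 0) := by
      have h2 : Continuous fun q : ℝ × E =>
          Real.exp (L * |q.1|) * ‖q.2 - x0‖ + ‖γ x0 q.1 - γ x0 t0‖ := by
        have := (hγc x0).comp (continuous_fst (X := ℝ) (Y := E))
        have h3 : Continuous fun q : ℝ × E => ‖γ x0 q.1 - γ x0 t0‖ :=
          (this.sub continuous_const).norm
        have h4 : Continuous fun q : ℝ × E => Real.exp (L * |q.1|) * ‖q.2 - x0‖ := by fun_prop
        exact h4.add h3
      have h5 := h2.tendsto (t0, x0)
      simpa using h5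
    refine squeeze_zero (fun _ => norm_nonneg _) (fun q => ?_) h1
    have h6 : γ q.2 q.1 - γ x0 t0 = (γ q.2 q.1 - γ x0 q.1) + (γ x0 q.1 - γ x0 t0) := by abel
    change ‖γ q.2 q.1 - γ x0 t0‖ ≤ _
    rw [h6]
    refine (norm_add_le _ _).trans ?_
    gcongr
    exact hboth _ _ _
  refine ⟨⟨fun t x => γ x t, h0, hadd, hcont, 1 / 2, by norm_num, hcontr⟩, ?_⟩
  intro x t
  exact hγ x t

end LorBall
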