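import Mathlib

open Set Metric NNReal Filter Topology

namespace LorBall

variable {E : Type*} [NormedAddCommGroup E] [NormedSpace ℝ E] [CompleteSpace E]

theorem exists_sol_Icc (V : ℝ → E → E) (T : ℝ) (hT : 0 < T) (K L : ℝ≥0)
    (hL : ∀ t ∈ Icc (-T) T, LipschitzWith K (V t)) (hc : ∀ x, Continuous fun t => V t x)
    (hb : ∀ t ∈ Icc (-T) T, ∀ x, ‖V t x‖ ≤ L) (x0 : E) :
    ∃ γ : ℝ → E, γ 0 = x0 ∧
      ∀ t ∈ Icc (-T) T, HasDerivWithinAt γ (V t (γ t)) (Icc (-T) T) t := by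
  have h0 : (0 : ℝ) ∈ Icc (-T) T := ⟨by linarith, hT.le⟩
  have hPL : IsPicardLindelof V (⟨0, h0⟩ : Icc (-T) T) x0 (L * ⟨T, hT.le⟩) 0 L K := by
    refine ⟨fun t ht => (hL t ht).lipschitzOnWith, fun x _ => (hc x).continuousOn,
      fun t ht x _ => hb t ht x, ?_⟩
    have h1 : ((L * ⟨T, hT.le⟩ : ℝ≥0) : ℝ) = L * T := rfl
    rw [h1]
    simp
  obtain ⟨γ, h1, h2⟩ := hPL.exists_eq_forall_mem_Icc_hasDerivWithinAt₀
  exact ⟨γ, h1, h2⟩

theorem exists_sol_global (V : ℝ → E → E) (hc : ∀ x, Continuous fun t => V t x)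
    (hT : ∀ T : ℝ, 0 < T → ∃ K L : ℝ≥0, (∀ t ∈ Icc (-T) T, LipschitzWith K (V t)) ∧
      ∀ t ∈ Icc (-T) T, ∀ x, ‖V t x‖ ≤ L) (x0 : E) :
    ∃ γ : ℝ → E, γ 0 = x0 ∧ ∀ t, HasDerivAt γ (V t (γ t)) t := by
  have hn : ∀ n : ℕ, ∃ γ : ℝ → E, γ 0 = x0 ∧
      ∀ t ∈ Ioo (-((n : ℝ) + 1)) ((n : ℝ) + 1), HasDerivAt γ (V t (γ t)) t := by
    intro n
    obtain ⟨K, L, h1, h2⟩ := hT ((n : ℝ) + 1) (by positivity)
    obtain ⟨γ, h3, h4⟩ := exists_sol_Icc V ((n : ℝ) + 1) (by positivity) K L h1 hc h2 x0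
    exact ⟨γ, h3, fun t ht => (h4 t (Ioo_subset_Icc_self ht)).hasDerivAt (Icc_mem_nhds ht.1 ht.2)⟩
  choose γ h0 hγ using hn
  have huniq : ∀ n m : ℕ, n ≤ m → ∀ t ∈ Ioo (-((n : ℝ) + 1)) ((n : ℝ) + 1), γ n t = γ m t := by
    intro n m hnm t ht
    obtain ⟨K, L, h1, h2⟩ := hT ((n : ℝ) + 1) (by positivity)
    have hnm' : (n : ℝ) ≤ m := by exact_mod_cast hnm
    have hpos : (0 : ℝ) < (n : ℝ) + 1 := by positivity
    have := ODE_solution_unique_of_mem_Ioo (v := V) (s := fun _ => univ) (K := K)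
      (f := γ n) (g := γ m) (t₀ := 0) (a := -((n : ℝ) + 1)) (b := (n : ℝ) + 1)
      (fun t ht => (h1 t (Ioo_subset_Icc_self ht)).lipschitzOnWith)
      ⟨by linarith, hpos⟩
      (fun t ht => ⟨hγ n t ht, mem_univ _⟩)
      (fun t ht => ⟨hγ m t ⟨by linarith [ht.1], by linarith [ht.2]⟩, mem_univ _⟩)
      (by rw [h0, h0])
    exact this ht
  have huniq2 : ∀ n m : ℕ, ∀ t : ℝ, |t| < (n : ℝ) + 1 → |t| < (m : ℝ) + 1 → γ n t = γ m t := by
    intro n m t h1 h2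
    rcases le_total n m with h | h
    · exact huniq n m h t (abs_lt.1 h1)
    · exact (huniq m n h t (abs_lt.1 h2)).symm
  refine ⟨fun t => γ ⌊|t|⌋₊ t, by simp [h0], ?_⟩
  intro t
  have hfl : ∀ s : ℝ, |s| < (⌊|s|⌋₊ : ℝ) + 1 := fun s => Nat.lt_floor_add_one _
  set N := ⌊|t|⌋₊ with hN
  have hev : (fun s => γ ⌊|s|⌋₊ s) =ᶠ[𝓝 t] γ N := by
    have h1 : ∀ᶠ s in 𝓝 t, |s| < (N : ℝ) + 1 :=
      (continuous_abs.tendsto t).eventually (gt_mem_nhds (hfl t))
    filter_upwards [h1] with s hs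
    exact huniq2 _ _ s (hfl s) hs
  have h2 := hγ N t (abs_lt.1 (hfl t))
  exact h2.congr_of_eventuallyEq hev

/-- global solutions of `x' = A x + Z x`, for `Z` bounded and Lipschitz -/
theorem exists_sol_affine (A : E →L[ℝ] E) (Z : E → E) (K B : ℝ≥0) (hZ : LipschitzWith K Z)
    (hB : ∀ x, ‖Z x‖ ≤ B) (x0 : E) :
    ∃ γ : ℝ → E, γ 0 = x0 ∧ ∀ t, HasDerivAt γ (A (γ t) + Z (γ t)) t := by
  let S : ℝ → (E →L[ℝ] E) := fun t => NormedSpace.exp (t • A)
  have hSd : ∀ t, HasDerivAt S (A * S t) t := fun t => hasDerivAt_exp_smul_const' A t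
  have hScont : Continuous S := continuous_iff_continuousAt.2 fun t => (hSd t).continuousAt
  have hSS : ∀ t, S t * S (-t) = 1 := by
    intro t
    have h1 : Commute (t • A) ((-t) • A) := by
      rw [neg_smul]; exact (Commute.refl _).neg_right
    letI : NormedAlgebra ℚ (E →L[ℝ] E) := NormedAlgebra.restrictScalars ℚ ℝ _
    have h2 := NormedSpace.exp_add_of_commute h1
    rw [← h2]
    simp
  have hbd : ∀ T : ℝ, 0 < T → ∃ M : ℝ≥0, ∀ t ∈ Icc (-T) T, ‖S t‖₊ ≤ M := by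
    intro T _
    obtain ⟨M, hM⟩ := isCompact_Icc.exists_bound_of_continuousOn (s := Icc (-T) T)
      (f := S) hScont.continuousOn
    refine ⟨M.toNNReal, fun t ht => ?_⟩
    have := hM t ht
    rw [← NNReal.coe_le_coe, coe_nnnorm]
    exact this.trans (Real.le_coe_toNNReal M)
  let V : ℝ → E → E := fun t g => S (-t) (Z (S t g))
  obtain ⟨g, hg0, hg⟩ := exists_sol_global V
    (by
      intro x
      have h1 : Continuous fun t => S (-t) := hScont.comp continuous_neg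
      have h2 : Continuous fun t => Z (S t x) :=
        hZ.continuous.comp (hScont.clm_apply continuous_const)
      exact h1.clm_apply h2)
    (by
      intro T hT
      obtain ⟨M, hM⟩ := hbd T hT
      refine ⟨M * (K * M), M * B, ?_, ?_⟩
      · intro t ht
        have ht' : -t ∈ Icc (-T) T := ⟨by linarith [ht.2], by linarith [ht.1]⟩
        have h1 : LipschitzWith M (S (-t)) := (S (-t)).lipschitz.weaken (hM _ ht')
        have h2 : LipschitzWith M (S t) := (S t).lipschitz.weaken (hM _ ht)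
        exact h1.comp (hZ.comp h2)
      · intro t ht x
        have ht' : -t ∈ Icc (-T) T := ⟨by linarith [ht.2], by linarith [ht.1]⟩
        have h1 : ‖S (-t)‖ ≤ M := by exact_mod_cast hM _ ht'
        calc ‖V t x‖ ≤ ‖S (-t)‖ * ‖Z (S t x)‖ := (S (-t)).le_opNorm _
          _ ≤ M * B := mul_le_mul h1 (hB _) (norm_nonneg _) M.2
          _ = ((M * B : ℝ≥0) : ℝ) := by push_cast; rfl) x0
  refine ⟨fun t => S t (g t), ?_, ?_⟩
  · have : S 0 = 1 := by simp [S]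
    change S 0 (g 0) = x0
    rw [this, hg0]
    rfl
  · intro t
    have h1 := (hSd t).clm_apply (hg t)
    convert h1 using 1
    have h2 : S t (V t (g t)) = Z (S t (g t)) := by
      have h3 : (S t * S (-t)) (Z (S t (g t))) = Z (S t (g t)) := by rw [hSS]; rfl
      exact h3
    rw [h2]
    rfl

end LorBall
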