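import Pool.Agent.LorBall.Space

open Set Filter Topology Function

namespace LorBall

variable {d m : ℕ} {K : Set (Vec m)} {N : ℝ}

/-- product of the slices -/
def Sgd (d : ℕ) (K : Set (Vec m)) : Set (Fin d → Vec m) := Set.pi univ (fun _ : Fin d => Sg K)

theorem mem_Sgd {u : Fin d → Vec m} : u ∈ Sgd d K ↔ ∀ j, u j ∈ Sg K := by
  simp [Sgd]

/-- directions orthogonal to `e0` -/
def Sph (m : ℕ) : Set (Vec m) := {z | z 0 = 0 ∧ ‖z‖ = 1}

theorem Sph_compact : IsCompact (Sph m) := by
  apply Metric.isCompact_of_isClosed_isBounded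
  · exact (isClosed_eq (by fun_prop) continuous_const).inter
      (isClosed_eq continuous_norm continuous_const)
  · apply (Metric.isBounded_closedBall (x := (0 : Vec m)) (r := 1)).subset
    intro z hz
    rw [mem_closedBall_zero_iff]
    exact hz.2.le

/-- the open condition -/
structure OLor (K : Set (Vec m)) (t : Idx d m → ℝ) : Prop where
  pos : ∀ u ∈ Sgd d K, 0 < P t u
  rcs : ∀ (a b : Fin d) (hab : a ≠ b), ∀ w ∈ Sgd d K, ∀ z ∈ Sph m,
    Bf t w a b hab z z * Bf t w a b hab e0 e0 < (Bf t w a b hab z e0) ^ 2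

theorem two_continuous (a b : Fin d) : Continuous fun q : (Fin d → Vec m) × Vec m × Vec m =>
    two q.1 a b q.2.1 q.2.2 := by
  unfold two
  exact (continuous_fst.update a (continuous_fst.comp continuous_snd)).update b
    (continuous_snd.comp continuous_snd)

theorem OLor_open (hK : GoodCone K N) : IsOpen {x : S0 d m | OLor K (tens x)} := by
  have h1 : {x : S0 d m | OLor K (tens x)} =
      {x : S0 d m | ∀ u ∈ Sgd d K, 0 < P (tens x) u} ∩
      ⋂ (a : Fin d), ⋂ (b : Fin d), ⋂ (hab : a ≠ b), {x : S0 d m | ∀ q ∈ (Sgd d K) ×ˢ (Sph m),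
        Bf (tens x) q.1 a b hab q.2 q.2 * Bf (tens x) q.1 a b hab e0 e0 <
          (Bf (tens x) q.1 a b hab q.2 e0) ^ 2} := by
    ext x
    simp only [mem_ofPred_eq, mem_inter_iff, mem_iInter]
    constructor
    · intro h
      refine ⟨h.pos, fun a b hab q hq => h.rcs a b hab q.1 hq.1 q.2 hq.2⟩
    · rintro ⟨h2, h3⟩
      exact ⟨h2, fun a b hab w hw z hz => h3 a b hab (w, z) ⟨hw, hz⟩⟩
  rw [h1]
  apply IsOpen.inter
  · rw [isOpen_iff_mem_nhds]
    intro x hx
    apply (hK.Sgd_compact (d := d)).eventually_forall_of_forall_eventually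
    intro u hu
    have hc : Continuous fun q : S0 d m × (Fin d → Vec m) => P (tens q.1) q.2 :=
      P_tens_continuous₂
    exact hc.continuousAt.eventually (lt_mem_nhds (hx u hu))
  · apply isOpen_iInter_of_finite
    intro a
    apply isOpen_iInter_of_finite
    intro b
    apply isOpen_iInter_of_finite
    intro hab
    rw [isOpen_iff_mem_nhds]
    intro x hx
    apply ((hK.Sgd_compact (d := d)).prod (Sph_compact (m := m))).eventually_forall_of_forall_eventually
    intro q hq
    have hB : ∀ (f g : (Fin d → Vec m) × Vec m → Vec m), Continuous f → Continuous g →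
        Continuous fun r : S0 d m × ((Fin d → Vec m) × Vec m) =>
          Bf (tens r.1) r.2.1 a b hab (f r.2) (g r.2) := by
      intro f g hf hg
      simp_rw [Bf_apply]
      have h2 : Continuous fun r : S0 d m × ((Fin d → Vec m) × Vec m) =>
          two r.2.1 a b (f r.2) (g r.2) :=
        (two_continuous a b).comp ((continuous_fst.comp continuous_snd).prodMk
          ((hf.comp continuous_snd).prodMk (hg.comp continuous_snd)))
      exact P_tens_continuous₂.comp (continuous_fst.prodMk h2)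
    have c1 := hB (fun q => q.2) (fun _ => e0) continuous_snd continuous_const
    have c2 := hB (fun q => q.2) (fun q => q.2) continuous_snd continuous_snd
    have c3 := hB (fun _ => e0) (fun _ => e0) continuous_const continuous_const
    have hc : Continuous fun r : S0 d m × ((Fin d → Vec m) × Vec m) =>
        (Bf (tens r.1) r.2.1 a b hab r.2.2 e0) ^ 2 -
        Bf (tens r.1) r.2.1 a b hab r.2.2 r.2.2 * Bf (tens r.1) r.2.1 a b hab e0 e0 :=
      (c1.pow 2).sub (c2.mul c3)
    have hxq : (0 : ℝ) < (Bf (tens x) q.1 a b hab q.2 e0) ^ 2 -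
        Bf (tens x) q.1 a b hab q.2 q.2 * Bf (tens x) q.1 a b hab e0 e0 := sub_pos.2 (hx q hq)
    have h3 : ∀ᶠ r : S0 d m × ((Fin d → Vec m) × Vec m) in 𝓝 (x, q),
        0 < (Bf (tens r.1) r.2.1 a b hab r.2.2 e0) ^ 2 -
        Bf (tens r.1) r.2.1 a b hab r.2.2 r.2.2 * Bf (tens r.1) r.2.1 a b hab e0 e0 :=
      (hc.continuousAt (x := (x, q))).eventually (lt_mem_nhds hxq)
    filter_upwards [h3] with r hr
    exact sub_pos.1 hr

theorem pos_of_Sgd (hK : GoodCone K N) {t : Idx d m → ℝ} (h : ∀ u ∈ Sgd d K, 0 < P t u)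
    (u : Fin d → Vec m) (hu : ∀ j, u j ∈ K) : 0 < P t u := by
  have h1 : u = fun j => (u j 0) • ((u j 0)⁻¹ • u j) := by
    funext j
    rw [smul_smul, mul_inv_cancel₀ (hK.pos (hu j)).ne', one_smul]
  rw [h1, (P t).map_smul_univ (fun j => u j 0) (fun j => (u j 0)⁻¹ • u j)]
  apply mul_pos
  · exact Finset.prod_pos fun j _ => hK.pos (hu j)
  · apply h
    rw [mem_Sgd]
    exact fun j => hK.normalize (hu j)

theorem OLor_lor (hK : GoodCone K N) {t : Idx d m → ℝ} (ht : IsSym t) (h : OLor K t) :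
    Lor K t := by
  refine ⟨pos_of_Sgd hK h.pos, ?_⟩
  intro a b hab w hw x
  -- normalise the other slots
  set r : Fin d → ℝ := fun j => if j = a ∨ j = b then 1 else w j 0 with hr
  set w' : Fin d → Vec m := fun j => (w j 0)⁻¹ • w j with hw'
  have hw'S : w' ∈ Sgd d K := mem_Sgd.2 fun j => hK.normalize (hw j)
  have hB : ∀ x y, Bf t w a b hab x y = (∏ j, r j) * Bf t w' a b hab x y := by
    intro x y
    rw [Bf_apply, Bf_apply, ← smul_eq_mul, ← (P t).map_smul_univ r (two w' a b x y)]
    congr 1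
    funext j
    unfold two
    by_cases hjb : j = b
    · subst hjb
      rw [update_self, update_self, hr]
      simp
    · rw [update_of_ne hjb, update_of_ne hjb]
      by_cases hja : j = a
      · subst hja
        rw [update_self, update_self, hr]
        simp
      · rw [update_of_ne hja, update_of_ne hja, hr, hw']
        simp only [hja, hjb, or_self, if_false]
        rw [smul_smul, mul_inv_cancel₀ (hK.pos (hw j)).ne', one_smul]
  set z : Vec m := x - (x 0) • e0 with hz
  have hz0 : z 0 = 0 := by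
    rw [hz, Pi.sub_apply, Pi.smul_apply, e0_zero]
    simp
  have hxz : x = z + (x 0) • e0 := by rw [hz]; abel
  have hzz : Bf t w' a b hab z z * Bf t w' a b hab e0 e0 ≤ (Bf t w' a b hab z e0) ^ 2 := by
    by_cases hz1 : z = 0
    · rw [hz1]
      simp
    · have hn : 0 < ‖z‖ := norm_pos_iff.2 hz1
      have h1 := h.rcs a b hab w' hw'S (‖z‖⁻¹ • z) ⟨by
        rw [Pi.smul_apply, hz0, smul_zero], by
        rw [norm_smul, norm_inv, norm_norm, inv_mul_cancel₀ hn.ne']⟩
      simp only [map_smul, LinearMap.smul_apply, smul_eq_mul] at h1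
      have h2 : ‖z‖⁻¹ ^ 2 * (Bf t w' a b hab z z * Bf t w' a b hab e0 e0) <
          ‖z‖⁻¹ ^ 2 * (Bf t w' a b hab z e0) ^ 2 := by
        calc _ = ‖z‖⁻¹ * (‖z‖⁻¹ * Bf t w' a b hab z z) * Bf t w' a b hab e0 e0 := by ring
          _ < _ := h1
          _ = _ := by ring
      exact (lt_of_mul_lt_mul_left h2 (by positivity)).le
  have h3 := rcs_shift (Bf t w' a b hab) (Bf_symm ht w' hab) z e0 (x 0)
  rw [← hxz] at h3
  rw [hB, hB, hB]
  have h4 : Bf t w' a b hab x x * Bf t w' a b hab e0 e0 ≤ (Bf t w' a b hab x e0) ^ 2 := by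
    linarith
  have h5 : 0 ≤ (∏ j, r j) ^ 2 := sq_nonneg _
  calc (∏ j, r j) * Bf t w' a b hab x x * ((∏ j, r j) * Bf t w' a b hab e0 e0)
      = (∏ j, r j) ^ 2 * (Bf t w' a b hab x x * Bf t w' a b hab e0 e0) := by ring
    _ ≤ (∏ j, r j) ^ 2 * (Bf t w' a b hab x e0) ^ 2 := mul_le_mul_of_nonneg_left h4 h5
    _ = _ := by ring

theorem mem_interior_QS (hK : GoodCone K N) {x : S0 d m} (hx : OLor K (tens x)) :
    x ∈ interior (QS K : Set (S0 d m)) := by
  rw [mem_interior]
  exact ⟨{x : S0 d m | OLor K (tens x)}, fun y hy => OLor_lor hK (tens_sym y) hy,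
    OLor_open hK, hx⟩

end LorBall
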