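import Pool.Agent.LorBall.Cone

open Set Filter Topology Function

namespace LorBall

variable {d m : ℕ}

/-- Lorentzian tensors -/
structure Lor (K : Set (Vec m)) (t : Idx d m → ℝ) : Prop where
  pos : ∀ u : Fin d → Vec m, (∀ j, u j ∈ K) → 0 < P t u
  rcs : ∀ (a b : Fin d) (hab : a ≠ b) (w : Fin d → Vec m), (∀ j, w j ∈ K) → ∀ x,
    Bf t w a b hab x x * Bf t w a b hab e0 e0 ≤ (Bf t w a b hab x e0) ^ 2

/-- the state space: symmetric tensors with vanishing first entry -/
def S0 (d m : ℕ) : Submodule ℝ (EuclideanSpace ℝ (Idx d m)) where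
  carrier := {x | (∀ (σ : Equiv.Perm (Fin d)) (i : Idx d m), x (i ∘ σ) = x i) ∧
    x (fun _ => 0) = 0}
  add_mem' := by
    rintro x y ⟨h1, h2⟩ ⟨h3, h4⟩
    refine ⟨fun σ i => ?_, ?_⟩
    · rw [PiLp.add_apply, PiLp.add_apply, h1, h3]
    · rw [PiLp.add_apply, h2, h4, add_zero]
  zero_mem' := by
    refine ⟨fun σ i => rfl, rfl⟩
  smul_mem' := by
    rintro c x ⟨h1, h2⟩
    refine ⟨fun σ i => ?_, ?_⟩
    · rw [PiLp.smul_apply, PiLp.smul_apply, h1]
    · rw [PiLp.smul_apply, h2, smul_zero]

/-- coordinates of a state -/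
def cd (x : S0 d m) (i : Idx d m) : ℝ := (x : EuclideanSpace ℝ (Idx d m)) i

/-- coordinate functionals -/
noncomputable def cdL (i : Idx d m) : S0 d m →L[ℝ] ℝ :=
  (EuclideanSpace.proj i).comp (S0 d m).subtypeL

theorem cdL_apply (i : Idx d m) (x : S0 d m) : cdL i x = cd x i := rfl

theorem cd_add (x y : S0 d m) (i : Idx d m) : cd (x + y) i = cd x i + cd y i := rfl

theorem cd_sub (x y : S0 d m) (i : Idx d m) : cd (x - y) i = cd x i - cd y i := rfl

theorem cd_smul (c : ℝ) (x : S0 d m) (i : Idx d m) : cd (c • x) i = c * cd x i := rfl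

theorem cd_zero (i : Idx d m) : cd (0 : S0 d m) i = 0 := rfl

theorem cd_sym (x : S0 d m) (σ : Equiv.Perm (Fin d)) (i : Idx d m) : cd x (i ∘ σ) = cd x i :=
  x.2.1 σ i

theorem cd_first (x : S0 d m) : cd x (fun _ => 0) = 0 := x.2.2

/-- the tensor of a state -/
noncomputable def tens (x : S0 d m) : Idx d m → ℝ := fun i => cT i + cd x i

theorem tens_sym (x : S0 d m) : IsSym (tens x) := by
  intro σ i
  unfold tens
  rw [cT_sym σ i, cd_sym]

theorem tens_continuous : Continuous (tens : S0 d m → Idx d m → ℝ) := by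
  apply continuous_pi
  intro i
  exact continuous_const.add (cdL i).continuous

theorem tens_first (x : S0 d m) : tens x (fun _ => 0) = 1 := by
  unfold tens
  rw [cd_first]
  simp [cT]

theorem P_e0 (t : Idx d m → ℝ) : P t (fun _ => e0) = t (fun _ => 0) := by
  have := GoodCone.P_single t (fun _ => 0) 1
  rw [one_pow, one_mul] at this
  exact this

theorem P_tens_e0 (x : S0 d m) : P (tens x) (fun _ => e0) = 1 := by
  rw [P_e0, tens_first]

theorem P_tens_continuous (u : Fin d → Vec m) : Continuous fun x : S0 d m => P (tens x) u :=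
  P_continuous.comp (tens_continuous.prodMk continuous_const)

theorem P_tens_continuous₂ : Continuous fun q : S0 d m × (Fin d → Vec m) => P (tens q.1) q.2 :=
  P_continuous.comp ((tens_continuous.comp continuous_fst).prodMk continuous_snd)

/-- the Lorentzian states -/
def QS (K : Set (Vec m)) : Set (S0 d m) := {x | Lor K (tens x)}

variable {K : Set (Vec m)} {N : ℝ}

theorem mem_QS_iff (hK : GoodCone K N) (x : S0 d m) : x ∈ QS K ↔
    (∀ u : Fin d → Vec m, (∀ j, u j ∈ K) → 0 ≤ P (tens x) u) ∧
    (∀ (a b : Fin d) (hab : a ≠ b) (w : Fin d → Vec m), (∀ j, w j ∈ K) → ∀ y,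
      Bf (tens x) w a b hab y y * Bf (tens x) w a b hab e0 e0 ≤
        (Bf (tens x) w a b hab y e0) ^ 2) := by
  constructor
  · intro h
    exact ⟨fun u hu => (h.pos u hu).le, h.rcs⟩
  · rintro ⟨h1, h2⟩
    exact ⟨hK.pos_of_nonneg h1 (by rw [P_tens_e0]; exact one_pos), h2⟩

theorem QS_closed (hK : GoodCone K N) : IsClosed (QS K : Set (S0 d m)) := by
  have h : (QS K : Set (S0 d m)) =
      (⋂ (u : Fin d → Vec m) (_ : ∀ j, u j ∈ K), {x | 0 ≤ P (tens x) u}) ∩
      (⋂ (a : Fin d) (b : Fin d) (hab : a ≠ b) (w : Fin d → Vec m) (_ : ∀ j, w j ∈ K) (y : Vec m),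
        {x | Bf (tens x) w a b hab y y * Bf (tens x) w a b hab e0 e0 ≤
        (Bf (tens x) w a b hab y e0) ^ 2}) := by
    ext x
    rw [mem_QS_iff hK]
    simp only [mem_inter_iff, mem_iInter, mem_ofPred_eq]
  rw [h]
  apply IsClosed.inter
  · apply isClosed_iInter
    intro u
    apply isClosed_iInter
    intro _
    exact isClosed_le continuous_const (P_tens_continuous u)
  · apply isClosed_iInter
    intro a
    apply isClosed_iInter
    intro b
    apply isClosed_iInter
    intro hab
    apply isClosed_iInter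
    intro w
    apply isClosed_iInter
    intro _
    apply isClosed_iInter
    intro y
    exact isClosed_le ((P_tens_continuous _).mul (P_tens_continuous _))
      ((P_tens_continuous _).pow 2)

theorem norm_bound (hK : GoodCone K N) : ∃ R : ℝ, 0 < R ∧ ∀ x : S0 d m,
    (∀ u : Fin d → Vec m, (∀ j, u j ∈ K) → 0 ≤ P (tens x) u) → ‖x‖ ≤ R := by
  obtain ⟨C, hC, hb⟩ := hK.coord_bound (d := d)
  refine ⟨Fintype.card (Idx d m) * (C + 1), ?_, ?_⟩
  · have : 0 < Fintype.card (Idx d m) := Fintype.card_pos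
    positivity
  · intro x hx
    have h1 := hb (tens x) hx (P_tens_e0 x)
    have h2 : ∀ i, |cd x i| ≤ C + 1 := by
      intro i
      have h3 : cd x i = tens x i - cT i := by unfold tens; ring
      have h4 : |(cT i : ℝ)| ≤ 1 := by
        unfold cT
        split_ifs <;> simp
      rw [h3]
      exact (abs_sub _ _).trans (add_le_add (h1 i) h4)
    have h5 : ‖x‖ ≤ ∑ i, |cd x i| := by
      have h6 : ‖x‖ = ‖(x : EuclideanSpace ℝ (Idx d m))‖ := rfl
      rw [h6, EuclideanSpace.norm_eq]
      have h7 : ∑ i, ‖(x : EuclideanSpace ℝ (Idx d m)) i‖ ^ 2 ≤ (∑ i, |cd x i|) ^ 2 := by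
        have := Finset.sum_sq_le_sq_sum_of_nonneg (s := Finset.univ) (f := fun i => |cd x i|)
          (fun i _ => abs_nonneg _)
        exact this
      exact (Real.sqrt_le_sqrt h7).trans (by
        rw [Real.sqrt_sq (Finset.sum_nonneg fun i _ => abs_nonneg _)])
    refine h5.trans ?_
    refine (Finset.sum_le_card_nsmul _ _ _ (fun i _ => h2 i)).trans ?_
    rw [nsmul_eq_mul, Finset.card_univ]

theorem QS_compact (hK : GoodCone K N) : IsCompact (QS K : Set (S0 d m)) := by
  obtain ⟨R, _, hR⟩ := norm_bound (d := d) hK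
  apply Metric.isCompact_of_isClosed_isBounded (QS_closed hK)
  apply (Metric.isBounded_closedBall (x := (0 : S0 d m)) (r := R)).subset
  intro x hx
  rw [mem_closedBall_zero_iff]
  exact hR x (fun u hu => (hx.pos u hu).le)

theorem cT_lor (hK : GoodCone K N) : Lor K (cT : Idx d m → ℝ) := by
  refine ⟨?_, ?_⟩
  · intro u hu
    rw [P_cT]
    exact Finset.prod_pos fun j _ => hK.pos (hu j)
  · intro a b hab w _ x
    have h : ∀ x y : Vec m, Bf cT w a b hab x y = x 0 * y 0 *
        ∏ j ∈ (Finset.univ.erase b).erase a, w j 0 := by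
      intro x y
      rw [Bf_apply, P_cT, ← Finset.mul_prod_erase _ _ (Finset.mem_univ b),
        ← Finset.mul_prod_erase _ _ (Finset.mem_erase.2 ⟨hab, Finset.mem_univ a⟩)]
      have h1 : two w a b x y b = y := by unfold two; rw [update_self]
      have h2 : two w a b x y a = x := by unfold two; rw [update_of_ne hab, update_self]
      have h3 : ∏ j ∈ (Finset.univ.erase b).erase a, two w a b x y j 0
          = ∏ j ∈ (Finset.univ.erase b).erase a, w j 0 := by
        apply Finset.prod_congr rfl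
        intro j hj
        rw [Finset.mem_erase, Finset.mem_erase] at hj
        unfold two
        rw [update_of_ne hj.2.1, update_of_ne hj.1]
      rw [h1, h2, h3]
      ring
    rw [h, h, h]
    apply le_of_eq
    ring

theorem zero_mem_QS (hK : GoodCone K N) : (0 : S0 d m) ∈ QS K := by
  have : tens (0 : S0 d m) = cT := by
    funext i
    unfold tens
    rw [cd_zero, add_zero]
  change Lor K (tens 0)
  rw [this]
  exact cT_lor hK

end LorBall
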