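import Pool.Agent.LorBall.Defs
import Pool.Agent.LorBall.Space

open MvPolynomial

namespace LorBall

variable {n d m : ℕ}

/-! ### Directional derivatives -/

/-- the directional derivative as a derivation -/
noncomputable def derD (u : Fin n → ℝ) : Derivation ℝ (MvPolynomial (Fin n) ℝ)
    (MvPolynomial (Fin n) ℝ) :=
  ∑ i : Fin n, (C (u i) : MvPolynomial (Fin n) ℝ) • (pderiv i)

theorem dirD_eq (u : Fin n → ℝ) (f : MvPolynomial (Fin n) ℝ) : dirD u f = derD u f := by
  unfold dirD derD
  change _ = Derivation.coeFnAddMonoidHom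
    (∑ i : Fin n, (C (u i) : MvPolynomial (Fin n) ℝ) • (pderiv i :
      Derivation ℝ (MvPolynomial (Fin n) ℝ) (MvPolynomial (Fin n) ℝ))) f
  rw [map_sum, Finset.sum_apply]
  rfl

theorem dirD_add (u : Fin n → ℝ) (f g : MvPolynomial (Fin n) ℝ) :
    dirD u (f + g) = dirD u f + dirD u g := by
  rw [dirD_eq, dirD_eq, dirD_eq, map_add]

theorem dirD_sum {ι : Type*} (s : Finset ι) (u : Fin n → ℝ) (f : ι → MvPolynomial (Fin n) ℝ) :
    dirD u (∑ i ∈ s, f i) = ∑ i ∈ s, dirD u (f i) := by
  simp_rw [dirD_eq]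
  rw [map_sum]

theorem dirD_smul (u : Fin n → ℝ) (c : ℝ) (f : MvPolynomial (Fin n) ℝ) :
    dirD u (c • f) = c • dirD u f := by
  rw [dirD_eq, dirD_eq, Derivation.map_smul]

theorem dirD_zero (u : Fin n → ℝ) : dirD u 0 = 0 := by
  rw [dirD_eq, map_zero]

theorem dirD_mul (u : Fin n → ℝ) (f g : MvPolynomial (Fin n) ℝ) :
    dirD u (f * g) = f * dirD u g + g * dirD u f := by
  rw [dirD_eq, dirD_eq, dirD_eq, Derivation.leibniz, smul_eq_mul, smul_eq_mul]

theorem dirD_C (u : Fin n → ℝ) (c : ℝ) : dirD u (C c) = 0 := by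
  rw [dirD_eq]
  exact derivation_C _ _

theorem dirD_X (u : Fin n → ℝ) (k : Fin n) : dirD u (X k) = C (u k) := by
  unfold dirD
  rw [Finset.sum_eq_single k]
  · rw [pderiv_X_self, mul_one]
  · intro i _ hi
    rw [pderiv_X_of_ne hi.symm, mul_zero]
  · intro h
    exact absurd (Finset.mem_univ _) h

theorem dirD_left_add (u w : Fin n → ℝ) (f : MvPolynomial (Fin n) ℝ) :
    dirD (u + w) f = dirD u f + dirD w f := by
  unfold dirD
  rw [← Finset.sum_add_distrib]
  apply Finset.sum_congr rfl
  intro i _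
  rw [Pi.add_apply, C_add, add_mul]

theorem dirD_left_smul (c : ℝ) (u : Fin n → ℝ) (f : MvPolynomial (Fin n) ℝ) :
    dirD (c • u) f = c • dirD u f := by
  unfold dirD
  rw [Finset.smul_sum]
  apply Finset.sum_congr rfl
  intro i _
  rw [Pi.smul_apply, smul_eq_mul, C_mul, smul_eq_C_mul, mul_assoc]

theorem dirD_left_sum {ι : Type*} (s : Finset ι) (u : ι → Fin n → ℝ)
    (f : MvPolynomial (Fin n) ℝ) : dirD (∑ a ∈ s, u a) f = ∑ a ∈ s, dirD (u a) f := by
  classical
  induction s using Finset.induction_on with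
  | empty => simp [dirD]
  | insert a s ha ih => rw [Finset.sum_insert ha, Finset.sum_insert ha, dirD_left_add, ih]

theorem dirD_single (k : Fin n) (f : MvPolynomial (Fin n) ℝ) :
    dirD (Pi.single k 1) f = pderiv k f := by
  unfold dirD
  rw [Finset.sum_eq_single k]
  · simp
  · intro i _ hi
    rw [Pi.single_eq_of_ne hi]
    simp
  · intro h
    exact absurd (Finset.mem_univ _) h

theorem dirD_comm (u w : Fin n → ℝ) (f : MvPolynomial (Fin n) ℝ) :
    dirD u (dirD w f) = dirD w (dirD u f) := by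
  have h : ⁅derD u, derD w⁆ = 0 := by
    apply derivation_ext
    intro i
    have e1 : ∀ u w : Fin n → ℝ, derD u (derD w (X i)) = 0 := by
      intro u w
      rw [← dirD_eq w, dirD_X, ← dirD_eq, dirD_C]
    rw [Derivation.commutator_apply, e1, e1, sub_zero, Derivation.zero_apply]
  have h2 := congrArg (fun D => D f) h
  simp only [Derivation.commutator_apply, ← dirD_eq, Derivation.zero_apply] at h2
  exact sub_eq_zero.1 h2

theorem iterD_dirD (l : List (Fin n → ℝ)) (u : Fin n → ℝ) (f : MvPolynomial (Fin n) ℝ) :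
    iterD l (dirD u f) = dirD u (iterD l f) := by
  induction l with
  | nil => rfl
  | cons v l ih =>
    change dirD v (iterD l (dirD u f)) = dirD u (dirD v (iterD l f))
    rw [ih, dirD_comm]

theorem iterD_smul (l : List (Fin n → ℝ)) (c : ℝ) (f : MvPolynomial (Fin n) ℝ) :
    iterD l (c • f) = c • iterD l f := by
  induction l with
  | nil => rfl
  | cons v l ih =>
    change dirD v (iterD l (c • f)) = c • dirD v (iterD l f)
    rw [ih, dirD_smul]

theorem dirD_homog {f : MvPolynomial (Fin n) ℝ} {k : ℕ} (hf : f.IsHomogeneous (k + 1))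
    (u : Fin n → ℝ) : (dirD u f).IsHomogeneous k := by
  unfold dirD
  apply IsHomogeneous.sum
  intro i _
  have h1 : (pderiv i f).IsHomogeneous k := by
    have := hf.pderiv (i := i)
    simpa using this
  have h2 := (isHomogeneous_C (Fin n) (u i)).mul h1
  simpa using h2

/-- Euler: a homogeneous polynomial of positive degree with vanishing derivatives vanishes. -/
theorem eq_zero_of_dirD {f : MvPolynomial (Fin n) ℝ} {k : ℕ} (hf : f.IsHomogeneous (k + 1))
    (h : ∀ u, dirD u f = 0) : f = 0 := by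
  have h1 := hf.sum_X_mul_pderiv
  have h2 : ∑ i, X i * pderiv i f = 0 := by
    apply Finset.sum_eq_zero
    intro i _
    rw [← dirD_single, h, mul_zero]
  rw [h2] at h1
  have h3 : ((k + 1 : ℕ) : ℝ) • f = 0 := by
    rw [Nat.cast_smul_eq_nsmul]
    exact h1.symm
  exact (smul_eq_zero.1 h3).resolve_left (by positivity)

/-- a homogeneous polynomial whose top derivatives vanish on an open set is zero -/
theorem eq_zero_of_numD {K : Set (Fin n → ℝ)} (hK : IsOpen K) (hne : K.Nonempty) (k : ℕ) :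
    ∀ f : MvPolynomial (Fin n) ℝ, f.IsHomogeneous k →
      (∀ l : List (Fin n → ℝ), l.length = k → (∀ v ∈ l, v ∈ K) → numD l f = 0) → f = 0 := by
  induction k with
  | zero =>
    intro f hf h
    have h1 := h [] rfl (by simp)
    have h2 : constantCoeff f = 0 := h1
    have h3 := (totalDegree_zero_iff_isHomogeneous (p := f)).2 hf
    rw [totalDegree_eq_zero_iff_eq_C] at h3
    rw [h3]
    rw [constantCoeff_eq] at h2
    rw [h2, C_0]
  | succ k ih =>
    intro f hf h
    have h1 : ∀ w ∈ K, dirD w f = 0 := by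
      intro w hw
      apply ih _ (dirD_homog hf w)
      intro l hl hlK
      have h2 := h (w :: l) (by simp [hl]) (by
        intro v hv
        rcases List.mem_cons.1 hv with h3 | h3
        · rw [h3]; exact hw
        · exact hlK v h3)
      unfold numD at h2 ⊢
      rw [iterD_dirD]
      exact h2
    apply eq_zero_of_dirD hf
    intro u
    obtain ⟨v, hv⟩ := hne
    have h3 : ∀ᶠ δ in nhdsWithin (0 : ℝ) (Set.Ioi 0), v + δ • u ∈ K := by
      apply nhdsWithin_le_nhds
      apply (hK.preimage (by fun_prop : Continuous fun δ : ℝ => v + δ • u)).mem_nhds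
      simp only [Set.mem_preimage, zero_smul, add_zero]
      exact hv
    obtain ⟨δ, h4, h5⟩ := (h3.and self_mem_nhdsWithin).exists
    have h6 := h1 _ h4
    rw [dirD_left_add, h1 v hv, zero_add, dirD_left_smul] at h6
    exact (smul_eq_zero.1 h6).resolve_left (ne_of_gt h5)

/-! ### Polynomials of tensors -/

/-- the linear form of a coordinate of `π` -/
noncomputable def lamP (π : (Fin n → ℝ) →ₗ[ℝ] Vec m) (a : Fin (m + 1)) : MvPolynomial (Fin n) ℝ :=
  ∑ k, C (π (Pi.single k 1) a) * X k

theorem pi_sum (u : Fin n → ℝ) : u = ∑ k, u k • (Pi.single k (1 : ℝ) : Fin n → ℝ) := by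
  funext j
  rw [Finset.sum_apply]
  simp [Pi.single_apply]

theorem eval_lamP (π : (Fin n → ℝ) →ₗ[ℝ] Vec m) (a : Fin (m + 1)) (u : Fin n → ℝ) :
    eval u (lamP π a) = π u a := by
  unfold lamP
  rw [map_sum]
  conv_rhs => rw [pi_sum u, map_sum, Finset.sum_apply]
  apply Finset.sum_congr rfl
  intro k _
  rw [map_mul, eval_C, eval_X, map_smul, Pi.smul_apply, smul_eq_mul, mul_comm]

theorem dirD_lamP (π : (Fin n → ℝ) →ₗ[ℝ] Vec m) (a : Fin (m + 1)) (u : Fin n → ℝ) :
    dirD u (lamP π a) = C (π u a) := by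
  unfold lamP
  rw [dirD_sum]
  have h1 : ∀ k, dirD u (C (π (Pi.single k 1) a) * X k) = C (u k * π (Pi.single k 1) a) := by
    intro k
    rw [dirD_mul, dirD_C, dirD_X, mul_zero, add_zero, ← C_mul, mul_comm]
  rw [Finset.sum_congr rfl (fun k _ => h1 k), ← map_sum]
  congr 1
  conv_rhs => rw [pi_sum u, map_sum, Finset.sum_apply]
  apply Finset.sum_congr rfl
  intro k _
  rw [map_smul, Pi.smul_apply, smul_eq_mul]

theorem lamP_homog (π : (Fin n → ℝ) →ₗ[ℝ] Vec m) (a : Fin (m + 1)) :
    (lamP π a).IsHomogeneous 1 := by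
  unfold lamP
  apply IsHomogeneous.sum
  intro k _
  have := (isHomogeneous_C (Fin n) (π (Pi.single k 1) a)).mul (isHomogeneous_X ℝ k)
  simpa using this

/-- the polynomial of a tensor -/
noncomputable def polyT (π : (Fin n → ℝ) →ₗ[ℝ] Vec m) (t : Idx d m → ℝ) : MvPolynomial (Fin n) ℝ :=
  ∑ i : Idx d m, t i • ∏ j, lamP π (i j)

theorem polyT_homog (π : (Fin n → ℝ) →ₗ[ℝ] Vec m) (t : Idx d m → ℝ) :
    (polyT π t).IsHomogeneous d := by
  unfold polyT
  apply IsHomogeneous.sum
  intro i _
  rw [smul_eq_C_mul]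
  have h1 : (∏ j, lamP π (i j)).IsHomogeneous (∑ _j : Fin d, 1) :=
    IsHomogeneous.prod _ _ _ (fun j _ => lamP_homog π (i j))
  have h2 := (isHomogeneous_C (Fin n) (t i)).mul h1
  simpa using h2

theorem eval_polyT (π : (Fin n → ℝ) →ₗ[ℝ] Vec m) (t : Idx d m → ℝ) (u : Fin n → ℝ) :
    eval u (polyT π t) = P t (fun _ => π u) := by
  unfold polyT
  rw [map_sum, P_apply]
  apply Finset.sum_congr rfl
  intro i _
  rw [smul_eval, map_prod]
  simp_rw [eval_lamP]

/-- sums over multi-indices of length `d + 1` -/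
theorem sum_cons {M : Type*} [AddCommMonoid M] (f : Idx (d + 1) m → M) :
    ∑ i, f i = ∑ a : Fin (m + 1), ∑ i : Idx d m, f (Fin.cons a i) := by
  rw [← (Fin.consEquiv (fun _ : Fin (d + 1) => Fin (m + 1))).sum_comp, Fintype.sum_prod_type]
  rfl

/-- contraction of a tensor in its first slot -/
def contr (t : Idx (d + 1) m → ℝ) (y : Vec m) : Idx d m → ℝ :=
  fun i => ∑ a, y a * t (Fin.cons a i)

theorem P_cons (t : Idx (d + 1) m → ℝ) (y : Vec m) (u : Fin d → Vec m) :
    P t (Fin.cons y u) = P (contr t y) u := by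
  rw [P_apply, P_apply, sum_cons]
  unfold contr
  simp_rw [Finset.sum_mul]
  rw [Finset.sum_comm]
  apply Finset.sum_congr rfl
  intro i _
  apply Finset.sum_congr rfl
  intro a _
  rw [Fin.prod_univ_succ]
  simp only [Fin.cons_zero, Fin.cons_succ]
  ring

theorem polyT_succ (π : (Fin n → ℝ) →ₗ[ℝ] Vec m) (t : Idx (d + 1) m → ℝ) :
    polyT π t = ∑ a, lamP π a * polyT π (fun i : Idx d m => t (Fin.cons a i)) := by
  unfold polyT
  rw [sum_cons]
  apply Finset.sum_congr rfl
  intro a _
  rw [Finset.mul_sum]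
  apply Finset.sum_congr rfl
  intro i _
  rw [Fin.prod_univ_succ]
  simp only [Fin.cons_zero, Fin.cons_succ]
  rw [mul_smul_comm]

theorem cons_sym {t : Idx (d + 1) m → ℝ} (ht : IsSym t) (a : Fin (m + 1)) :
    IsSym (fun i : Idx d m => t (Fin.cons a i)) := by
  intro σ i
  have h1 : (Fin.cons a (i ∘ σ) : Idx (d + 1) m) =
      (Fin.cons a i : Idx (d + 1) m) ∘ (Equiv.Perm.decomposeFin.symm (0, σ)) := by
    funext j
    refine Fin.cases ?_ (fun j => ?_) j
    · simp
    · simp
  simp only
  rw [h1, ht]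

theorem contr_sym {t : Idx (d + 1) m → ℝ} (ht : IsSym t) (y : Vec m) : IsSym (contr t y) := by
  intro σ i
  unfold contr
  apply Finset.sum_congr rfl
  intro a _
  exact congrArg (fun z => y a * z) (cons_sym ht a σ i)

theorem swap_sym {t : Idx (d + 2) m → ℝ} (ht : IsSym t) (a c : Fin (m + 1)) (i : Idx d m) :
    t (Fin.cons a (Fin.cons c i : Idx (d + 1) m)) = t (Fin.cons c (Fin.cons a i : Idx (d + 1) m)) := by
  have h1 : (Fin.cons a (Fin.cons c i : Idx (d + 1) m) : Idx (d + 2) m) =
      (Fin.cons c (Fin.cons a i : Idx (d + 1) m) : Idx (d + 2) m) ∘ (Equiv.swap 0 1) := by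
    funext j
    refine Fin.cases ?_ (fun j => ?_) j
    · simp only [Function.comp_apply, Equiv.swap_apply_left, Fin.cons_zero]
      rfl
    · refine Fin.cases ?_ (fun j => ?_) j
      · have : (Fin.succ 0 : Fin (d + 2)) = 1 := rfl
        rw [this]
        simp only [Function.comp_apply, Equiv.swap_apply_right, Fin.cons_zero]
        rfl
      · have h2 : Equiv.swap (0 : Fin (d + 2)) 1 j.succ.succ = j.succ.succ := by
          apply Equiv.swap_apply_of_ne_of_ne
          · exact Fin.succ_ne_zero _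
          · intro h
            have : j.succ = 0 := Fin.succ_injective _ (by rw [h]; rfl)
            exact Fin.succ_ne_zero _ this
        simp only [Function.comp_apply, h2, Fin.cons_succ]
  rw [h1, ht]

theorem sum_idx0 {M : Type*} [AddCommMonoid M] (f : Idx 0 m → M) : ∑ i, f i = f Fin.elim0 :=
  Fintype.sum_subsingleton f Fin.elim0

theorem polyT_zero (π : (Fin n → ℝ) →ₗ[ℝ] Vec m) (t : Idx 0 m → ℝ) :
    polyT π t = C (t Fin.elim0) := by
  unfold polyT
  rw [sum_idx0]
  simp only [Finset.univ_eq_empty, Finset.prod_empty]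
  rw [smul_eq_C_mul, mul_one]

theorem dirD_polyT (π : (Fin n → ℝ) →ₗ[ℝ] Vec m) (u : Fin n → ℝ) (d : ℕ) :
    ∀ t : Idx (d + 1) m → ℝ, IsSym t →
      dirD u (polyT π t) = ((d + 1 : ℕ) : ℝ) • polyT π (contr t (π u)) := by
  induction d with
  | zero =>
    intro t _
    rw [polyT_succ, dirD_sum]
    have h1 : ∀ a, dirD u (lamP π a * polyT π (fun i : Idx 0 m => t (Fin.cons a i)))
        = C (π u a * t (Fin.cons a Fin.elim0)) := by
      intro a
      rw [polyT_zero, dirD_mul, dirD_C, dirD_lamP, mul_zero, zero_add, ← C_mul, mul_comm]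
    rw [Finset.sum_congr rfl (fun a _ => h1 a), polyT_zero]
    unfold contr
    rw [map_sum]
    simp
  | succ d ih =>
    intro t ht
    rw [polyT_succ, dirD_sum]
    have h1 : ∀ a, dirD u (lamP π a * polyT π (fun i : Idx (d + 1) m => t (Fin.cons a i)))
        = ((d + 1 : ℕ) : ℝ) • (lamP π a *
          polyT π (contr (fun i : Idx (d + 1) m => t (Fin.cons a i)) (π u))) +
          π u a • polyT π (fun i : Idx (d + 1) m => t (Fin.cons a i)) := by
      intro a
      rw [dirD_mul, ih _ (cons_sym ht a), dirD_lamP, mul_smul_comm, mul_comm (polyT _ _) (C _),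
        ← smul_eq_C_mul]
    rw [Finset.sum_congr rfl (fun a _ => h1 a), Finset.sum_add_distrib, ← Finset.smul_sum]
    have h2 : ∑ a, π u a • polyT π (fun i : Idx (d + 1) m => t (Fin.cons a i))
        = polyT π (contr t (π u)) := by
      unfold polyT contr
      simp_rw [Finset.smul_sum, Finset.sum_smul]
      rw [Finset.sum_comm]
      simp_rw [smul_smul]
    have h3 : ∑ a, lamP π a * polyT π (contr (fun i : Idx (d + 1) m => t (Fin.cons a i)) (π u))
        = polyT π (contr t (π u)) := by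
      rw [polyT_succ π (contr t (π u))]
      apply Finset.sum_congr rfl
      intro a _
      congr 2
      funext i
      unfold contr
      apply Finset.sum_congr rfl
      intro c _
      rw [swap_sym ht]
    rw [h2, h3]
    have h4 : ((d + 1 + 1 : ℕ) : ℝ) = ((d + 1 : ℕ) : ℝ) + 1 := by push_cast; ring
    rw [h4, add_smul, one_smul]

theorem iterD_polyT (π : (Fin n → ℝ) →ₗ[ℝ] Vec m) (d : ℕ) :
    ∀ (t : Idx d m → ℝ), IsSym t → ∀ u : Fin d → (Fin n → ℝ),
      iterD (List.ofFn u) (polyT π t) = C ((d.factorial : ℝ) * P t (fun j => π (u j))) := by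
  induction d with
  | zero =>
    intro t _ u
    rw [List.ofFn_zero]
    change polyT π t = _
    rw [polyT_zero, P_apply, sum_idx0]
    simp
  | succ d ih =>
    intro t ht u
    rw [List.ofFn_succ]
    change dirD (u 0) (iterD (List.ofFn fun i => u i.succ) (polyT π t)) = _
    rw [← iterD_dirD, dirD_polyT π (u 0) d t ht, iterD_smul, ih _ (contr_sym ht _), ← P_cons,
      smul_eq_C_mul, ← C_mul]
    congr 1
    have h1 : (Fin.cons (π (u 0)) (fun j => π (u j.succ)) : Fin (d + 1) → Vec m) =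
        fun j => π (u j) := by
      funext j
      refine Fin.cases ?_ (fun j => ?_) j
      · simp
      · simp
    rw [h1, Nat.factorial_succ]
    push_cast
    ring

theorem numD_polyT (π : (Fin n → ℝ) →ₗ[ℝ] Vec m) {t : Idx d m → ℝ} (ht : IsSym t)
    (u : Fin d → (Fin n → ℝ)) :
    numD (List.ofFn u) (polyT π t) = (d.factorial : ℝ) * P t (fun j => π (u j)) := by
  unfold numD
  rw [iterD_polyT π d t ht u, constantCoeff_C]

end LorBall
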