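import Pool.Agent.LorBall.Bridge

open Set Filter Topology Function

namespace LorBall

variable {n : ℕ}

/-- open convex cones -/
structure OC (K : Set (Fin n → ℝ)) : Prop where
  op : IsOpen K
  conv : Convex ℝ K
  cone : ∀ x ∈ K, ∀ r : ℝ, 0 < r → r • x ∈ K

namespace OC

variable {K : Set (Fin n → ℝ)} (hK : OC K)
include hK

theorem add_closure {x y : Fin n → ℝ} (hx : x ∈ K) (hy : y ∈ closure K) : x + y ∈ K := by
  have h1 := hK.conv.combo_interior_closure_mem_interior (by rwa [hK.op.interior_eq]) hy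
    (a := 1 / 2) (b := 1 / 2) (by norm_num) (by norm_num) (by norm_num)
  rw [hK.op.interior_eq] at h1
  have h2 := hK.cone _ h1 2 (by norm_num)
  convert h2 using 1
  rw [smul_add, smul_smul, smul_smul]
  norm_num

theorem smul_closure {y : Fin n → ℝ} (hy : y ∈ closure K) {r : ℝ} (hr : 0 < r) :
    r • y ∈ closure K := by
  have h : MapsTo (fun y : Fin n → ℝ => r • y) K K := fun y hy => hK.cone y hy r hr
  exact map_mem_closure (continuous_const_smul r) hy h

theorem zero_closure {v : Fin n → ℝ} (hv : v ∈ K) : (0 : Fin n → ℝ) ∈ closure K := by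
  have h1 : Tendsto (fun k : ℕ => (1 / ((k : ℝ) + 1)) • v) atTop (𝓝 ((0 : ℝ) • v)) :=
    (tendsto_one_div_add_atTop_nhds_zero_nat).smul_const v
  rw [zero_smul] at h1
  exact mem_closure_of_tendsto h1 (Eventually.of_forall fun k => hK.cone v hv _ (by positivity))

theorem add_mem_closure {x y : Fin n → ℝ} (hx : x ∈ closure K) (hy : y ∈ closure K) :
    x + y ∈ closure K :=
  map_mem_closure₂ continuous_add hx hy (fun _ ha _ hb => hK.add_closure ha (subset_closure hb))

theorem bipolar {v : Fin n → ℝ} (hv : v ∈ K) {u : Fin n → ℝ} (hu : u ∉ closure K) :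
    ∃ φ : (Fin n → ℝ) →ₗ[ℝ] ℝ, (∀ x ∈ K, 0 ≤ φ x) ∧ φ u < 0 := by
  obtain ⟨f, c, h1, h2⟩ := geometric_hahn_banach_closed_point hK.conv.closure isClosed_closure hu
  have hc : 0 < c := by simpa using h1 0 (hK.zero_closure hv)
  refine ⟨-(f : (Fin n → ℝ) →ₗ[ℝ] ℝ), ?_, ?_⟩
  · intro x hx
    by_contra hneg
    push Not at hneg
    have hfx : 0 < f x := by
      have : (-(f : (Fin n → ℝ) →ₗ[ℝ] ℝ)) x = - f x := rfl
      rw [this] at hneg
      linarith
    have h3 := h1 _ (subset_closure (hK.cone x hx (c / f x) (by positivity)))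
    rw [map_smul, smul_eq_mul, div_mul_cancel₀ _ hfx.ne'] at h3
    exact lt_irrefl _ h3
  · change - f u < 0
    linarith

theorem zero_notMem (hne : K ≠ univ) : (0 : Fin n → ℝ) ∉ K := by
  intro h0
  apply hne
  rw [eq_univ_iff_forall]
  intro x
  obtain ⟨ε, hε, hball⟩ := Metric.isOpen_iff.1 hK.op 0 h0
  have hx : 0 < ‖x‖ + 1 := by positivity
  have h1 : (ε / (‖x‖ + 1)) • x ∈ K := by
    apply hball
    rw [mem_ball_zero_iff, norm_smul, Real.norm_of_nonneg (by positivity), div_mul_eq_mul_div,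
      div_lt_iff₀ hx]
    nlinarith [norm_nonneg x]
  have h2 := hK.cone _ h1 ((‖x‖ + 1) / ε) (by positivity)
  rw [smul_smul] at h2
  have h3 : (‖x‖ + 1) / ε * (ε / (‖x‖ + 1)) = 1 := by field_simp
  rw [h3, one_smul] at h2
  exact h2

theorem exists_functional (hne : K ≠ univ) {v : Fin n → ℝ} (hv : v ∈ K) :
    ∃ φ : (Fin n → ℝ) →ₗ[ℝ] ℝ, φ v = 1 ∧ (∀ x ∈ closure K, 0 ≤ φ x) ∧
      ∀ x ∈ closure K, φ x = 0 → -x ∈ closure K := by
  let D : Set ((Fin n → ℝ) →ₗ[ℝ] ℝ) := {φ | ∀ x ∈ K, 0 ≤ φ x}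
  have hD : ∀ φ ∈ D, ∀ x ∈ closure K, 0 ≤ φ x := by
    intro φ hφ
    have hcl : IsClosed {x | 0 ≤ φ x} :=
      isClosed_le continuous_const (LinearMap.continuous_of_finiteDimensional φ)
    exact closure_minimal hφ hcl
  obtain ⟨b, hbD, hspan, hli⟩ := exists_linearIndependent ℝ D
  have hfin : b.Finite := hli.setFinite
  let ℓ : (Fin n → ℝ) →ₗ[ℝ] ℝ := ∑ φ ∈ hfin.toFinset, φ
  have hℓ : ∀ x, ℓ x = ∑ φ ∈ hfin.toFinset, φ x := fun x => LinearMap.sum_apply _ _ _
  have hℓ0 : ∀ x ∈ closure K, 0 ≤ ℓ x := by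
    intro x hx
    rw [hℓ]
    exact Finset.sum_nonneg fun φ hφ => hD φ (hbD (hfin.mem_toFinset.1 hφ)) x hx
  have hℓ1 : ∀ x ∈ closure K, ℓ x = 0 → -x ∈ closure K := by
    intro x hx h0
    rw [hℓ, Finset.sum_eq_zero_iff_of_nonneg
      (fun φ hφ => hD φ (hbD (hfin.mem_toFinset.1 hφ)) x hx)] at h0
    by_contra hneg
    obtain ⟨φ, hφ, hφx⟩ := hK.bipolar hv hneg
    have hφs : φ ∈ Submodule.span ℝ b := by
      rw [hspan]
      exact Submodule.subset_span hφ
    have hz : φ x = 0 := by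
      have hle : Submodule.span ℝ b ≤ LinearMap.ker (LinearMap.applyₗ x :
          ((Fin n → ℝ) →ₗ[ℝ] ℝ) →ₗ[ℝ] ℝ) := by
        rw [Submodule.span_le]
        intro ψ hψ
        exact h0 ψ (hfin.mem_toFinset.2 hψ)
      exact hle hφs
    rw [map_neg, hz, neg_zero] at hφx
    exact lt_irrefl _ hφx
  have hv0 : 0 < ℓ v := by
    rcases (hℓ0 v (subset_closure hv)).eq_or_lt with h | h
    · exfalso
      have h1 := hK.add_closure hv (hℓ1 v (subset_closure hv) h.symm)
      rw [add_neg_cancel] at h1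
      exact hK.zero_notMem hne h1
    · exact h
  refine ⟨(ℓ v)⁻¹ • ℓ, ?_, ?_, ?_⟩
  · rw [LinearMap.smul_apply, smul_eq_mul, inv_mul_cancel₀ hv0.ne']
  · intro x hx
    rw [LinearMap.smul_apply, smul_eq_mul]
    exact mul_nonneg (inv_nonneg.2 hv0.le) (hℓ0 x hx)
  · intro x hx h0
    rw [LinearMap.smul_apply, smul_eq_mul] at h0
    rcases mul_eq_zero.1 h0 with h | h
    · exact absurd h (inv_ne_zero hv0.ne')
    · exact hℓ1 x hx h

theorem exists_red (hne : K ≠ univ) {v : Fin n → ℝ} (hv : v ∈ K) :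
    ∃ m, Nonempty (Red K v m) := by
  obtain ⟨φ, hφv, hφ0, hφ1⟩ := hK.exists_functional hne hv
  -- the lineality space
  let L : Submodule ℝ (Fin n → ℝ) :=
    { carrier := {x | x ∈ closure K ∧ -x ∈ closure K}
      zero_mem' := ⟨hK.zero_closure hv, by rw [neg_zero]; exact hK.zero_closure hv⟩
      add_mem' := by
        rintro x y ⟨h1, h2⟩ ⟨h3, h4⟩
        refine ⟨hK.add_mem_closure h1 h3, ?_⟩
        rw [neg_add]
        exact hK.add_mem_closure h2 h4
      smul_mem' := by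
        rintro c x ⟨h1, h2⟩
        rcases lt_trichotomy c 0 with h | h | h
        · refine ⟨?_, ?_⟩
          · have := hK.smul_closure h2 (neg_pos.2 h)
            rwa [smul_neg, neg_smul, neg_neg] at this
          · have := hK.smul_closure h1 (neg_pos.2 h)
            rwa [neg_smul] at this
        · subst h
          rw [zero_smul]
          exact ⟨hK.zero_closure hv, by rw [neg_zero]; exact hK.zero_closure hv⟩
        · refine ⟨hK.smul_closure h1 h, ?_⟩
          have := hK.smul_closure h2 h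
          rwa [smul_neg] at this }
  have hLφ : ∀ x ∈ L, φ x = 0 := by
    rintro x ⟨h1, h2⟩
    have h3 := hφ0 x h1
    have h4 := hφ0 (-x) h2
    rw [map_neg] at h4
    linarith
  let p : (Fin n → ℝ) →ₗ[ℝ] (LinearMap.ker φ) :=
    LinearMap.codRestrict (LinearMap.ker φ) (LinearMap.id - φ.smulRight v) (by
      intro x
      rw [LinearMap.mem_ker]
      simp [hφv])
  have hp : ∀ x, (p x : Fin n → ℝ) = x - φ x • v := fun x => rfl
  let L₀ : Submodule ℝ (LinearMap.ker φ) := L.comap (LinearMap.ker φ).subtype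
  let m := Module.finrank ℝ ((LinearMap.ker φ) ⧸ L₀)
  let b : Module.Basis (Fin m) ℝ ((LinearMap.ker φ) ⧸ L₀) := Module.finBasis ℝ _
  let ρ : (Fin n → ℝ) →ₗ[ℝ] (Fin m → ℝ) :=
    (b.equivFun : ((LinearMap.ker φ) ⧸ L₀) →ₗ[ℝ] (Fin m → ℝ)) ∘ₗ L₀.mkQ ∘ₗ p
  let π : (Fin n → ℝ) →ₗ[ℝ] Vec m :=
    LinearMap.pi (Fin.cons φ (fun a => (LinearMap.proj a) ∘ₗ ρ))
  have hπ0 : ∀ x, π x 0 = φ x := fun x => rfl
  have hπs : ∀ x a, π x (Fin.succ a) = ρ x a := fun x a => rfl
  have hker : ∀ x, π x = 0 ↔ x ∈ L := by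
    intro x
    constructor
    · intro h
      have h0 : φ x = 0 := by rw [← hπ0, h]; rfl
      have h1 : ρ x = 0 := by
        funext a
        rw [← hπs, h]
        rfl
      have h2 : L₀.mkQ (p x) = 0 := by
        have h3 : b.equivFun (L₀.mkQ (p x)) = 0 := h1
        rwa [LinearEquiv.map_eq_zero_iff] at h3
      rw [Submodule.mkQ_apply, Submodule.Quotient.mk_eq_zero] at h2
      have h3 : (p x : Fin n → ℝ) ∈ L := h2
      rw [hp, h0, zero_smul, sub_zero] at h3
      exact h3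
    · intro h
      have h0 : φ x = 0 := hLφ x h
      have h2 : L₀.mkQ (p x) = 0 := by
        rw [Submodule.mkQ_apply, Submodule.Quotient.mk_eq_zero]
        change (p x : Fin n → ℝ) ∈ L
        rw [hp, h0, zero_smul, sub_zero]
        exact h
      have h1 : ρ x = 0 := by
        change b.equivFun (L₀.mkQ (p x)) = 0
        rw [h2, map_zero]
      funext a
      refine Fin.cases ?_ (fun a => ?_) a
      · rw [hπ0, h0]; rfl
      · rw [hπs, h1]; rfl
  have hsurj : Surjective π := by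
    intro y
    obtain ⟨z, hz⟩ := b.equivFun.surjective (fun a => y (Fin.succ a))
    obtain ⟨w, rfl⟩ := L₀.mkQ_surjective z
    have hw : φ (w : Fin n → ℝ) = 0 := w.2
    refine ⟨y 0 • v + w, ?_⟩
    have h0 : φ (y 0 • v + w) = y 0 := by
      rw [map_add, map_smul, hφv, hw, smul_eq_mul, mul_one, add_zero]
    have h1 : p (y 0 • v + w) = w := by
      apply Subtype.ext
      rw [hp, h0]
      abel
    funext a
    refine Fin.cases ?_ (fun a => ?_) a
    · rw [hπ0, h0]
    · rw [hπs]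
      change b.equivFun (L₀.mkQ (p (y 0 • v + w))) a = _
      rw [h1, hz]
  have hπv : π v = e0 := by
    have h1 : p v = 0 := by
      apply Subtype.ext
      rw [hp, hφv, one_smul, sub_self]
      rfl
    funext a
    refine Fin.cases ?_ (fun a => ?_) a
    · rw [hπ0, hφv, e0_zero]
    · rw [hπs, e0_ne (Fin.succ_ne_zero a)]
      change b.equivFun (L₀.mkQ (p v)) a = 0
      rw [h1, map_zero, map_zero]
      rfl
  have hpre : ∀ x, x ∈ K ↔ π x ∈ π '' K := by
    intro x
    constructor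
    · exact fun h => ⟨x, h, rfl⟩
    · rintro ⟨y, hy, hxy⟩
      have h1 : x - y ∈ L := by
        rw [← hker, map_sub, hxy, sub_self]
      have h2 := hK.add_closure hy h1.1
      rwa [add_sub_cancel] at h2
  have hopen : IsOpenMap π := LinearMap.isOpenMap_of_finiteDimensional π hsurj
  have hcont : Continuous π := LinearMap.continuous_of_finiteDimensional π
  have hpreK : π ⁻¹' (π '' K) = K := by
    ext x
    exact (hpre x).symm
  have hcl : ∀ x, π x ∈ closure (π '' K) → x ∈ closure K := by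
    intro x hx
    have h1 := hopen.preimage_closure_eq_closure_preimage hcont (π '' K)
    rw [hpreK] at h1
    rw [← h1]
    exact hx
  -- the bound
  have hbd : ∃ N : ℝ, ∀ y ∈ π '' K, ∀ a, |y a| ≤ N * y 0 := by
    let S : Set (Vec m) := {y | y ∈ closure (π '' K) ∧ ‖y‖ = 1}
    have hS : IsCompact S := by
      have h1 : IsCompact (Metric.sphere (0 : Vec m) 1) := isCompact_sphere _ _
      refine h1.of_isClosed_subset ?_ ?_
      · exact isClosed_closure.inter (isClosed_eq continuous_norm continuous_const)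
      · rintro y ⟨-, hy⟩
        rw [mem_sphere_zero_iff_norm]
        exact hy
    have hpos : ∀ y ∈ closure (π '' K), y ≠ 0 → 0 < y 0 := by
      intro y hy hy0
      obtain ⟨x, rfl⟩ := hsurj y
      have hx := hcl x hy
      rw [hπ0]
      rcases (hφ0 x hx).eq_or_lt with h | h
      · exfalso
        apply hy0
        rw [hker]
        exact ⟨hx, hφ1 x hx h.symm⟩
      · exact h
    have hScl : ∀ y ∈ π '' K, y ≠ 0 → ‖y‖⁻¹ • y ∈ S := by
      rintro y ⟨x, hx, rfl⟩ hy0
      have hn : 0 < ‖π x‖ := norm_pos_iff.2 hy0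
      refine ⟨subset_closure ⟨‖π x‖⁻¹ • x, hK.cone x hx _ (inv_pos.2 hn), map_smul _ _ _⟩, ?_⟩
      rw [norm_smul, norm_inv, norm_norm, inv_mul_cancel₀ hn.ne']
    have hSne : S.Nonempty := by
      refine ⟨_, hScl (π v) ⟨v, hv, rfl⟩ ?_⟩
      intro h
      have h1 := congrFun h 0
      rw [hπ0, hφv] at h1
      exact one_ne_zero h1
    obtain ⟨y₀, hy₀, hmin⟩ := hS.exists_isMinOn hSne (f := fun y : Vec m => y 0)
      (continuous_apply 0).continuousOn
    have hy₀0 : y₀ ≠ 0 := by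
      intro h
      have := hy₀.2
      rw [h, norm_zero] at this
      exact zero_ne_one this
    have hc : 0 < y₀ 0 := hpos y₀ hy₀.1 hy₀0
    refine ⟨(y₀ 0)⁻¹, ?_⟩
    intro y hy a
    by_cases hy0 : y = 0
    · rw [hy0]
      simp
    · have h1 : y₀ 0 ≤ (‖y‖⁻¹ • y) 0 := hmin (hScl y hy hy0)
      rw [Pi.smul_apply, smul_eq_mul] at h1
      have hn : 0 < ‖y‖ := norm_pos_iff.2 hy0
      have h2 : y₀ 0 * ‖y‖ ≤ y 0 := by
        have := mul_le_mul_of_nonneg_right h1 hn.le
        rwa [mul_assoc, mul_comm (y 0), ← mul_assoc, inv_mul_cancel₀ hn.ne', one_mul] at this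
      have h3 : |y a| ≤ ‖y‖ := norm_le_pi_norm y a
      rw [inv_mul_eq_div, le_div_iff₀ hc, mul_comm]
      exact (mul_le_mul_of_nonneg_left h3 hc.le).trans h2
  obtain ⟨N, hN⟩ := hbd
  refine ⟨m, ⟨⟨π, π '' K, N, hsurj, hπv, ?_, hpre⟩⟩⟩
  refine ⟨hopen _ hK.op, hK.conv.linear_image π, ?_, ⟨v, hv, hπv⟩, hN⟩
  rintro y ⟨x, hx, rfl⟩ r hr
  exact ⟨r • x, hK.cone x hx r hr, map_smul _ _ _⟩

end OC

end LorBall
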