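import Mathlib

open Set Filter Topology Function

namespace LorBall

/-- multi-indices of length `d` with entries in `Fin (m + 1)` -/
abbrev Idx (d m : ℕ) : Type := Fin d → Fin (m + 1)

/-- vectors -/
abbrev Vec (m : ℕ) : Type := Fin (m + 1) → ℝ

variable {d m : ℕ}

/-- the multilinear form of a tensor -/
noncomputable def P (t : Idx d m → ℝ) : MultilinearMap ℝ (fun _ : Fin d => Vec m) ℝ :=
  ∑ i : Idx d m, t i • (MultilinearMap.mkPiAlgebra ℝ (Fin d) ℝ).compLinearMap
    (fun j => LinearMap.proj (i j))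

theorem P_apply (t : Idx d m → ℝ) (u : Fin d → Vec m) :
    P t u = ∑ i : Idx d m, t i * ∏ j, u j (i j) := by
  unfold P
  rw [_root_.sum_apply]
  apply Finset.sum_congr rfl
  intro i _
  rw [_root_.smul_apply, MultilinearMap.compLinearMap_apply,
    MultilinearMap.mkPiAlgebra_apply]
  rfl

theorem P_add (s t : Idx d m → ℝ) (u : Fin d → Vec m) : P (s + t) u = P s u + P t u := by
  rw [P_apply, P_apply, P_apply, ← Finset.sum_add_distrib]
  apply Finset.sum_congr rfl
  intro i _
  rw [Pi.add_apply]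
  ring

theorem P_sub (s t : Idx d m → ℝ) (u : Fin d → Vec m) : P (s - t) u = P s u - P t u := by
  rw [P_apply, P_apply, P_apply, ← Finset.sum_sub_distrib]
  apply Finset.sum_congr rfl
  intro i _
  rw [Pi.sub_apply]
  ring

theorem P_continuous : Continuous fun q : (Idx d m → ℝ) × (Fin d → Vec m) => P q.1 q.2 := by
  simp_rw [P_apply]
  fun_prop

/-- symmetric tensors -/
def IsSym (t : Idx d m → ℝ) : Prop := ∀ (σ : Equiv.Perm (Fin d)) (i : Idx d m), t (i ∘ σ) = t i

theorem P_perm {t : Idx d m → ℝ} (ht : IsSym t) (σ : Equiv.Perm (Fin d)) (u : Fin d → Vec m) :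
    P t (u ∘ σ) = P t u := by
  rw [P_apply, P_apply]
  apply Fintype.sum_equiv (Equiv.arrowCongr σ (Equiv.refl _))
  intro i
  have h1 : (Equiv.arrowCongr σ (Equiv.refl (Fin (m + 1)))) i = i ∘ σ.symm := rfl
  rw [h1, ht σ.symm i]
  congr 1
  rw [← Equiv.prod_comp σ (fun j => u j ((i ∘ σ.symm) j))]
  apply Finset.prod_congr rfl
  intro j _
  simp

/-- replace two entries -/
def two (w : Fin d → Vec m) (a b : Fin d) (x y : Vec m) : Fin d → Vec m :=
  update (update w a x) b y

theorem two_swap (w : Fin d → Vec m) {a b : Fin d} (hab : a ≠ b) (x y : Vec m) :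
    two w a b x y ∘ (Equiv.swap a b) = two w a b y x := by
  unfold two
  funext j
  simp only [comp_apply]
  by_cases hja : j = a
  · subst hja
    rw [Equiv.swap_apply_left, update_self, update_of_ne hab, update_self]
  · by_cases hjb : j = b
    · subst hjb
      rw [Equiv.swap_apply_right, update_of_ne hab, update_self, update_self]
    · rw [Equiv.swap_apply_of_ne_of_ne hja hjb, update_of_ne hjb, update_of_ne hja,
        update_of_ne hjb, update_of_ne hja]

theorem P_two_symm {t : Idx d m → ℝ} (ht : IsSym t) (w : Fin d → Vec m) {a b : Fin d}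
    (hab : a ≠ b) (x y : Vec m) : P t (two w a b x y) = P t (two w a b y x) := by
  rw [← two_swap w hab x y, P_perm ht]

/-- the bilinear form in two entries -/
noncomputable def Bf (t : Idx d m → ℝ) (w : Fin d → Vec m) (a b : Fin d) (hab : a ≠ b) :
    Vec m →ₗ[ℝ] Vec m →ₗ[ℝ] ℝ :=
  LinearMap.mk₂ ℝ (fun x y => P t (two w a b x y))
    (by
      intro x x' y
      unfold two
      rw [update_comm hab, update_comm hab, update_comm hab, (P t).map_update_add])
    (by
      intro c x y
      unfold two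
      rw [update_comm hab, update_comm hab, (P t).map_update_smul])
    (by
      intro x y y'
      unfold two
      rw [(P t).map_update_add])
    (by
      intro c x y
      unfold two
      rw [(P t).map_update_smul])

theorem Bf_apply (t : Idx d m → ℝ) (w : Fin d → Vec m) (a b : Fin d) (hab : a ≠ b) (x y : Vec m) :
    Bf t w a b hab x y = P t (two w a b x y) := rfl

theorem Bf_symm {t : Idx d m → ℝ} (ht : IsSym t) (w : Fin d → Vec m) {a b : Fin d}
    (hab : a ≠ b) (x y : Vec m) : Bf t w a b hab x y = Bf t w a b hab y x :=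
  P_two_symm ht w hab x y

/-! ### Bilinear algebra -/

theorem rcs_shift {M : Type*} [AddCommGroup M] [Module ℝ M] (B : M →ₗ[ℝ] M →ₗ[ℝ] ℝ)
    (hB : ∀ x y, B x y = B y x) (z e : M) (r : ℝ) :
    B (z + r • e) (z + r • e) * B e e - (B (z + r • e) e) ^ 2 = B z z * B e e - (B z e) ^ 2 := by
  simp only [map_add, map_smul, LinearMap.add_apply, LinearMap.smul_apply, smul_eq_mul]
  rw [hB e z]
  ring

theorem rcs_strict {M : Type*} [AddCommGroup M] [Module ℝ M] (B₁ B₂ : M →ₗ[ℝ] M →ₗ[ℝ] ℝ)
    (hB₁ : ∀ x y, B₁ x y = B₁ y x) (S : M → M)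
    (e : M) (hS : ∀ (x : M) (r : ℝ), S (x - r • e) = S x - r • e) (κ : ℝ) (hκ : 0 < κ)
    (hlt : ∀ z, z ≠ 0 → B₁ z z < κ * B₂ (S z) (S z))
    (hrcs : ∀ x, B₂ x x * B₂ e e ≤ (B₂ x e) ^ 2) (h1 : 0 < B₁ e e) (h2 : 0 < B₂ e e)
    (x : M) (hx : ∀ r : ℝ, x ≠ r • e) : B₁ x x * B₁ e e < (B₁ x e) ^ 2 := by
  set τ := B₂ (S x) e / B₂ e e with hτ
  set z := x - τ • e with hz
  have hz0 : z ≠ 0 := by
    intro h
    exact hx τ (sub_eq_zero.1 h)
  have h3 : B₂ (S z) e = 0 := by
    rw [hz, hS]
    simp only [map_sub, map_smul, LinearMap.sub_apply, LinearMap.smul_apply, smul_eq_mul]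
    rw [hτ]
    field_simp
    ring
  have h4 : B₂ (S z) (S z) ≤ 0 := by
    have h5 := hrcs (S z)
    rw [h3] at h5
    by_contra hcon
    push Not at hcon
    have := mul_pos hcon h2
    linarith [h5]
  have h5 : B₁ z z < 0 := by
    have := hlt z hz0
    have h6 : κ * B₂ (S z) (S z) ≤ 0 := mul_nonpos_of_nonneg_of_nonpos hκ.le h4
    linarith
  have h6 : B₁ z z * B₁ e e - (B₁ z e) ^ 2 < 0 := by
    have := mul_neg_of_neg_of_pos h5 h1
    nlinarith [sq_nonneg (B₁ z e)]
  have h7 := rcs_shift B₁ hB₁ z e τ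
  have h8 : z + τ • e = x := by rw [hz]; abel
  rw [h8] at h7
  linarith

/-! ### The contraction -/

/-- number of nonzero entries -/
def dk (i : Idx d m) : ℕ := (Finset.univ.filter fun j => i j ≠ 0).card

theorem dk_comp (i : Idx d m) (σ : Equiv.Perm (Fin d)) : dk (i ∘ σ) = dk i := by
  unfold dk
  rw [Finset.card_filter, Finset.card_filter]
  exact Equiv.sum_comp σ (fun j => if i j ≠ 0 then 1 else 0)

theorem dk_pos {i : Idx d m} (hi : i ≠ fun _ => 0) : 1 ≤ dk i := by
  unfold dk
  rw [Nat.one_le_iff_ne_zero, Ne, Finset.card_eq_zero, Finset.filter_eq_empty_iff]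
  intro h
  apply hi
  funext j
  have := h (Finset.mem_univ j)
  rwa [not_not] at this

theorem dk_zero : dk (fun _ : Fin d => (0 : Fin (m + 1))) = 0 := by
  unfold dk
  simp

/-- the contraction towards the first coordinate axis -/
def Sc (θ : ℝ) (x : Vec m) : Vec m := fun a => if a = 0 then x a else θ * x a

theorem P_Sc (t : Idx d m → ℝ) (θ : ℝ) (u : Fin d → Vec m) :
    P t (fun j => Sc θ (u j)) = ∑ i, (t i * θ ^ dk i) * ∏ j, u j (i j) := by
  rw [P_apply]
  apply Finset.sum_congr rfl
  intro i _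
  have h : ∏ j, Sc θ (u j) (i j) = θ ^ dk i * ∏ j, u j (i j) := by
    have h1 : ∀ j, Sc θ (u j) (i j) = (if i j ≠ 0 then θ else 1) * u j (i j) := by
      intro j
      unfold Sc
      by_cases h : i j = 0 <;> simp [h]
    simp_rw [h1]
    rw [Finset.prod_mul_distrib, Finset.prod_ite, Finset.prod_const, Finset.prod_const_one,
      mul_one]
    rfl
  rw [h]
  ring

theorem Sc_one (x : Vec m) : Sc 1 x = x := by
  funext a
  simp [Sc]

/-- the first basis vector -/
def e0 : Vec m := Pi.single 0 1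

theorem e0_zero : (e0 : Vec m) 0 = 1 := by simp [e0]

theorem e0_ne {a : Fin (m + 1)} (ha : a ≠ 0) : (e0 : Vec m) a = 0 := by simp [e0, ha]

theorem Sc_e0 (θ : ℝ) : Sc θ (e0 : Vec m) = e0 := by
  funext a
  by_cases h : a = 0 <;> simp [Sc, e0, h]

theorem Sc_eq (θ : ℝ) (x : Vec m) : Sc θ x = θ • x + ((1 - θ) * x 0) • e0 := by
  funext a
  by_cases h : a = 0
  · subst h
    simp [Sc, e0]
    ring
  · simp [Sc, e0, h]

theorem Sc_sub (θ : ℝ) (x : Vec m) (r : ℝ) : Sc θ (x - r • e0) = Sc θ x - r • e0 := by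
  funext a
  by_cases h : a = 0
  · subst h
    simp [Sc, e0]
  · simp [Sc, e0, h]

theorem Sc_two (θ : ℝ) (w : Fin d → Vec m) (a b : Fin d) (x y : Vec m) :
    (fun j => Sc θ (two w a b x y j)) = two (fun j => Sc θ (w j)) a b (Sc θ x) (Sc θ y) := by
  funext j
  unfold two
  by_cases hb : j = b
  · subst hb
    rw [update_self, update_self]
  · rw [update_of_ne hb, update_of_ne hb]
    by_cases ha : j = a
    · subst ha
      rw [update_self, update_self]
    · rw [update_of_ne ha, update_of_ne ha]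

/-! ### The reference tensors -/

/-- the tensor of the `d`-th power of the first coordinate -/
def cT (i : Idx d m) : ℝ := if i = (fun _ => 0) then 1 else 0

theorem P_cT (u : Fin d → Vec m) : P cT u = ∏ j, u j 0 := by
  rw [P_apply, Finset.sum_eq_single (fun _ => 0)]
  · simp [cT]
  · intro i _ hi
    simp [cT, hi]
  · intro h
    exact absurd (Finset.mem_univ _) h

theorem cT_sym : IsSym (cT : Idx d m → ℝ) := by
  intro σ i
  unfold cT
  have : (i ∘ σ = fun _ => 0) ↔ (i = fun _ => 0) := by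
    constructor
    · intro h
      funext j
      have := congrFun h (σ.symm j)
      simpa using this
    · rintro rfl
      rfl
  simp only [this]

/-- the linear forms used for the perturbation -/
def lf (N : ℝ) (a : Fin (m + 1)) (x : Vec m) : ℝ := (N + 1) * x 0 + x a

/-- the tensor of the sum of the `d`-th powers of these linear forms -/
def WT (N : ℝ) (i : Idx d m) : ℝ :=
  ∑ a : Fin (m + 1), ∏ j, ((if i j = 0 then N + 1 else 0) + if i j = a then 1 else 0)

theorem WT_sym (N : ℝ) : IsSym (WT N : Idx d m → ℝ) := by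
  intro σ i
  unfold WT
  apply Finset.sum_congr rfl
  intro a _
  exact Equiv.prod_comp σ (fun j => (if i j = 0 then N + 1 else 0) + if i j = a then 1 else 0)

theorem P_WT (N : ℝ) (u : Fin d → Vec m) : P (WT N) u = ∑ a, ∏ j, lf N a (u j) := by
  rw [P_apply]
  unfold WT
  simp_rw [Finset.sum_mul]
  rw [Finset.sum_comm]
  apply Finset.sum_congr rfl
  intro a _
  have h1 : ∀ j, lf N a (u j) = ∑ k, ((if k = 0 then N + 1 else 0) + if k = a then 1 else 0) * u j k := by
    intro j
    unfold lf
    simp [add_mul, Finset.sum_add_distrib]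
  simp_rw [h1, ← Finset.prod_mul_distrib]
  exact (Fintype.prod_sum (fun j k => ((if k = 0 then N + 1 else 0) + if k = a then 1 else 0) * u j k)).symm

end LorBall
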