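import Pool.Agent.LorBall.Interior
import Pool.Agent.LorBall.Field

open Set Filter Topology Function NNReal
open scoped RealInnerProductSpace

namespace LorBall

/-- Lipschitz estimate for the cut-off field -/
theorem field_lip {E : Type*} [NormedAddCommGroup E] [NormedSpace ℝ E] (b : E → ℝ) (Lb R : ℝ)
    (hLb0 : 0 ≤ Lb) (hR : 0 ≤ R) (hLb : ∀ x y, |b x - b y| ≤ Lb * ‖x - y‖)
    (hb0 : ∀ x, 0 ≤ b x) (hb1 : ∀ x, b x ≤ 1) (hbR : ∀ x, R ≤ ‖x‖ → b x = 0)
    (C : ℝ) (W : E) (x y : E) :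
    ‖b x • (C • x - W) - b y • (C • y - W)‖ ≤ (|C| * (1 + Lb * R) + Lb * ‖W‖) * ‖x - y‖ := by
  have key : ∀ x y : E, ‖y‖ ≤ ‖x‖ → ‖b x • x - b y • y‖ ≤ (1 + Lb * R) * ‖x - y‖ := by
    intro x y hxy
    by_cases hy : R ≤ ‖y‖
    · rw [hbR y hy, hbR x (hy.trans hxy)]
      simp only [zero_smul, sub_zero, norm_zero]
      positivity
    · push Not at hy
      have h1 : b x • x - b y • y = b x • (x - y) + (b x - b y) • y := by
        rw [smul_sub, sub_smul]; abel
      rw [h1]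
      refine (norm_add_le _ _).trans ?_
      rw [norm_smul, norm_smul, Real.norm_eq_abs, Real.norm_eq_abs, abs_of_nonneg (hb0 x)]
      have h2 : b x * ‖x - y‖ ≤ 1 * ‖x - y‖ := mul_le_mul_of_nonneg_right (hb1 x) (norm_nonneg _)
      have h3 : |b x - b y| * ‖y‖ ≤ Lb * ‖x - y‖ * R :=
        mul_le_mul (hLb x y) hy.le (norm_nonneg _) (by positivity)
      linarith
  have key2 : ‖b x • x - b y • y‖ ≤ (1 + Lb * R) * ‖x - y‖ := by
    rcases le_total ‖y‖ ‖x‖ with h | h
    · exact key x y h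
    · rw [norm_sub_rev, norm_sub_rev x y]
      exact key y x h
  have h1 : b x • (C • x - W) - b y • (C • y - W) = C • (b x • x - b y • y) - (b x - b y) • W := by
    simp only [smul_sub, sub_smul, smul_comm C]
    abel
  rw [h1]
  refine (norm_sub_le _ _).trans ?_
  rw [norm_smul, norm_smul, Real.norm_eq_abs, Real.norm_eq_abs]
  have h2 : |C| * ‖b x • x - b y • y‖ ≤ |C| * ((1 + Lb * R) * ‖x - y‖) :=
    mul_le_mul_of_nonneg_left key2 (abs_nonneg _)
  have h3 : |b x - b y| * ‖W‖ ≤ Lb * ‖x - y‖ * ‖W‖ :=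
    mul_le_mul_of_nonneg_right (hLb x y) (norm_nonneg _)
  linarith

variable {d m : ℕ} {K : Set (Vec m)} {N : ℝ}

/-- the linear part -/
noncomputable def Alin : S0 d m →ₗ[ℝ] S0 d m where
  toFun x := ⟨WithLp.toLp 2 (fun i => -(dk i : ℝ) * cd x i), by
    refine ⟨fun σ i => ?_, ?_⟩
    · change -(dk (i ∘ σ) : ℝ) * cd x (i ∘ σ) = -(dk i : ℝ) * cd x i
      rw [dk_comp, cd_sym]
    · change -(dk (fun _ : Fin d => (0 : Fin (m + 1))) : ℝ) * cd x (fun _ => 0) = 0
      rw [cd_first, mul_zero]⟩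
  map_add' x y := by
    apply Subtype.ext
    ext i
    change -(dk i : ℝ) * cd (x + y) i = -(dk i : ℝ) * cd x i + -(dk i : ℝ) * cd y i
    rw [cd_add]
    ring
  map_smul' c x := by
    apply Subtype.ext
    ext i
    change -(dk i : ℝ) * cd (c • x) i = c * (-(dk i : ℝ) * cd x i)
    rw [cd_smul]
    ring

/-- the linear part as a continuous map -/
noncomputable def AL : S0 d m →L[ℝ] S0 d m := LinearMap.toContinuousLinearMap Alin

theorem cd_AL (x : S0 d m) (i : Idx d m) : cd (AL x) i = -(dk i : ℝ) * cd x i := rfl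

theorem norm_sq_eq (x : S0 d m) : ‖x‖ ^ 2 = ∑ i, cd x i ^ 2 := by
  have h6 : ‖x‖ = ‖(x : EuclideanSpace ℝ (Idx d m))‖ := rfl
  rw [h6, EuclideanSpace.norm_sq_eq]
  apply Finset.sum_congr rfl
  intro i _
  rw [Real.norm_eq_abs, sq_abs]
  rfl

theorem abs_cd_le (x : S0 d m) (i : Idx d m) : |cd x i| ≤ ‖x‖ := by
  have h1 : cd x i ^ 2 ≤ ‖x‖ ^ 2 := by
    rw [norm_sq_eq]
    exact Finset.single_le_sum (f := fun i => cd x i ^ 2) (fun i _ => sq_nonneg _)
      (Finset.mem_univ i)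
  exact abs_le_of_sq_le_sq h1 (norm_nonneg _)

theorem inner_AL (x : S0 d m) : ⟪x, AL x⟫ ≤ -‖x‖ ^ 2 := by
  have h1 : ⟪x, AL x⟫ = ∑ i, cd x i * cd (AL x) i := by
    have h2 : ⟪x, AL x⟫ = ⟪(x : EuclideanSpace ℝ (Idx d m)), (AL x : EuclideanSpace ℝ (Idx d m))⟫ :=
      rfl
    rw [h2, PiLp.inner_apply]
    apply Finset.sum_congr rfl
    intro i _
    rw [real_inner_comm]
    rfl
  rw [h1, norm_sq_eq, ← Finset.sum_neg_distrib]
  apply Finset.sum_le_sum
  intro i _
  rw [cd_AL]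
  by_cases hi : i = fun _ => 0
  · rw [hi, cd_first]
    simp
  · have h2 : (1 : ℝ) ≤ dk i := by exact_mod_cast dk_pos hi
    nlinarith [sq_nonneg (cd x i)]

/-- the constant of the perturbation -/
noncomputable def CW (d m : ℕ) (N : ℝ) : ℝ := WT N (fun _ : Fin d => (0 : Fin (m + 1)))

/-- the fixed direction of the perturbation -/
noncomputable def WS (d m : ℕ) (N : ℝ) : S0 d m :=
  ⟨WithLp.toLp 2 (fun i => WT N i - CW d m N * cT i), by
    refine ⟨fun σ i => ?_, ?_⟩
    · change WT N (i ∘ σ) - CW d m N * cT (i ∘ σ) = WT N i - CW d m N * cT i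
      rw [WT_sym N σ i, cT_sym σ i]
    · change WT N (fun _ => 0) - CW d m N * cT (fun _ => 0) = 0
      unfold CW cT
      simp⟩

theorem cd_WS (i : Idx d m) : cd (WS d m N) i = WT N i - CW d m N * cT i := rfl

theorem CW_nonneg (hN : 0 ≤ N) : 0 ≤ CW d m N := by
  unfold CW WT
  apply Finset.sum_nonneg
  intro a _
  apply Finset.prod_nonneg
  intro j _
  split_ifs <;> linarith

theorem Sgd_nonempty (hK : GoodCone K N) : (Sgd d K).Nonempty :=
  ⟨fun _ => e0, mem_Sgd.2 fun _ => hK.e0_mem_Sg⟩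

theorem exists_min (hK : GoodCone K N) (x : S0 d m) :
    ∃ u ∈ Sgd d K, ∀ v ∈ Sgd d K, P (tens x) u ≤ P (tens x) v := by
  have hc : Continuous fun u : Fin d → Vec m => P (tens x) u :=
    P_tens_continuous₂.comp (Continuous.prodMk_right x)
  obtain ⟨u, hu, hmin⟩ := (hK.Sgd_compact (d := d)).exists_isMinOn (Sgd_nonempty hK) hc.continuousOn
  exact ⟨u, hu, fun v hv => hmin hv⟩

/-- the minimum of the form over the slices -/
noncomputable def mf (hK : GoodCone K N) (x : S0 d m) : ℝ :=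
  P (tens x) (Classical.choose (exists_min hK x))

theorem mf_le (hK : GoodCone K N) (x : S0 d m) {v : Fin d → Vec m} (hv : v ∈ Sgd d K) :
    mf hK x ≤ P (tens x) v := (Classical.choose_spec (exists_min hK x)).2 v hv

theorem mf_mem (hK : GoodCone K N) (x : S0 d m) :
    ∃ u ∈ Sgd d K, mf hK x = P (tens x) u :=
  ⟨_, (Classical.choose_spec (exists_min hK x)).1, rfl⟩

theorem P_bound (hK : GoodCone K N) (t : Idx d m → ℝ) {u : Fin d → Vec m} (hu : u ∈ Sgd d K) :
    |P t u| ≤ N ^ d * ∑ i, |t i| := by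
  rw [P_apply, Finset.mul_sum]
  refine (Finset.abs_sum_le_sum_abs _ _).trans ?_
  apply Finset.sum_le_sum
  intro i _
  rw [abs_mul, mul_comm]
  apply mul_le_mul_of_nonneg_right _ (abs_nonneg _)
  rw [Finset.abs_prod]
  calc ∏ j, |u j (i j)| ≤ ∏ _j : Fin d, N := by
        apply Finset.prod_le_prod
        · intro j _; exact abs_nonneg _
        · intro j _
          have h1 := hK.closure_bd ((mem_Sgd.1 hu j).1) (i j)
          rwa [(mem_Sgd.1 hu j).2, mul_one] at h1
    _ = N ^ d := by simp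

theorem P_cd_bound (hK : GoodCone K N) (z : S0 d m) {u : Fin d → Vec m} (hu : u ∈ Sgd d K) :
    |P (cd z) u| ≤ N ^ d * Fintype.card (Idx d m) * ‖z‖ := by
  refine (P_bound hK (cd z) hu).trans ?_
  have hN : 0 ≤ N ^ d := pow_nonneg (by linarith [hK.N_ge]) d
  rw [mul_assoc]
  apply mul_le_mul_of_nonneg_left _ hN
  refine (Finset.sum_le_card_nsmul _ _ _ (fun i _ => abs_cd_le z i)).trans ?_
  rw [nsmul_eq_mul, Finset.card_univ]

theorem mf_lip (hK : GoodCone K N) (x y : S0 d m) :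
    |mf hK x - mf hK y| ≤ N ^ d * Fintype.card (Idx d m) * ‖x - y‖ := by
  have key : ∀ x y : S0 d m, mf hK x - mf hK y ≤ N ^ d * Fintype.card (Idx d m) * ‖x - y‖ := by
    intro x y
    obtain ⟨u, hu, huy⟩ := mf_mem hK y
    have h1 := mf_le hK x hu
    have h2 : P (tens x) u - P (tens y) u = P (cd (x - y)) u := by
      rw [← P_sub]
      congr 2
      funext i
      rw [Pi.sub_apply, cd_sub]
      unfold tens
      ring
    have h3 := (abs_le.1 (P_cd_bound hK (x - y) hu)).2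
    linarith
  rw [abs_le]
  constructor
  · have := key y x
    rw [norm_sub_rev] at this
    linarith
  · exact key x y

theorem mf_le_one (hK : GoodCone K N) (x : S0 d m) : mf hK x ≤ 1 := by
  have h : (fun _ : Fin d => (e0 : Vec m)) ∈ Sgd d K := mem_Sgd.2 fun _ => hK.e0_mem_Sg
  have := mf_le hK x h
  rwa [P_tens_e0] at this

/-- the cut-off function -/
noncomputable def bf (hK : GoodCone K N) (R : ℝ) (x : S0 d m) : ℝ := max 0 (min (mf hK x) (R - ‖x‖))

theorem bf_nonneg (hK : GoodCone K N) (R : ℝ) (x : S0 d m) : 0 ≤ bf hK R x := le_max_left _ _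

theorem bf_le_one (hK : GoodCone K N) (R : ℝ) (x : S0 d m) : bf hK R x ≤ 1 :=
  max_le zero_le_one ((min_le_left _ _).trans (mf_le_one hK x))

theorem bf_zero (hK : GoodCone K N) (R : ℝ) (x : S0 d m) (hx : R ≤ ‖x‖) : bf hK R x = 0 := by
  unfold bf
  rw [max_eq_left]
  exact (min_le_right _ _).trans (by linarith)

theorem bf_le_mf (hK : GoodCone K N) (R : ℝ) (x : S0 d m) (hx : 0 < bf hK R x) :
    bf hK R x ≤ mf hK x := by
  unfold bf at hx ⊢
  rcases le_total 0 (min (mf hK x) (R - ‖x‖)) with h | h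
  · rw [max_eq_right h]
    exact min_le_left _ _
  · rw [max_eq_left h] at hx
    exact absurd hx (lt_irrefl _)

theorem bf_pos (hK : GoodCone K N) (R : ℝ) (x : S0 d m) (h1 : 0 < mf hK x) (h2 : ‖x‖ < R) :
    0 < bf hK R x := by
  unfold bf
  rw [lt_max_iff]
  right
  exact lt_min h1 (by linarith)

theorem bf_lip (hK : GoodCone K N) (R : ℝ) (x y : S0 d m) :
    |bf hK R x - bf hK R y| ≤ (N ^ d * Fintype.card (Idx d m) + 1) * ‖x - y‖ := by
  unfold bf
  have h0 : 0 ≤ N ^ d * Fintype.card (Idx d m) := by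
    have : 0 ≤ N ^ d := pow_nonneg (by linarith [hK.N_ge]) d
    positivity
  have h1 : |max 0 (min (mf hK x) (R - ‖x‖)) - max 0 (min (mf hK y) (R - ‖y‖))| ≤
      |min (mf hK x) (R - ‖x‖) - min (mf hK y) (R - ‖y‖)| := by
    rw [max_comm 0, max_comm 0]
    exact abs_max_sub_max_le_abs _ _ _
  refine h1.trans ?_
  refine (abs_min_sub_min_le_max _ _ _ _).trans ?_
  apply max_le
  · refine (mf_lip hK x y).trans ?_
    apply mul_le_mul_of_nonneg_right _ (norm_nonneg _)
    linarith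
  · have h2 : |R - ‖x‖ - (R - ‖y‖)| ≤ ‖x - y‖ := by
      have : R - ‖x‖ - (R - ‖y‖) = ‖y‖ - ‖x‖ := by ring
      rw [this, norm_sub_rev]
      exact abs_norm_sub_norm_le y x
    refine h2.trans ?_
    have := mul_nonneg h0 (norm_nonneg (x - y))
    linarith

theorem bf_continuous (hK : GoodCone K N) (R : ℝ) : Continuous (bf hK R : S0 d m → ℝ) := by
  have h0 : 0 ≤ N ^ d * Fintype.card (Idx d m) := by
    have : 0 ≤ N ^ d := pow_nonneg (by linarith [hK.N_ge]) d
    positivity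
  have h : LipschitzWith (Real.toNNReal (N ^ d * Fintype.card (Idx d m) + 1))
      (bf hK R : S0 d m → ℝ) := by
    apply LipschitzWith.of_dist_le_mul
    intro x y
    rw [Real.dist_eq, dist_eq_norm, Real.coe_toNNReal _ (by linarith)]
    exact bf_lip hK R x y
  exact h.continuous

/-- the flow -/
theorem exists_flow (hK : GoodCone K N) (R : ℝ) (hR : 0 ≤ R) :
    ∃ (ε : ℝ) (F : CFlow (S0 d m)), 0 < ε ∧ ∀ x t, HasDerivAt (fun s => F.φ s x)
      (AL (F.φ t x) + ε • (bf hK R (F.φ t x) • (CW d m N • (F.φ t x) - WS d m N))) t := by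
  set Lb : ℝ := N ^ d * Fintype.card (Idx d m) + 1 with hLb
  have hLb0 : 0 ≤ Lb := by
    have : 0 ≤ N ^ d := pow_nonneg (by linarith [hK.N_ge]) d
    positivity
  set LZ : ℝ := |CW d m N| * (1 + Lb * R) + Lb * ‖WS d m N‖ with hLZ
  have hLZ0 : 0 ≤ LZ := by positivity
  have hZ := field_lip (bf hK R) Lb R hLb0 hR (bf_lip hK R) (bf_nonneg hK R)
    (bf_le_one hK R) (bf_zero hK R) (CW d m N) (WS d m N)
  rw [← hLZ] at hZ
  set ε : ℝ := 1 / (2 * (LZ + 1)) with hε
  have hε0 : 0 < ε := by positivity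
  have hεL : ε * LZ ≤ 1 / 2 := by
    rw [hε, one_div_mul_eq_div, div_le_div_iff₀ (by positivity) (by norm_num)]
    linarith
  let Z : S0 d m → S0 d m := fun x => ε • (bf hK R x • (CW d m N • x - WS d m N))
  have hZlip : ∀ x y, ‖Z x - Z y‖ ≤ ε * LZ * ‖x - y‖ := by
    intro x y
    simp only [Z]
    rw [← smul_sub, norm_smul, Real.norm_of_nonneg hε0.le, mul_assoc]
    exact mul_le_mul_of_nonneg_left (hZ x y) hε0.le
  have hZ1 : LipschitzWith (Real.toNNReal (ε * LZ)) Z := by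
    apply LipschitzWith.of_dist_le_mul
    intro x y
    rw [dist_eq_norm, dist_eq_norm, Real.coe_toNNReal _ (by positivity)]
    exact hZlip x y
  have hZB : ∀ x, ‖Z x‖ ≤ Real.toNNReal (ε * (|CW d m N| * R + ‖WS d m N‖)) := by
    intro x
    rw [Real.coe_toNNReal _ (by positivity)]
    simp only [Z]
    rw [norm_smul, Real.norm_of_nonneg hε0.le]
    apply mul_le_mul_of_nonneg_left _ hε0.le
    rw [norm_smul, Real.norm_of_nonneg (bf_nonneg hK R x)]
    by_cases hx : R ≤ ‖x‖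
    · rw [bf_zero hK R x hx, zero_mul]
      positivity
    · push Not at hx
      have h1 : ‖CW d m N • x - WS d m N‖ ≤ |CW d m N| * R + ‖WS d m N‖ := by
        refine (norm_sub_le _ _).trans ?_
        rw [norm_smul, Real.norm_eq_abs]
        have := mul_le_mul_of_nonneg_left hx.le (abs_nonneg (CW d m N))
        linarith
      calc bf hK R x * ‖CW d m N • x - WS d m N‖
          ≤ 1 * ‖CW d m N • x - WS d m N‖ :=
            mul_le_mul_of_nonneg_right (bf_le_one hK R x) (norm_nonneg _)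
        _ ≤ _ := by rw [one_mul]; exact h1
  have hM : ∀ x y, ⟪x - y, (AL x + Z x) - (AL y + Z y)⟫ ≤ -(1 / 2) * ‖x - y‖ ^ 2 := by
    intro x y
    have h1 : (AL x + Z x) - (AL y + Z y) = AL (x - y) + (Z x - Z y) := by
      rw [map_sub]; abel
    rw [h1, inner_add_right]
    have h2 := inner_AL (x - y)
    have h3 : ⟪x - y, Z x - Z y⟫ ≤ 1 / 2 * ‖x - y‖ ^ 2 := by
      refine (real_inner_le_norm _ _).trans ?_
      have h4 := mul_le_mul_of_nonneg_left (hZlip x y) (norm_nonneg (x - y))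
      have h5 : ‖x - y‖ * (ε * LZ * ‖x - y‖) = ε * LZ * ‖x - y‖ ^ 2 := by ring
      rw [h5] at h4
      have h6 := mul_le_mul_of_nonneg_right hεL (sq_nonneg ‖x - y‖)
      linarith
    linarith
  obtain ⟨F, hF⟩ := cflow_of_field AL Z _ _ hZ1 hZB hM
  exact ⟨ε, F, hε0, hF⟩

end LorBall
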